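import Pool.Agent.P.MP_63735c_ag.Kum.H

/-! From gluing data to the hypotheses on a symplectic surface. -/

open scoped ComplexOrder ContDiff Matrix Topology
open Filter

namespace Pool.Agent.Kum

open Pool.Agent.SPF Pool.Agent.CK Pool.Agent.SE Pool.Agent.ZB

/-- The standard symplectic matrix. -/
def aS : Matrix (Fin 2) (Fin 2) ℂ := !![0, 1; -1, 0]

theorem aS_conj (J : Matrix (Fin 2) (Fin 2) ℂ) : Jᵀ * aS * J = J.det • aS := by
  ext a b
  fin_cases a <;> fin_cases b <;>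
    simp [aS, Matrix.mul_apply, Fin.sum_univ_two, Matrix.det_fin_two] <;> ring

theorem aS_skew : aSᵀ = -aS := by
  ext a b
  fin_cases a <;> fin_cases b <;> simp [aS]

theorem aS_inv : aS⁻¹ = -aS := by
  refine Matrix.inv_eq_left_inv ?_
  ext a b
  fin_cases a <;> fin_cases b <;> simp [aS, Matrix.mul_apply, Fin.sum_univ_two]

theorem a_skew {γ : Matrix (Fin 2) (Fin 2) ℂ} (h : γᵀ = -γ) : γ = γ 0 1 • aS := by
  have h0 := congrFun (congrFun h 0) 0
  have h1 := congrFun (congrFun h 1) 1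
  have h2 := congrFun (congrFun h 0) 1
  simp only [Matrix.transpose_apply, Matrix.neg_apply] at h0 h1 h2
  ext a b
  fin_cases a <;> fin_cases b <;> simp [aS]
  · linear_combination h0 / 2
  · exact h2
  · linear_combination h1 / 2

theorem a_lin {F : Type} [AddCommMonoid F] [Module ℂ F] (l : E 2 →ₗ[ℂ] F) (v : E 2) :
    l v = ∑ c, v c • l (Pi.single c 1) := by
  conv_lhs => rw [pi_eq_sum_univ' v]
  simp only [map_sum, map_smul]

theorem a_inj {φ : E 2 → E 2} {z : E 2} (h : (jac φ z).det = 1) :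
    Function.Injective (fderiv ℂ φ z) := by
  have h1 : ∀ v, fderiv ℂ φ z v = jac φ z *ᵥ v := fun v => by
    have h2 := a_lin (fderiv ℂ φ z : E 2 →ₗ[ℂ] E 2) v
    rw [ContinuousLinearMap.coe_coe] at h2
    rw [h2]
    ext c
    simp [jac, Matrix.mulVec, dotProduct, mul_comm]
  intro v w e
  rw [h1, h1] at e
  exact Matrix.mulVec_injective_iff_isUnit.2
    ((Matrix.isUnit_iff_isUnit_det _).2 (h ▸ isUnit_one)) e

variable {X : Type} [TopologicalSpace X] (G : Glue X)

/-- Every local change of charts has the properties of the given ones. -/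
theorem Glue.chg {i j : G.ι} {z : E 2} (hz : z ∈ G.W i) {φ : E 2 → E 2}
    (h : ∀ᶠ w in 𝓝 z, φ w ∈ G.W j ∧ G.p j (φ w) = G.p i w) :
    AnalyticAt ℂ φ z ∧ (jac φ z).det = 1 ∧
      lv (G.Φ i) z = (jac φ z)ᵀ * lv (G.Φ j) (φ z) * (jac φ z).map star ∧
      lv (G.ψ i) z = (jac φ z)ᵀ * lv (G.ψ j) (φ z) * (jac φ z).map star := by
  obtain ⟨h1, h2⟩ := h.self_of_nhds
  obtain ⟨φ0, e0, ha, he, hP, hg⟩ := G.trans i j z hz _ h1 h2.symm
  have hW : ∀ᶠ w in 𝓝 z, φ0 w ∈ G.W j :=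
    ha.continuousAt.eventually_mem ((G.isOpen j).mem_nhds (e0 ▸ h1))
  have hE : φ =ᶠ[𝓝 z] φ0 := by
    filter_upwards [h, he, hW] with w a b c
    exact G.inj j a.1 c (a.2.trans b.1.symm)
  have hne : ∀ w ∈ G.W i, φ0 w ∈ G.W j → G.p j (φ0 w) = G.p i w → G.g i j (G.p i w) ≠ 0 ∧
      G.ψ i w - G.ψ j (φ0 w) = -2 * Real.log ‖G.g i j (G.p i w)‖ := fun w a b c => by
    have h3 := G.ψ_eq i j w a _ b c.symm
    have h4 : ‖G.g i j (G.p i w)‖ ≠ 0 := fun h0 => by
      rw [h0] at h3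
      simp at h3
    have h5 := congrArg Real.log h3
    rw [Real.log_mul (pow_ne_zero 2 h4) (Real.exp_ne_zero _), Real.log_exp, Real.log_exp,
      Real.log_pow] at h5
    refine ⟨norm_ne_zero_iff.1 h4, ?_⟩
    push_cast at h5
    linarith
  have hψ : PH (fun w => G.ψ i w - G.ψ j (φ0 w)) z := by
    refine ((PH.log hg (hne z hz hW.self_of_nhds he.self_of_nhds.1).1).smul (-2)).congr ?_
    filter_upwards [he, hW, (G.isOpen i).mem_nhds hz] with w a b c
    exact (hne w c b a.1).2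
  rw [jac_congr hE, ← e0]
  exact ⟨ha.congr hE.symm, he.self_of_nhds.2, lv_change (G.Φ_smooth j).contDiffAt ha hP,
    lv_change (G.ψ_smooth j).contDiffAt ha hψ⟩

/-- The charts. -/
noncomputable def Glue.chart (i : G.ι) : Chart 2 where
  W := G.W i
  σ := fun _ => aS
  η := lv (G.ψ i)
  isOpen := G.isOpen i
  σ_hol := fun _ _ => differentiableOn_const _
  σ_skew := fun _ _ => aS_skew
  σ_det := fun _ _ => by simp [aS, Matrix.det_fin_two]
  σ_closed := fun _ _ _ _ _ => by simp only [dz_const, add_zero]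
  η_smooth := fun a b _ _ => (lv_smooth (G.ψ_smooth i).contDiffAt a b).contDiffWithinAt
  η_psd := fun z _ => G.ψ_psd i z
  η_closed := fun _ _ a b c => lv_closed (G.ψ_smooth i).contDiffAt a b c

theorem Glue.isChange {i j : G.ι} {O : Set (E 2)} (hO : IsOpen O) {φ : E 2 → E 2}
    (h : ∀ w ∈ O, w ∈ G.W i ∧ φ w ∈ G.W j ∧ G.p j (φ w) = G.p i w) :
    IsChange (G.chart i) (G.chart j) O φ := by
  have h1 := fun z (hz : z ∈ O) => G.chg (h z hz).1 (φ := φ) (j := j)
    ((show ∀ᶠ w in 𝓝 z, w ∈ O from hO.mem_nhds hz).mono fun w hw => (h w hw).2)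
  refine ⟨hO, fun w hw => (h w hw).1, fun z hz => (h1 z hz).1.differentiableAt.differentiableWithinAt,
    fun w hw => (h w hw).2.1, fun z hz => ?_, fun z hz => (h1 z hz).2.2.2⟩
  show aS = _ * aS * _
  rw [aS_conj, (h1 z hz).2.1, one_smul]

theorem Glue.exChange {i j : G.ι} {z : E 2} (hz : z ∈ G.W i) {φ : E 2 → E 2}
    (ha : AnalyticAt ℂ φ z) (hj : φ z ∈ G.W j) (h : ∀ᶠ w in 𝓝 z, G.p j (φ w) = G.p i w) :
    ∃ O, IsChange (G.chart i) (G.chart j) O φ ∧ z ∈ O ∧ ∀ w ∈ O, G.p j (φ w) = G.p i w := by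
  have h1 : ∀ᶠ w in 𝓝 z, w ∈ G.W i ∧ φ w ∈ G.W j ∧ G.p j (φ w) = G.p i w :=
    (show ∀ᶠ w in 𝓝 z, w ∈ G.W i from (G.isOpen i).mem_nhds hz).and
      ((ha.continuousAt.eventually_mem ((G.isOpen j).mem_nhds hj)).and h)
  obtain ⟨O, h2, h3, h4⟩ := eventually_nhds_iff.1 h1
  exact ⟨O, G.isChange h3 h2, h4, fun w hw => (h2 w hw).2.2⟩

/-- The chart maps with values in the subtype of all points. -/
def Glue.q (i : G.ι) (z : E 2) : (Set.univ : Set X) := ⟨G.p i z, Set.mem_univ _⟩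

theorem Glue.q_im (i : G.ι) (O : Set (E 2)) : G.q i '' O = Subtype.val ⁻¹' (G.p i '' O) := by
  ext x
  constructor
  · rintro ⟨z, hz, rfl⟩
    exact ⟨z, hz, rfl⟩
  · rintro ⟨z, hz, e⟩
    exact ⟨z, hz, Subtype.ext e⟩

theorem Glue.q_mem {i : G.ι} {O : Set (E 2)} {x : (Set.univ : Set X)} (h : x ∈ G.q i '' O) :
    x.1 ∈ G.p i '' O := by
  rw [G.q_im] at h
  exact h

/-- The atlas. -/
noncomputable def Glue.atlas : Atlas (Set.univ : Set X) 2 where
  ι := G.ι
  C := G.chart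
  p := G.q
  G := fun _ => {fun w => w}
  cont := fun i => Topology.IsInducing.subtypeVal.continuousOn_iff.2 (G.cont i)
  opn := fun i O h1 h2 => by
    rw [G.q_im]
    exact (G.opn i O h1 h2).preimage continuous_subtype_val
  cover := fun x => by
    obtain ⟨i, z, hz, e⟩ := G.cover x.1
    exact ⟨i, z, hz, Subtype.ext e⟩
  trans := fun i j z hz y hy e => by
    obtain ⟨φ, e0, ha, he, -⟩ := G.trans i j z hz y hy (congrArg Subtype.val e)
    obtain ⟨O, h1, h2, h3⟩ := G.exChange hz ha (e0 ▸ hy) (he.mono fun w hw => hw.1)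
    exact ⟨O, φ, h1, h2, e0, fun w hw => Subtype.ext (h3 w hw)⟩
  G_fin := fun _ => Set.finite_singleton _
  G_iso := by
    rintro i _ rfl
    exact ⟨G.isChange (G.isOpen i) fun w hw => ⟨hw, hw, rfl⟩, fun _ _ => rfl⟩
  G_fib := fun i z hz y hy e => ⟨_, rfl, G.inj i hz hy (congrArg Subtype.val e)⟩

/-- The inverse of a chart. -/
noncomputable def Glue.iv (i : G.ι) : X → E 2 := Function.invFunOn (G.p i) (G.W i)

theorem Glue.iv_p {i : G.ι} {z : E 2} (hz : z ∈ G.W i) : G.iv i (G.p i z) = z :=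
  (G.inj i).leftInvOn_invFunOn hz

theorem Glue.iv_spec {i : G.ι} {x : X} (hx : x ∈ G.p i '' G.W i) :
    G.iv i x ∈ G.W i ∧ G.p i (G.iv i x) = x := by
  obtain ⟨z, hz, rfl⟩ := hx
  rw [G.iv_p hz]
  exact ⟨hz, rfl⟩

theorem Glue.V_open (i : G.ι) : IsOpen (G.p i '' G.W i) := G.opn i _ (G.isOpen i) subset_rfl

theorem Glue.iv_cont (i : G.ι) : ContinuousOn (G.iv i) (G.p i '' G.W i) := by
  rintro _ ⟨z, hz, rfl⟩
  refine ContinuousAt.continuousWithinAt ?_
  rw [ContinuousAt, G.iv_p hz, tendsto_nhds]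
  intro U hU hzU
  refine mem_of_superset ((G.opn i _ (hU.inter (G.isOpen i)) Set.inter_subset_right).mem_nhds
    ⟨z, ⟨hzU, hz⟩, rfl⟩) ?_
  rintro _ ⟨w, hw, rfl⟩
  rw [Set.mem_preimage, G.iv_p hw.2]
  exact hw.1

theorem Glue.iv_chg {i α : G.ι} {y : E 2} (hy : y ∈ G.W i) (h : G.p i y ∈ G.p α '' G.W α) :
    ∀ᶠ w in 𝓝 y, G.iv α (G.p i w) ∈ G.W α ∧ G.p α (G.iv α (G.p i w)) = G.p i w :=
  (((G.cont i).continuousAt ((G.isOpen i).mem_nhds hy)).eventually_mem
    ((G.V_open α).mem_nhds h)).mono fun _ hw => G.iv_spec hw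

/-- The local embeddings. -/
noncomputable def Glue.amb : Amb (Set.univ : Set X) G.atlas where
  κ := G.ι
  M := fun _ => 2
  D := fun α =>
    { W := G.W α
      π := fun _ => aS⁻¹
      η := lv (G.ψ α)
      isOpen := G.isOpen α
      π_hol := fun _ _ => differentiableOn_const _
      π_skew := fun _ _ => by rw [aS_inv, Matrix.transpose_neg, aS_skew]
      η_smooth := (G.chart α).η_smooth }
  V := fun α => G.p α '' G.W α
  z := G.iv
  V_open := G.V_open
  cover := fun x => by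
    obtain ⟨i, z, hz, e⟩ := G.cover x
    exact ⟨i, z, hz, e⟩
  cont := G.iv_cont
  inj := fun α x hx y hy e => by rw [← (G.iv_spec hx).2, e, (G.iv_spec hy).2]
  maps := fun α x hx => (G.iv_spec hx).1
  trans := fun α β x hx => by
    have h1 := G.iv_spec hx.1
    refine ⟨fun w => G.iv β (G.p α w), ?_, ?_⟩
    · exact (G.chg h1.1 (G.iv_chg h1.1 (h1.2.symm ▸ hx.2))).1.eventually_analyticAt.mono
        fun w hw => hw.differentiableAt
    · filter_upwards [(G.V_open α).mem_nhds hx.1] with x' hx'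
      rw [(G.iv_spec hx').2]
  hol := fun α i y hy h => by
    have h1 := G.chg hy (G.iv_chg hy h)
    exact ⟨h1.1.differentiableAt, a_inj h1.2.1⟩
  π_eq := fun α i y hy h => by
    have h1 := (G.chg hy (G.iv_chg hy h)).2.1
    have h2 := aS_conj (jac (fun w => G.iv α (G.p i w)) y)ᵀ
    rw [Matrix.transpose_transpose, Matrix.det_transpose, h1, one_smul] at h2
    show aS⁻¹ = jac (fun w => G.iv α (G.p i w)) y * aS⁻¹ * (jac (fun w => G.iv α (G.p i w)) y)ᵀ
    rw [aS_inv, Matrix.mul_neg, Matrix.neg_mul, h2]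
  η_eq := fun α i y hy h => (G.chg hy (G.iv_chg hy h)).2.2.2
  sing := fun _ x _ h => absurd (Set.mem_univ x) h

/-- The Kähler form. -/
noncomputable def Glue.form : Form11 G.atlas where
  h := fun i => lv (G.Φ i)
  smooth := fun i a b _ _ => (lv_smooth (G.Φ_smooth i).contDiffAt a b).contDiffWithinAt
  herm := fun i z _ => (G.Φ_pos i z).isHermitian
  closed := fun i _ _ a b c => lv_closed (G.Φ_smooth i).contDiffAt a b c
  compat := fun _ _ O _ h1 h2 z hz => (G.chg (h1.sub hz)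
    ((show ∀ᶠ w in 𝓝 z, w ∈ O from h1.isOpen.mem_nhds hz).mono fun w hw =>
      ⟨h1.maps hw, congrArg Subtype.val (h2 w hw)⟩)).2.2.1

theorem Glue.g_an {i j : G.ι} {z : E 2} (hz : z ∈ G.W i) (h : G.p i z ∈ G.p j '' G.W j) :
    AnalyticAt ℂ (fun w => G.g i j (G.p i w)) z := by
  obtain ⟨y, hy, e⟩ := h
  obtain ⟨φ, -, -, -, -, hg⟩ := G.trans i j z hz y hy e.symm
  exact hg

/-- The line bundle. -/
noncomputable def Glue.line : Line G.atlas where
  g := fun i j x => G.g i j x.1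
  ψ := G.ψ
  g_hol := fun _ _ _ hz h => (G.g_an hz (G.q_mem h)).differentiableAt
  g_mul := fun i j k x hi hj hk => G.g_mul i j k x.1 (G.q_mem hi) (G.q_mem hj) (G.q_mem hk)
  ψ_smooth := fun i => (G.ψ_smooth i).contDiffOn
  ψ_eq := fun i j z hz y hy e => G.ψ_eq i j z hz y hy (congrArg Subtype.val e)
  curv := fun _ _ _ _ _ => rfl

/-- The space is its own resolution. -/
noncomputable def Glue.res : Res G.line X where
  ι := G.ι
  W := G.W
  p := G.p
  isOpen := G.isOpen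
  cont := G.cont
  inj := G.inj
  opn := G.opn
  cover := G.cover
  trans := fun i k z hz y hy e => by
    obtain ⟨φ, e0, ha, he, -⟩ := G.trans i k z hz y hy e
    refine ⟨φ, e0, ?_⟩
    filter_upwards [ha.eventually_analyticAt, he,
      ha.continuousAt.eventually_mem ((G.isOpen k).mem_nhds (e0 ▸ hy))] with w a b c
    exact ⟨a.differentiableAt, c, b.1⟩
  K := fun i => lv (G.Φ i)
  K_smooth := G.form.smooth
  K_pos := fun i z _ => G.Φ_pos i z
  K_closed := G.form.closed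
  K_eq := fun _ _ _ hz _ h => (G.chg hz (h.mono fun _ hw => hw.2)).2.2.1
  g := G.g
  ψ := G.ψ
  g_hol := fun _ _ _ hz h => (G.g_an hz h).differentiableAt
  g_mul := G.g_mul
  ψ_smooth := fun i => (G.ψ_smooth i).contDiffOn
  ψ_eq := G.ψ_eq
  ψ_psd := fun i z _ => G.ψ_psd i z
  j := Subtype.val
  c := fun i => i
  j_cont := continuous_subtype_val
  j_inj := Subtype.val_injective
  j_dense := Function.Surjective.denseRange fun x => ⟨⟨x, Set.mem_univ x⟩, rfl⟩
  sub := fun _ => subset_rfl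
  p_eq := fun _ _ _ => rfl
  g_eq := fun _ _ _ _ _ => rfl
  ψ_res := fun _ _ _ => rfl

/-- The identity map over the space. -/
noncomputable def Glue.over : Over G.amb G.res where
  full := fun _ _ hw _ => hw
  cover := G.cover
  σ_ext := fun _ => ⟨fun _ => aS, fun _ _ => differentiableOn_const _, fun _ _ => rfl⟩
  ρ := fun x => x
  cont := continuous_id
  ρ_j := fun _ => rfl
  hol := fun _ _ _ hw h => (G.chg hw (G.iv_chg hw h)).1.differentiableAt

theorem Glue.normal : Normal G.amb := by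
  intro α x hx O hO hxO f hf
  have h1 := G.iv_spec hx
  refine ⟨fun w => f (G.q α w), ?_, ?_⟩
  · have h2 : IsOpen (G.W α ∩ G.p α ⁻¹' O) := (G.cont α).isOpen_inter_preimage (G.isOpen α) hO
    have h3 : G.iv α x ∈ G.W α ∩ G.p α ⁻¹' O := ⟨h1.1, by rw [Set.mem_preimage, h1.2]; exact hxO⟩
    filter_upwards [h2.mem_nhds h3] with w hw
    exact (hf α).differentiableAt (h2.mem_nhds hw)
  · filter_upwards [(G.V_open α).mem_nhds hx] with y hy h
    exact congrArg f (Subtype.ext (G.iv_spec hy).2.symm)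

theorem Glue.noOdd : NoOdd G.atlas := by
  intro p hp α hα i z hz
  by_cases h1 : p = 1
  · subst h1
    let l : G.ι → E 2 → E 2 →ₗ[ℂ] ℂ := fun i z =>
      (AlternatingMap.ofSubsingleton ℂ (E 2) ℂ (0 : Fin 1)).symm (α i z)
    have hl : ∀ i z v, l i z v = α i z fun _ => v := fun _ _ _ => rfl
    have h2 := G.one1 (fun i z a => l i z (Pi.single a 1))
      (fun i => differentiableOn_pi.2 fun a => hα.1 i _) (fun i j φ z hz ha hj he => by
        obtain ⟨O, h3, h4, h5⟩ := G.exChange hz ha hj he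
        funext a
        have h6 := hα.2 i j O φ h3 (fun w hw => Subtype.ext (h5 w hw)) z h4
          fun _ => Pi.single a 1
        rw [← hl, ← hl, a_lin (l j (φ z))] at h6
        show l i z (Pi.single a 1) = _
        rw [h6]
        simp [Matrix.vecMul, dotProduct, jac, mul_comm]) i z hz
    ext v
    have h3 : v = fun _ => v 0 := funext fun k => congrArg v (Subsingleton.elim _ _)
    rw [h3]
    refine (hl i z (v 0)).symm.trans ?_
    rw [a_lin]
    show _ = (0 : ℂ)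
    refine Finset.sum_eq_zero fun c _ => ?_
    rw [show l i z (Pi.single c 1) = 0 from congrFun h2 c, smul_zero]
  · ext v
    refine (α i z).map_linearDependent v fun h => ?_
    have h2 := h.fintype_card_le_finrank
    obtain ⟨k, rfl⟩ := hp
    simp at h2
    omega

theorem Glue.h20 : Pool.Agent.BP.H20 G.atlas := by
  intro γ hγ hd
  choose i0 z0 hz0 e0 using G.cover
  have h1 : ∀ i, ∀ z ∈ G.W i, γ (i0 (G.p i z)) (z0 (G.p i z)) 0 1 = γ i z 0 1 := fun i z hz => by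
    obtain ⟨O, φ, h2, h3, h4, h5⟩ := G.atlas.trans i _ z hz _ (hz0 (G.p i z))
      (Subtype.ext (e0 _).symm)
    have h6 := hγ.2.2 i _ O φ h2 h5 z h3
    have h7 := (G.chg hz ((show ∀ᶠ w in 𝓝 z, w ∈ O from h2.isOpen.mem_nhds h3).mono fun w hw =>
      ⟨h2.maps hw, congrArg Subtype.val (h5 w hw)⟩)).2.1
    rw [h4, a_skew (hγ.2.1 _ _ (hz0 (G.p i z))), Matrix.mul_smul, Matrix.smul_mul, aS_conj, h7,
      one_smul] at h6
    rw [h6]
    simp [aS]
  obtain ⟨c, hc⟩ := G.fun0 (fun x => γ (i0 x) (z0 x) 0 1) fun i =>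
    (hd i 0 1).congr fun z hz => h1 i z hz
  refine ⟨c, fun i z hz => ?_⟩
  rw [a_skew (hγ.2.1 i z hz), ← h1 i z hz, hc]
  rfl

theorem Glue.kah : KahS G.amb G.form := by
  intro x
  obtain ⟨α, hx⟩ := G.amb.cover x
  refine ⟨α, 1, lv (G.Φ α), hx, one_pos,
    fun a b _ _ => (lv_smooth (G.Φ_smooth α).contDiffAt a b).contDiffWithinAt,
    fun w _ => G.Φ_pos α w, ?_⟩
  filter_upwards [(G.V_open α).mem_nhds hx] with x' hx' i y hy e
  subst e
  exact (G.chg hy (G.iv_chg hy hx')).2.2.1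

theorem Glue.cartier : Cartier G.line := by
  intro x
  obtain ⟨α, z0, hz0, rfl⟩ := G.cover x
  have hU : IsOpen (G.W α ∩ {w | |G.ψ α w - G.ψ α z0| < 1}) := (G.isOpen α).inter
    (isOpen_lt ((G.ψ_smooth α).continuous.sub continuous_const).abs continuous_const)
  refine ⟨G.p α '' (G.W α ∩ {w | |G.ψ α w - G.ψ α z0| < 1}), fun i z => G.g α i (G.p i z),
    Real.exp (-G.ψ α z0 - 1), Real.exp (-G.ψ α z0 + 1), G.opn α _ hU Set.inter_subset_left,
    ⟨z0, ⟨hz0, by simp⟩, rfl⟩, Real.exp_pos _, fun i y hy => ?_, fun i z hz h => ?_⟩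
  · have h1 : G.p i y ∈ G.p α '' G.W α := Set.image_mono Set.inter_subset_left hy.2
    have h2 := G.iv_chg hy.1 h1
    have h3 := G.g_an (j := i) h2.self_of_nhds.1 ⟨y, hy.1, h2.self_of_nhds.2.symm⟩
    have h4 := (h3.comp (f := fun w => G.iv α (G.p i w)) (G.chg hy.1 h2).1).congr
      (g := fun w => G.g α i (G.p i w)) (h2.mono fun w hw => congrArg (G.g α i) hw.2)
    exact h4.differentiableAt.differentiableWithinAt
  · obtain ⟨w, hw, e⟩ := h
    have e' : G.p α w = G.p i z := e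
    refine ⟨?_, fun j y hy e2 => ?_⟩
    · have h1 := G.ψ_eq α i w hw.1 z hz e'
      rw [e'] at h1
      have h2 := abs_lt.1 (show |G.ψ α w - G.ψ α z0| < 1 from hw.2)
      show _ ≤ ‖G.g α i (G.p i z)‖ ^ 2 * Real.exp (-G.ψ i z) ∧
        ‖G.g α i (G.p i z)‖ ^ 2 * Real.exp (-G.ψ i z) ≤ _
      rw [← h1]
      exact ⟨Real.exp_le_exp.2 (by linarith [h2.2]), Real.exp_le_exp.2 (by linarith [h2.1])⟩
    · have e3 : G.p i z = G.p j y := congrArg Subtype.val e2
      show G.g α j (G.p j y) = G.g i j (G.p i z) * G.g α i (G.p i z)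
      rw [← e3]
      exact (G.g_mul α i j _ ⟨w, hw.1, e'⟩ ⟨z, hz, rfl⟩ ⟨y, hy, e3.symm⟩).symm

theorem Glue.assemble {X : Type} [TopologicalSpace X] (G : Glue X) :
    ∃ (R : Set X) (_ : IsOpen R) (_ : Dense R) (_ : PreconnectedSpace R) (A : Atlas R (2 * 1))
      (B : Amb R A) (K : Form11 A) (L : Line A) (Z : Res L X) (_ : Over B Z),
      Normal B ∧ NoOdd A ∧ Pool.Agent.BP.H20 A ∧ KahS B K ∧ Cartier L ∧
        (∀ i, ∀ z ∈ (A.C i).W, ((A.C i).η z).det = 0) ∧
        ∃ i, ∃ z ∈ (A.C i).W, (A.C i).η z ≠ 0 :=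
  have := G.conn
  ⟨Set.univ, isOpen_univ, dense_univ, Subtype.preconnectedSpace isPreconnected_univ, G.atlas,
    G.amb, G.form, G.line, G.res, G.over, G.normal, G.noOdd, G.h20, G.kah, G.cartier,
    fun i z _ => G.ψ_det i z, G.ψ_ne⟩

end Pool.Agent.Kum
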