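import Pool.Agent.P.MP_63735c_ag.Kum.G2

/-! From contraction data to the hypotheses on a singular symplectic surface. -/

open scoped ComplexOrder ContDiff Matrix Topology
open Filter

namespace Pool.Agent.Kum

open Pool.Agent.SPF Pool.Agent.CK Pool.Agent.SE Pool.Agent.ZB

section

variable {X : Type} [TopologicalSpace X] (G : Glue X)

/-- The atlas on the space itself. -/
noncomputable def Glue.atlas2 : Atlas X 2 where
  ι := G.ι
  C := G.chart
  p := G.p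
  G := fun _ => {fun w => w}
  cont := G.cont
  opn := G.opn
  cover := G.cover
  trans := fun i j z hz y hy e => by
    obtain ⟨φ, e0, ha, he, -⟩ := G.trans i j z hz y hy e
    obtain ⟨O, h1, h2, h3⟩ := G.exChange hz ha (e0 ▸ hy) (he.mono fun w hw => hw.1)
    exact ⟨O, φ, h1, h2, e0, h3⟩
  G_fin := fun _ => Set.finite_singleton _
  G_iso := by
    rintro i _ rfl
    exact ⟨G.isChange (G.isOpen i) fun w hw => ⟨hw, hw, rfl⟩, fun _ _ => rfl⟩
  G_fib := fun i z hz y hy e => ⟨_, rfl, G.inj i hz hy e⟩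

theorem Glue.noOdd2 : NoOdd G.atlas2 := fun p hp α hα =>
  G.noOdd p hp α ⟨hα.1, fun i j O φ h1 h2 =>
    hα.2 i j O φ h1 fun w hw => congrArg Subtype.val (h2 w hw)⟩

theorem Glue.h202 : Pool.Agent.BP.H20 G.atlas2 := fun γ hγ hd =>
  G.h20 γ ⟨hγ.1, hγ.2.1, fun i j O φ h1 h2 =>
    hγ.2.2 i j O φ h1 fun w hw => congrArg Subtype.val (h2 w hw)⟩ hd

/-- The line bundle on the space itself. -/
noncomputable def Glue.line2 : Line G.atlas2 where
  g := G.g
  ψ := G.ψ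
  g_hol := fun _ _ _ hz h => (G.g_an hz h).differentiableAt
  g_mul := G.g_mul
  ψ_smooth := fun i => (G.ψ_smooth i).contDiffOn
  ψ_eq := G.ψ_eq
  curv := fun _ _ _ _ _ => rfl

end

variable {X Y : Type} [TopologicalSpace X] [TopologicalSpace Y] {R : Set X} {G : Glue Y}
  (S : Sing R G)

include S in
theorem Sing.a2_ne : R.Nonempty := by
  obtain ⟨_, _, _, h, _⟩ := S.ψ_ne
  exact ⟨_, h⟩

open Classical in
/-- A retraction onto the regular part, as a map of sets. -/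
noncomputable def Sing.rt (x : X) : R := if h : x ∈ R then ⟨x, h⟩ else ⟨_, S.a2_ne.some_mem⟩

theorem Sing.rt_eq {x : X} (h : x ∈ R) : S.rt x = ⟨x, h⟩ := dif_pos h

theorem Sing.rt_val {x : X} (h : x ∈ R) : (S.rt x : X) = x := by rw [S.rt_eq h]

theorem Sing.j_rt {y : Y} (h : S.ρ y ∈ R) : S.j (S.rt (S.ρ y)) = y := by
  rw [S.rt_eq h, S.j_ρ]

theorem Sing.rt_j (x : R) : S.rt (S.ρ (S.j x)) = x := by
  rw [S.ρ_j, S.rt_eq x.2]

theorem Sing.rt_inj {y y' : Y} (h : S.ρ y ∈ R) (h' : S.ρ y' ∈ R)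
    (e : S.rt (S.ρ y) = S.rt (S.ρ y')) : y = y' := by
  rw [← S.j_rt h, e, S.j_rt h']

theorem Sing.a2_open (i : G.ι) : IsOpen {w | w ∈ G.W i ∧ S.ρ (G.p i w) ∈ R} :=
  (G.cont i).isOpen_inter_preimage (G.isOpen i) (S.R_open.preimage S.ρ_cont)

theorem Sing.a2_ev {i : G.ι} {w : E 2} (hw : w ∈ G.W i) (h : S.ρ (G.p i w) ∈ R) :
    ∀ᶠ v in 𝓝 w, S.ρ (G.p i v) ∈ R :=
  (show ∀ᶠ v in 𝓝 w, v ∈ {w | w ∈ G.W i ∧ S.ρ (G.p i w) ∈ R} from
    (S.a2_open i).mem_nhds ⟨hw, h⟩).mono fun _ hv => hv.2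

theorem Sing.a2_im {i : G.ι} {x : R}
    (h : x ∈ (fun w => S.rt (S.ρ (G.p i w))) '' {w | w ∈ G.W i ∧ S.ρ (G.p i w) ∈ R}) :
    S.j x ∈ G.p i '' G.W i := by
  obtain ⟨w, hw, rfl⟩ := h
  exact ⟨w, hw.1, (S.j_rt hw.2).symm⟩

/-- The gluing data of the regular part. -/
noncomputable def Sing.glue : Glue R where
  ι := G.ι
  W := fun i => {w | w ∈ G.W i ∧ S.ρ (G.p i w) ∈ R}
  p := fun i w => S.rt (S.ρ (G.p i w))
  ψ := G.ψ
  Φ := G.Φ
  g := fun i k x => G.g i k (S.j x)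
  isOpen := S.a2_open
  cont := fun i => Topology.IsInducing.subtypeVal.continuousOn_iff.2
    (((S.ρ_cont.comp_continuousOn (G.cont i)).mono fun _ hw => hw.1).congr
      fun _ hw => S.rt_val hw.2)
  inj := fun i _ hw _ hv e => G.inj i hw.1 hv.1 (S.rt_inj hw.2 hv.2 e)
  opn := fun i O h1 h2 => by
    have h3 : (fun w => S.rt (S.ρ (G.p i w))) '' O = S.j ⁻¹' (G.p i '' O) := by
      ext x
      constructor
      · rintro ⟨w, hw, rfl⟩
        exact ⟨w, hw, (S.j_rt (h2 hw).2).symm⟩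
      · rintro ⟨w, hw, e⟩
        exact ⟨w, hw, by show S.rt (S.ρ (G.p i w)) = x; rw [e, S.rt_j]⟩
    rw [h3]
    exact (G.opn i O h1 fun w hw => (h2 hw).1).preimage S.j_cont
  cover := fun x => by
    obtain ⟨i, z, hz, e⟩ := G.cover (S.j x)
    refine ⟨i, z, ⟨hz, ?_⟩, ?_⟩
    · rw [e, S.ρ_j]
      exact x.2
    · show S.rt (S.ρ (G.p i z)) = x
      rw [e, S.rt_j]
  trans := fun i k z hz y hy e => by
    obtain ⟨φ, e0, ha, he, hP, hg⟩ := G.trans i k z hz.1 y hy.1 (S.rt_inj hz.2 hy.2 e)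
    refine ⟨φ, e0, ha, he.mono fun w hw => ⟨congrArg (fun u => S.rt (S.ρ u)) hw.1, hw.2⟩, hP,
      hg.congr ?_⟩
    filter_upwards [S.a2_ev hz.1 hz.2] with w hw
    rw [S.j_rt hw]
  g_mul := fun i k l x hi hk hl => G.g_mul i k l _ (S.a2_im hi) (S.a2_im hk) (S.a2_im hl)
  ψ_eq := fun i k z hz y hy e => by
    show _ = ‖G.g i k (S.j (S.rt (S.ρ (G.p i z))))‖ ^ 2 * _
    rw [S.j_rt hz.2]
    exact G.ψ_eq i k z hz.1 y hy.1 (S.rt_inj hz.2 hy.2 e)
  ψ_smooth := G.ψ_smooth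
  Φ_smooth := G.Φ_smooth
  ψ_psd := G.ψ_psd
  ψ_det := G.ψ_det
  ψ_ne := by
    obtain ⟨i, w, h1, h2, h3⟩ := S.ψ_ne
    exact ⟨i, w, ⟨h1, h2⟩, h3⟩
  Φ_pos := G.Φ_pos
  Q := fun a => S.rt (S.ρ (G.Q a))
  Q_loc := fun a ha => by
    obtain ⟨i, κ, h1, h2, h3, h4⟩ := G.Q_loc a ha
    refine ⟨i, κ, h1, ⟨h2, ?_⟩, h3, h4.mono fun w hw => congrArg (fun u => S.rt (S.ρ u)) hw⟩
    rw [h4.self_of_nhds]
    exact S.Q_mem a ha
  Q_neg := fun a ha => congrArg (fun u => S.rt (S.ρ u)) (G.Q_neg a ha)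
  Q_per := fun a ha μ => congrArg (fun u => S.rt (S.ρ u)) (G.Q_per a ha μ)
  Q_dense := fun i z hz => by
    refine closure_mono ?_ (G.Q_dense i z hz.1)
    rintro w ⟨hw, a, ha, e⟩
    exact ⟨⟨hw, e ▸ S.Q_mem a ha⟩, a, ha, congrArg (fun u => S.rt (S.ρ u)) e⟩

/-- The local embedding read in an arbitrary chart. -/
theorem Sing.a2_loc {α : S.κ} {i : G.ι} {w : E 2} (hw : w ∈ G.W i) (h : S.ρ (G.p i w) ∈ S.V α)
    {Z : E 2 → E 3} (hZ : Z =ᶠ[𝓝 w] fun v => S.z α (S.ρ (G.p i v))) :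
    AnalyticAt ℂ Z w ∧
      lv (G.ψ i) w = (jac Z w)ᵀ * lv S.ψa (Z w) * (jac Z w).map star ∧
      lv (S.Φ' i) w = (jac Z w)ᵀ * lv S.Φa (Z w) * (jac Z w).map star ∧
      S.πa (Z w) = jac Z w * aS⁻¹ * (jac Z w)ᵀ ∧
      (S.ρ (G.p i w) ∈ R → Function.Injective (fderiv ℂ Z w)) := by
  obtain ⟨k, w', hw', e, q, hq, hev, hπ, hI⟩ := S.loc α _ h
  obtain ⟨φ, e0, ha, he, -⟩ := G.trans i k w hw w' hw' e.symm
  subst e0
  have h1 := ha.continuousAt.eventually hev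
  have h2 : Z =ᶠ[𝓝 w] fun v => q (φ v) := by
    filter_upwards [hZ, he, h1] with v a b c
    rw [a, ← c.1, b.1]
  have h3 : AnalyticAt ℂ Z w := (hq.comp (f := φ) ha).congr h2.symm
  have h4 := G.chg hw (j := k) (φ := φ)
    ((ha.continuousAt.eventually_mem ((G.isOpen k).mem_nhds hw')).and (he.mono fun v hv => hv.1))
  have h5 : jac Z w = jac q (φ w) * jac φ w := by
    rw [jac_congr h2, jac_comp hq.differentiableAt ha.differentiableAt]
  refine ⟨h3, ?_, ?_, ?_, fun hR => ?_⟩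
  · rw [h4.2.2.2, ← lv_comp (G.ψ_smooth k).contDiffAt ha, ← lv_comp S.ψa_smooth.contDiffAt h3]
    refine lv_congr ?_
    filter_upwards [h1, h2] with v a b
    rw [a.2.1, b]
  · refine lv_change S.Φa_smooth.contDiffAt h3
      ((S.Φ'_ph i k φ w hw ha hw' (he.mono fun v hv => hv.1)).congr ?_)
    filter_upwards [h1, h2] with v a b
    rw [a.2.2, b]
  · have h6 := aS_conj (jac φ w)ᵀ
    rw [Matrix.transpose_transpose, Matrix.det_transpose, h4.2.1, one_smul] at h6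
    have h7 : jac φ w * aS⁻¹ * (jac φ w)ᵀ = aS⁻¹ := by
      rw [aS_inv, Matrix.mul_neg, Matrix.neg_mul, h6]
    rw [h2.self_of_nhds, hπ, h5, Matrix.transpose_mul]
    conv_lhs => rw [← h7]
    simp only [Matrix.mul_assoc]
  · have h6 : fderiv ℂ (fun v => q (φ v)) w = _ :=
      (hq.differentiableAt.hasFDerivAt.comp w ha.differentiableAt.hasFDerivAt).fderiv
    rw [h2.fderiv_eq, h6]
    exact (hI hR).comp (a_inj h4.2.1)

theorem Sing.a2_loc' {α : S.κ} {i : G.ι} {w : E 2} (hw : w ∈ S.glue.W i)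
    (h : (S.glue.p i w : X) ∈ S.V α) :
    AnalyticAt ℂ (fun v => S.z α (S.glue.p i v)) w ∧
      lv (G.ψ i) w = (jac (fun v => S.z α (S.glue.p i v)) w)ᵀ * lv S.ψa (S.z α (S.glue.p i w)) *
        (jac (fun v => S.z α (S.glue.p i v)) w).map star ∧
      lv (S.Φ' i) w = (jac (fun v => S.z α (S.glue.p i v)) w)ᵀ * lv S.Φa (S.z α (S.glue.p i w)) *
        (jac (fun v => S.z α (S.glue.p i v)) w).map star ∧
      S.πa (S.z α (S.glue.p i w)) = jac (fun v => S.z α (S.glue.p i v)) w * aS⁻¹ *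
        (jac (fun v => S.z α (S.glue.p i v)) w)ᵀ ∧
      (S.ρ (G.p i w) ∈ R → Function.Injective (fderiv ℂ (fun v => S.z α (S.glue.p i v)) w)) :=
  S.a2_loc hw.1 (S.rt_val hw.2 ▸ h)
    ((S.a2_ev hw.1 hw.2).mono fun _ hv => congrArg (S.z α) (S.rt_val hv))

/-- The local embeddings. -/
noncomputable def Sing.amb : Amb R S.glue.atlas2 where
  κ := S.κ
  M := fun _ => 3
  D := fun _ =>
    { W := Set.univ
      π := S.πa
      η := lv S.ψa
      isOpen := isOpen_univ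
      π_hol := fun a b => (S.πa_hol a b).differentiableOn
      π_skew := fun w _ => S.πa_skew w
      η_smooth := fun a b _ _ => (lv_smooth S.ψa_smooth.contDiffAt a b).contDiffWithinAt }
  V := S.V
  z := S.z
  V_open := S.V_open
  cover := S.V_cover
  cont := S.z_cont
  inj := S.z_inj
  maps := fun _ _ _ => Set.mem_univ _
  trans := S.z_trans
  hol := fun _ _ _ hy h =>
    ⟨(S.a2_loc' hy h).1.differentiableAt, (S.a2_loc' hy h).2.2.2.2 hy.2⟩
  π_eq := fun _ _ _ hy h => (S.a2_loc' hy h).2.2.2.1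
  η_eq := fun _ _ _ hy h => (S.a2_loc' hy h).2.1
  sing := fun α x hx h => by
    show (S.πa (S.z α x)).rank < 2
    rw [S.sing α x hx h, Matrix.rank_zero]
    exact two_pos

/-- The form on the regular part. -/
noncomputable def Sing.form : Form11 S.glue.atlas2 where
  h := fun i => lv (S.Φ' i)
  smooth := fun i a b _ _ => (lv_smooth (S.Φ'_smooth i).contDiffAt a b).contDiffWithinAt
  herm := fun i z hz => by
    obtain ⟨α, hα⟩ := S.V_cover (S.glue.p i z)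
    have h1 := (S.a2_loc' hz hα).2.2.1
    have h2 := Matrix.isHermitian_conjTranspose_mul_mul
      ((jac (fun v => S.z α (S.glue.p i v)) z).map star)
      (S.Φa_pos (S.z α (S.glue.p i z))).isHermitian
    have h3 : ((jac (fun v => S.z α (S.glue.p i v)) z).map star)ᴴ =
        (jac (fun v => S.z α (S.glue.p i v)) z)ᵀ := by
      ext a b
      simp
    rw [h3, ← h1] at h2
    exact h2
  closed := fun i _ _ a b c => lv_closed (S.Φ'_smooth i).contDiffAt a b c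
  compat := fun i k O φ h1 h2 z hz => by
    have h3 : ∀ᶠ w in 𝓝 z, φ w ∈ G.W k ∧ G.p k (φ w) = G.p i w :=
      (show ∀ᶠ w in 𝓝 z, w ∈ O from h1.isOpen.mem_nhds hz).mono fun w hw =>
        ⟨(h1.maps hw).1, S.rt_inj (h1.maps hw).2 (h1.sub hw).2 (h2 w hw)⟩
    have h4 := (G.chg (h1.sub hz).1 h3).1
    exact lv_change (S.Φ'_smooth k).contDiffAt h4
      (S.Φ'_ph i k φ z (h1.sub hz).1 h4 (h1.maps hz).1 (h3.mono fun w hw => hw.2))

/-- The resolution. -/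
noncomputable def Sing.res : Res S.glue.line2 Y where
  ι := G.ι
  W := G.W
  p := G.p
  isOpen := G.isOpen
  cont := G.cont
  inj := G.inj
  opn := G.opn
  cover := G.cover
  trans := G.res.trans
  K := G.res.K
  K_smooth := G.res.K_smooth
  K_pos := G.res.K_pos
  K_closed := G.res.K_closed
  K_eq := G.res.K_eq
  g := G.g
  ψ := G.ψ
  g_hol := G.res.g_hol
  g_mul := G.g_mul
  ψ_smooth := G.res.ψ_smooth
  ψ_eq := G.ψ_eq
  ψ_psd := G.res.ψ_psd
  j := S.j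
  c := fun i => i
  j_cont := S.j_cont
  j_inj := fun x y e => Subtype.ext (by rw [← S.ρ_j x, e, S.ρ_j])
  j_dense := S.j_dense
  sub := fun _ _ hw => hw.1
  p_eq := fun _ _ hz => (S.j_rt hz.2).symm
  g_eq := fun i k _ hz _ => congrArg (G.g i k) (S.j_rt hz.2)
  ψ_res := fun _ _ _ => rfl

/-- The contraction. -/
noncomputable def Sing.over : Over S.amb S.res where
  full := fun i w hw h => by
    obtain ⟨x, e⟩ := h
    have e' : S.j x = G.p i w := e
    refine ⟨hw, ?_⟩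
    rw [← e', S.ρ_j]
    exact x.2
  cover := G.cover
  σ_ext := fun _ => ⟨fun _ => aS, fun _ _ => differentiableOn_const _, fun _ _ => rfl⟩
  ρ := S.ρ
  cont := S.ρ_cont
  ρ_j := S.ρ_j
  hol := fun _ _ _ hw h => (S.a2_loc hw h EventuallyEq.rfl).1.differentiableAt

theorem Sing.normal2 : Normal S.amb := by
  intro α x hx O hO hxO f hf
  obtain ⟨F, h1, h2⟩ := S.normal α x hx O hO hxO (fun y => f (S.rt y)) fun i =>
    (hf i).mono fun w hw => ⟨⟨hw.1, hw.2.2⟩, by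
      show (S.rt (S.ρ (G.p i w)) : X) ∈ O
      rw [S.rt_val hw.2.2]
      exact hw.2.1⟩
  refine ⟨F, h1, h2.mono fun y hy h => ?_⟩
  rw [← S.rt_eq h]
  exact hy h

theorem Sing.kah : KahS S.amb S.form := by
  intro x
  obtain ⟨α, hx⟩ := S.V_cover x
  refine ⟨α, 1, lv S.Φa, hx, one_pos,
    fun a b _ _ => (lv_smooth S.Φa_smooth.contDiffAt a b).contDiffWithinAt,
    fun w _ => S.Φa_pos w, ?_⟩
  filter_upwards [(S.V_open α).mem_nhds hx] with x' hx' i y hy e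
  subst e
  exact (S.a2_loc' hy hx').2.2.1

theorem Sing.cartier : Cartier S.glue.line2 := by
  intro x
  obtain ⟨O, e, c, C, h1, h2, h3, h4⟩ := S.frame x
  refine ⟨O, fun i w => e i (G.p i w), c, C, h1, h2, h3, fun i y hy => ?_, fun i z hz h => ?_⟩
  · exact (h4 i y hy.1.1 (S.rt_val hy.1.2 ▸ hy.2)).1.differentiableAt.differentiableWithinAt
  · have h5 := h4 i z hz.1 (S.rt_val hz.2 ▸ h)
    refine ⟨h5.2.1, fun k y hy e2 => ?_⟩
    have e3 : G.p i z = G.p k y := S.rt_inj hz.2 hy.2 e2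
    show e k (G.p k y) = G.g i k (S.j (S.rt (S.ρ (G.p i z)))) * e i (G.p i z)
    rw [S.j_rt hz.2, ← e3]
    exact h5.2.2 k ⟨y, hy.1, e3.symm⟩

theorem Sing.assemble {X Y : Type} [TopologicalSpace X] [TopologicalSpace Y] {R : Set X}
    {G : Glue Y} (S : Sing R G) :
    ∃ (_ : PreconnectedSpace R) (A : Atlas R (2 * 1)) (B : Amb R A) (K : Form11 A) (L : Line A)
      (Z : Res L Y) (_ : Over B Z),
      Normal B ∧ NoOdd A ∧ Pool.Agent.BP.H20 A ∧ KahS B K ∧ Cartier L ∧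
        (∀ i, ∀ z ∈ (A.C i).W, ((A.C i).η z).det = 0) ∧
        ∃ i, ∃ z ∈ (A.C i).W, (A.C i).η z ≠ 0 :=
  ⟨S.glue.conn, S.glue.atlas2, S.amb, S.form, S.glue.line2, S.res, S.over, S.normal2,
    S.glue.noOdd2, S.glue.h202, S.kah, S.cartier, fun i z _ => G.ψ_det i z, S.glue.ψ_ne⟩

end Pool.Agent.Kum
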