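import Pool.Agent.P.MP_63735c_ag.SFDefs

/-! Controls for the definitions in the conclusion. -/

open scoped Matrix Topology
open Filter

namespace Pool.Agent.Kum

open Pool.Agent.SPF Pool.Agent.CK Pool.Agent.SE Pool.Agent.ZB

variable {N : ℕ} {X : Type} [TopologicalSpace X] {R : Set X} {A : Atlas R N}

theorem ctl_map (hR : IsOpen R) (i : A.ι) {y : E N} (hy : y ∈ (A.C i).W) :
    map (fun w => (A.p i w : X)) (𝓝 y) = 𝓝 (A.p i y : X) := by
  have hW := (A.C i).isOpen.mem_nhds hy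
  refine le_antisymm (continuous_subtype_val.continuousAt.comp ((A.cont i).continuousAt hW)) ?_
  intro U hU
  obtain ⟨O, h1, h2, h3⟩ := mem_nhds_iff.1 (inter_mem (mem_map.1 hU) hW)
  have h4 := hR.isOpenMap_subtype_val _ (A.opn i O h2 fun w hw => (h1 hw).2)
  refine mem_of_superset (h4.mem_nhds ⟨_, ⟨y, h3, rfl⟩, rfl⟩) ?_
  rintro _ ⟨_, ⟨w, hw, rfl⟩, rfl⟩
  exact (h1 hw).1

theorem ctl_thin {n : ℕ} (hn : n ≠ N) (hR : IsOpen R) (hd : Dense R) {B : Amb R A} {L : Line A}
    {Y : Type} [TopologicalSpace Y] {Z : Res L Y} (P : Over B Z) {S U : Set X}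
    (h : IsLagS P n S) (hU : IsOpen U) (hs : U ⊆ S) : ¬ U.Nonempty := by
  intro hne
  obtain ⟨x, xU, xR⟩ := hd.inter_open_nonempty U hU hne
  obtain ⟨i, y, hy, e⟩ := A.cover ⟨x, xR⟩
  have e' : (A.p i y : X) = x := congrArg Subtype.val e
  obtain ⟨α, hα⟩ := B.cover x
  have m := ctl_map hR i hy
  rw [e'] at m
  have ev : ∀ᶠ w in 𝓝 y, (A.p i w : X) ∈ B.V α := by
    have := (B.V_open α).mem_nhds hα
    rwa [← m] at this
  refine hn (h α N (fun w => B.z α (A.p i w)) y x ⟨hs xU, hα⟩ ?_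
    (B.hol α i y hy (e' ▸ hα)).2 ?_).1.symm
  · filter_upwards [ev, (A.C i).isOpen.mem_nhds hy] with w h1 h2
    exact (B.hol α i w h2 h1).1
  · rw [nhdsWithin_eq_nhds.2 (mem_of_superset (hU.mem_nhds xU) hs), ← m, map_map]
    rfl

theorem ctl_van (hR : IsOpen R) (L : Line A) (k : ℕ) {s : A.ι → E N → ℂ} (hs : L.IsSection k s)
    (i : A.ι) {y : E N} (hy : y ∈ (A.C i).W) : VanS L k s (A.p i y) ↔ s i y = 0 := by
  constructor
  · intro h
    have h1 : ‖s i y‖ ^ 2 * Real.exp (-(k * L.ψ i y)) ≤ 0 :=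
      le_of_forall_pos_le_add fun ε hε => by
        rw [zero_add]; exact (h ε hε).self_of_nhds i y hy rfl
    have h2 := nonpos_of_mul_nonpos_left h1 (Real.exp_pos _)
    exact norm_eq_zero.1 (pow_eq_zero_iff two_ne_zero |>.1 (le_antisymm h2 (sq_nonneg _)))
  · intro h ε hε
    have hW := (A.C i).isOpen.mem_nhds hy
    have c : ContinuousAt (fun w => ‖s i w‖ ^ 2 * Real.exp (-(k * L.ψ i w))) y := by
      have c1 := (hs.1 i).continuousOn.continuousAt hW
      have c2 := (L.ψ_smooth i).continuousOn.continuousAt hW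
      fun_prop
    rw [← ctl_map hR i hy, eventually_map]
    filter_upwards [c.eventually_lt continuousAt_const (g := fun _ => ε) (by simpa [h] using hε),
      hW] with w h1 h2 j v hv e
    have e' : A.p i w = A.p j v := (Subtype.ext e).symm
    have e1 := L.ψ_eq i j w h2 v hv e'
    have e2 : ∀ t : ℝ, Real.exp (-(k * t)) = Real.exp (-t) ^ k := fun t => by
      rw [← Real.exp_nat_mul]; congr 1; ring
    rw [hs.2 i j w h2 v hv e', norm_mul, norm_pow, e2]
    rw [e2, e1] at h1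
    refine le_of_eq_of_le ?_ h1.le
    ring

end Pool.Agent.Kum
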