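import Pool.Agent.P.MP_63735c_ag.Kum.G

/-! The two profile functions exist. -/

open scoped ContDiff Topology
open Filter

namespace Pool.Agent.Kum

/-- A smooth monotone step from `0` to `1`. -/
noncomputable def fstep (t : ℝ) : ℝ := Real.smoothTransition (300 / 7 * (t - 1 / 100))

theorem fstep_smooth : ContDiff ℝ ∞ fstep :=
  Real.smoothTransition.contDiff.comp (contDiff_const.mul (contDiff_id.sub contDiff_const))

theorem fstep_zero {t : ℝ} (h : t ≤ 1 / 100) : fstep t = 0 :=
  Real.smoothTransition.zero_of_nonpos (by linarith)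

theorem fstep_one {t : ℝ} (h : 1 / 30 ≤ t) : fstep t = 1 :=
  Real.smoothTransition.one_of_one_le (by linarith)

theorem fstep_mem (t : ℝ) : 0 ≤ fstep t ∧ fstep t ≤ 1 :=
  ⟨Real.smoothTransition.nonneg _, Real.smoothTransition.le_one _⟩

theorem fstep_deriv (t : ℝ) : 0 ≤ deriv fstep t :=
  Monotone.deriv_nonneg fun _ _ h => Real.smoothTransition.monotone (by linarith)

theorem fstep_key {t : ℝ} : 0 ≤ deriv fstep t * (t - 1 / 200 - t ^ 2) := by
  rcases lt_or_ge t (1 / 100) with h | h
  · have : fstep =ᶠ[𝓝 t] fun _ => 0 := by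
      filter_upwards [Iio_mem_nhds h] with s hs using fstep_zero (le_of_lt hs)
    rw [this.deriv_eq]; simp
  rcases lt_or_ge (1 / 30) t with h' | h'
  · have : fstep =ᶠ[𝓝 t] fun _ => 1 := by
      filter_upwards [Ioi_mem_nhds h'] with s hs using fstep_one (le_of_lt hs)
    rw [this.deriv_eq]; simp
  exact mul_nonneg (fstep_deriv t) (by nlinarith)

theorem fprim {γ : ℝ → ℝ} (h : ContDiff ℝ ∞ γ) (h0 : ∀ t ≤ 1 / 100, γ t = 0) :
    ∃ P : ℝ → ℝ, ContDiff ℝ ∞ P ∧ (∀ t, HasDerivAt P (γ t) t) ∧ ∀ t ≤ 1 / 100, P t = 0 := by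
  have hd : ∀ t, HasDerivAt (fun u => ∫ s in (0 : ℝ)..u, γ s) (γ t) t := fun t =>
    (h.continuous.integral_hasStrictDerivAt 0 t).hasDerivAt
  refine ⟨_, contDiff_infty_iff_deriv.2 ⟨fun t => (hd t).differentiableAt, ?_⟩, hd, fun t ht => ?_⟩
  · rwa [show deriv (fun u => ∫ s in (0 : ℝ)..u, γ s) = γ from funext fun t => (hd t).deriv]
  · rw [intervalIntegral.integral_congr (g := fun _ => 0) fun s hs => h0 s ?_]
    · simp
    · exact hs.2.trans (max_le (by norm_num) ht)

theorem fconst {u : ℝ → ℝ} (h : ∀ t ≥ 1 / 30, HasDerivAt u 1 t) :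
    ∀ t ≥ 1 / 30, u t = t + (u (1 / 30) - 1 / 30) := by
  intro t ht
  have := constant_of_has_deriv_right_zero (f := fun s => u s - s) (a := 1 / 30) (b := t)
    (fun s hs => ((h s hs.1).sub (hasDerivAt_id s)).continuousAt.continuousWithinAt)
    (fun s hs => (((h s hs.1).sub (hasDerivAt_id s)).congr_deriv (sub_self 1)).hasDerivWithinAt) t
    ⟨ht, le_rfl⟩
  linarith

theorem exists_Fn : Nonempty Fn := by
  obtain ⟨χ, c1, c2, c3⟩ := fprim fstep_smooth fun _ => fstep_zero
  have cd : deriv χ = fstep := funext fun t => (c2 t).deriv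
  have hγ : ContDiff ℝ ∞ fun s => fstep s * (1 - 1 / 200 / s - s) := by
    refine contDiff_iff_contDiffAt.2 fun t => ?_
    rcases lt_or_ge t (1 / 100) with h | h
    · refine (contDiffAt_const (c := 0)).congr_of_eventuallyEq ?_
      filter_upwards [Iio_mem_nhds h] with s hs
      rw [fstep_zero (le_of_lt hs), zero_mul]
    · exact fstep_smooth.contDiffAt.mul ((contDiffAt_const.sub
        (contDiffAt_const.div contDiffAt_id (by simp; linarith))).sub contDiffAt_id)
  obtain ⟨P, p1, p2, p3⟩ := fprim hγ fun t ht => by rw [fstep_zero ht, zero_mul]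
  have y1 : ∀ t, HasDerivAt (fun t => t ^ 2 / 2 + P t)
      (t + fstep t * (1 - 1 / 200 / t - t)) t := fun t =>
    (((hasDerivAt_pow 2 t).div_const 2).add (p2 t)).congr_deriv (by simp)
  have yd : deriv (fun t => t ^ 2 / 2 + P t) = fun t => t + fstep t * (1 - 1 / 200 / t - t) :=
    funext fun t => (y1 t).deriv
  refine ⟨⟨1 / 200, _, _, χ, fun t => t ^ 2 / 2 + P t, by norm_num, c1,
    ((contDiff_id.pow 2).div_const 2).add p1, c3,
    fconst fun t ht => fstep_one ht ▸ c2 t, fun t ht => by rw [p3 t ht, add_zero],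
    fconst (u := fun t => 1 / 200 * Real.log t + (t ^ 2 / 2 + P t)) fun t ht => ?_,
    fun t ht => ?_, fun t ht => ?_, fun t ht => ?_⟩⟩
  · have h0 : t ≠ 0 := by linarith
    refine (((Real.hasDerivAt_log h0).const_mul (1 / 200)).add (y1 t)).congr_deriv ?_
    rw [fstep_one ht]
    field_simp
    ring
  · rw [cd]
    exact add_nonneg (fstep_mem t).1 (mul_nonneg ht.le (fstep_deriv t))
  · rw [yd]
    have h1 : 0 < 1 / 200 / t + t := by positivity
    have h2 := fstep_mem t
    rcases h2.1.eq_or_lt with h | h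
    · simp only [← h]; linarith
    · nlinarith [mul_nonneg (sub_nonneg.2 h2.2) h1.le]
  · rw [yd]
    have d1 := (fstep_smooth.differentiable (by simp) t).hasDerivAt
    have d2 : HasDerivAt (fun s : ℝ => 1 - 1 / 200 / s - s) (1 / 200 / t ^ 2 - 1) t := by
      refine ((((hasDerivAt_inv ht.ne').const_mul (1 / 200)).const_sub 1).sub
        (hasDerivAt_id t)).congr_deriv ?_
      simp [div_eq_mul_inv]
    have d3 : HasDerivAt (fun t => t + fstep t * (1 - 1 / 200 / t - t)) _ t :=
      (hasDerivAt_id t).add (d1.mul d2)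
    rw [d3.deriv]
    beta_reduce
    have h2 := fstep_mem t
    have h3 := fstep_key (t := t)
    have e : t + fstep t * (1 - 1 / 200 / t - t) + t * (1 + (deriv fstep t *
        (1 - 1 / 200 / t - t) + fstep t * (1 / 200 / t ^ 2 - 1))) =
        2 * t * (1 - fstep t) + fstep t + deriv fstep t * (t - 1 / 200 - t ^ 2) := by
      field_simp
      ring
    rw [e]
    rcases h2.1.eq_or_lt with h | h
    · simp only [← h]; linarith
    · nlinarith [mul_nonneg (sub_nonneg.2 h2.2) ht.le]

end Pool.Agent.Kum
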