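import Pool.Agent.P.MP_63735c_ag.SPDefs

/-! Levi matrices of real functions: smoothness, closedness, change of chart. -/

open scoped ComplexOrder ContDiff Matrix Topology
open Filter

namespace Pool.Agent.Kum

open Pool.Agent.SPF

variable {N M : ℕ}

/-- The Levi matrix. -/
noncomputable def lv (f : E N → ℝ) (z : E N) : Matrix (Fin N) (Fin N) ℂ :=
  Matrix.of fun a b => dz a (fun y => star (dz b (fun x => (f x : ℂ)) y)) z

theorem dzc {f g : E N → ℂ} {z : E N} (h : f =ᶠ[𝓝 z] g) (a : Fin N) : dz a f z = dz a g z := by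
  simp only [dz, h.fderiv_eq]

theorem dzc' {f g : E N → ℂ} {z : E N} (h : f =ᶠ[𝓝 z] g) (a : Fin N) :
    dz a f =ᶠ[𝓝 z] dz a g := h.eventuallyEq_nhds.mono fun _ hy => dzc hy a

theorem lv_congr {f g : E N → ℝ} {z : E N} (h : f =ᶠ[𝓝 z] g) : lv f z = lv g z := by
  ext a b
  refine dzc ?_ a
  have h1 : (fun x => (f x : ℂ)) =ᶠ[𝓝 z] fun x => (g x : ℂ) := h.mono fun x hx => by simp [hx]
  exact (dzc' h1 b).mono fun y hy => by simp only [hy]

theorem single_I (a : Fin N) : (Pi.single a Complex.I : E N) = Complex.I • Pi.single a 1 := by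
  ext k; by_cases h : k = a <;> simp [h]

theorem dz_smooth {f : E N → ℂ} {z : E N} (h : ContDiffAt ℝ ∞ f z) (a : Fin N) :
    ContDiffAt ℝ ∞ (dz a f) z := by
  have h1 : ContDiffAt ℝ ∞ (fderiv ℝ f) z := h.fderiv_right (m := ∞) (by simp)
  unfold dz
  exact ((h1.clm_apply contDiffAt_const).sub
    (contDiffAt_const.mul (h1.clm_apply contDiffAt_const))).div_const 2

theorem star_smooth {f : E N → ℂ} {z : E N} (h : ContDiffAt ℝ ∞ f z) :
    ContDiffAt ℝ ∞ (fun y => star (f y)) z :=
  Complex.conjCLE.contDiff.contDiffAt.comp z h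

theorem ofR_smooth {f : E N → ℝ} {z : E N} (h : ContDiffAt ℝ ∞ f z) :
    ContDiffAt ℝ ∞ (fun y => (f y : ℂ)) z :=
  Complex.ofRealCLM.contDiff.contDiffAt.comp z h

theorem lv_smooth {f : E N → ℝ} {z : E N} (h : ContDiffAt ℝ ∞ f z) (a b : Fin N) :
    ContDiffAt ℝ ∞ (fun w => lv f w a b) z :=
  dz_smooth (star_smooth (dz_smooth (ofR_smooth h) b)) a

theorem dz_dz {f : E N → ℂ} {z : E N} (h : ContDiffAt ℝ ∞ f z) (a c : Fin N) :
    dz c (dz a f) z = dz a (dz c f) z := by
  have h1 : ContDiffAt ℝ ∞ (fderiv ℝ f) z := h.fderiv_right (m := ∞) (by simp)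
  have h2 : DifferentiableAt ℝ (fderiv ℝ f) z := h1.differentiableAt (by simp)
  have hs : IsSymmSndFDerivAt ℝ f z := h.isSymmSndFDerivAt (by simp; exact WithTop.coe_le_coe.2 le_top)
  have key : ∀ (a : Fin N) (v : E N), fderiv ℝ (dz a f) z v =
      (fderiv ℝ (fderiv ℝ f) z v (Pi.single a 1) -
        Complex.I * fderiv ℝ (fderiv ℝ f) z v (Pi.single a Complex.I)) / 2 := by
    intro a v
    have e1 := fun u : E N => h2.hasFDerivAt.clm_apply (hasFDerivAt_const u z)
    have e2 := ((e1 (Pi.single a 1)).sub ((e1 (Pi.single a Complex.I)).const_mul Complex.I)).mul_const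
      (2⁻¹ : ℂ)
    have e3 : dz a f = fun y => (fderiv ℝ f y (Pi.single a 1) -
        Complex.I * fderiv ℝ f y (Pi.single a Complex.I)) * 2⁻¹ := by
      funext y; simp [dz, div_eq_mul_inv]
    rw [e3]
    erw [e2.fderiv]
    simp
    ring
  have t1 : dz c (dz a f) z = (fderiv ℝ (dz a f) z (Pi.single c 1) -
    Complex.I * fderiv ℝ (dz a f) z (Pi.single c Complex.I)) / 2 := rfl
  have t2 : dz a (dz c f) z = (fderiv ℝ (dz c f) z (Pi.single a 1) -
    Complex.I * fderiv ℝ (dz c f) z (Pi.single a Complex.I)) / 2 := rfl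
  rw [t1, t2, key, key, key, key, hs (Pi.single c 1) (Pi.single a 1),
    hs (Pi.single c 1) (Pi.single a Complex.I), hs (Pi.single c Complex.I) (Pi.single a 1),
    hs (Pi.single c Complex.I) (Pi.single a Complex.I)]
  ring

theorem lv_closed {f : E N → ℝ} {z : E N} (h : ContDiffAt ℝ ∞ f z) (a b c : Fin N) :
    dz c (fun w => lv f w a b) z = dz a (fun w => lv f w c b) z :=
  dz_dz (star_smooth (dz_smooth (ofR_smooth h) b)) a c

theorem dz_add {f g : E N → ℂ} {z : E N} (hf : DifferentiableAt ℝ f z)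
    (hg : DifferentiableAt ℝ g z) (a : Fin N) :
    dz a (fun y => f y + g y) z = dz a f z + dz a g z := by
  simp only [dz, fderiv_fun_add hf hg, add_apply]; ring

theorem dz_mul {f g : E N → ℂ} {z : E N} (hf : DifferentiableAt ℝ f z)
    (hg : DifferentiableAt ℝ g z) (a : Fin N) :
    dz a (fun y => f y * g y) z = f z * dz a g z + dz a f z * g z := by
  simp only [dz, fderiv_fun_mul hf hg, add_apply,
    smul_apply, smul_eq_mul]; ring

theorem dz_const (c : ℂ) (z : E N) (a : Fin N) : dz a (fun _ => c) z = 0 := by simp [dz]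

theorem dz_sum {ι : Type} (s : Finset ι) {f : ι → E N → ℂ} {z : E N}
    (hf : ∀ i ∈ s, DifferentiableAt ℝ (f i) z) (a : Fin N) :
    dz a (fun y => ∑ i ∈ s, f i y) z = ∑ i ∈ s, dz a (f i) z := by
  simp only [dz, fderiv_fun_sum hf, sum_apply, Finset.mul_sum,
    ← Finset.sum_sub_distrib, Finset.sum_div]

theorem dz_star_hol {h : E N → ℂ} {z : E N} (hh : DifferentiableAt ℂ h z) (a : Fin N) :
    dz a (fun y => star (h y)) z = 0 := by
  have e := Complex.conjCLE.toContinuousLinearMap.hasFDerivAt.comp z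
    (hh.hasFDerivAt.restrictScalars ℝ)
  have e' : fderiv ℝ (fun y => star (h y)) z = _ := e.fderiv
  simp only [dz, e', single_I]
  simp
  ring_nf
  simp

theorem dz_hol {h : E N → ℂ} {z : E N} (hh : DifferentiableAt ℂ h z) (a : Fin N) :
    dz a h z = fderiv ℂ h z (Pi.single a 1) := by
  have e' : fderiv ℝ h z = _ := (hh.hasFDerivAt.restrictScalars ℝ).fderiv
  simp only [dz, e', single_I]
  simp
  ring_nf
  simp
  ring

theorem dz_comp {g : E N → ℂ} {φ : E M → E N} {z : E M} (hg : DifferentiableAt ℝ g (φ z))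
    (hφ : DifferentiableAt ℂ φ z) (a : Fin M) :
    dz a (fun y => g (φ y)) z = ∑ c, jac φ z c a * dz c g (φ z) := by
  have e := hg.hasFDerivAt.comp z (hφ.hasFDerivAt.restrictScalars ℝ)
  have e' : fderiv ℝ (fun y => g (φ y)) z = _ := e.fderiv
  set l := fderiv ℝ g (φ z) with hl
  have lin : ∀ v : E N, (l v - Complex.I * l (Complex.I • v)) / 2 =
      ∑ c, v c * ((l (Pi.single c 1) - Complex.I * l (Pi.single c Complex.I)) / 2) := by
    intro v
    have hv : ∀ u : E N, l u = ∑ c, ((u c).re * l (Pi.single c 1) +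
        (u c).im * l (Pi.single c Complex.I)) := by
      intro u
      have : u = ∑ c, ((u c).re • (Pi.single c 1 : E N) + (u c).im • (Pi.single c Complex.I : E N)) := by
        ext k
        simp [Finset.sum_apply, Pi.single_apply, Finset.sum_add_distrib]
      conv_lhs => rw [this]
      simp [map_sum]
    rw [hv v, hv (Complex.I • v), Finset.mul_sum, ← Finset.sum_sub_distrib, Finset.sum_div]
    refine Finset.sum_congr rfl fun c _ => ?_
    have h1 : v c = (v c).re + (v c).im * Complex.I := (Complex.re_add_im _).symm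
    simp only [Pi.smul_apply, smul_eq_mul, Complex.mul_re, Complex.mul_im, Complex.I_re,
      Complex.I_im, zero_mul, one_mul, zero_sub, zero_add, Complex.ofReal_neg]
    conv_rhs => rw [h1]
    linear_combination (-((v c).im : ℂ) * l (Pi.single c Complex.I) / 2 ) * Complex.I_mul_I * (-1)
  have t1 : dz a (fun y => g (φ y)) z = (l (fderiv ℂ φ z (Pi.single a 1)) -
      Complex.I * l (Complex.I • fderiv ℂ φ z (Pi.single a 1))) / 2 := by
    simp only [dz, e', single_I]
    simp
  rw [t1, lin]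
  rfl

theorem jac_an {φ : E M → E N} {z : E M} (hφ : AnalyticAt ℂ φ z) (c : Fin N) (a : Fin M) :
    AnalyticAt ℂ (fun y => jac φ y c a) z := by
  have h1 := hφ.fderiv
  have h2 : AnalyticAt ℂ (fun y => fderiv ℂ φ y (Pi.single a 1)) z :=
    ((ContinuousLinearMap.apply ℂ (E N) (Pi.single a (1 : ℂ) : E M)).analyticAt _).comp h1
  exact ((ContinuousLinearMap.proj (R := ℂ) (φ := fun _ : Fin N => ℂ) c).analyticAt _).comp h2

theorem an_smooth {F : Type} [NormedAddCommGroup F] [NormedSpace ℂ F] [CompleteSpace F]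
    {φ : E M → F} {z : E M} (hφ : AnalyticAt ℂ φ z) : ContDiffAt ℝ ∞ φ z :=
  (hφ.contDiffAt (n := ∞)).restrict_scalars ℝ

theorem lv_comp {f : E N → ℝ} {φ : E M → E N} {z : E M} (hf : ContDiffAt ℝ ∞ f (φ z))
    (hφ : AnalyticAt ℂ φ z) :
    lv (fun y => f (φ y)) z = (jac φ z)ᵀ * lv f (φ z) * (jac φ z).map star := by
  ext a b
  have hF := ofR_smooth hf
  have ev1 : ∀ᶠ y in 𝓝 z, DifferentiableAt ℝ (fun x => (f x : ℂ)) (φ y) := by
    have := (hF.of_le (m := 1) (by exact_mod_cast le_top)).eventually (by simp)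
    exact hφ.continuousAt.eventually (this.mono fun y hy => hy.differentiableAt (by simp))
  have ev2 : ∀ᶠ y in 𝓝 z, DifferentiableAt ℂ φ y :=
    hφ.eventually_analyticAt.mono fun y hy => hy.differentiableAt
  have ev : (fun y => star (dz b (fun x => (f (φ x) : ℂ)) y)) =ᶠ[𝓝 z]
      fun y => ∑ d, star (jac φ y d b) * star (dz d (fun x => (f x : ℂ)) (φ y)) := by
    filter_upwards [ev1, ev2] with y h1 h2
    rw [dz_comp (g := fun x => (f x : ℂ)) h1 h2, star_sum]
    simp only [star_mul']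
  have dG : ∀ d, DifferentiableAt ℝ (fun y => star (dz d (fun x => (f x : ℂ)) y)) (φ z) :=
    fun d => (star_smooth (dz_smooth hF d)).differentiableAt (by simp)
  have dφ : DifferentiableAt ℝ φ z := hφ.differentiableAt.restrictScalars ℝ
  have dJ : ∀ d, DifferentiableAt ℝ (fun y => star (jac φ y d b)) z :=
    fun d => (star_smooth (an_smooth (jac_an hφ d b))).differentiableAt (by simp)
  have t : lv (fun y => f (φ y)) z a b =
      dz a (fun y => star (dz b (fun x => (f (φ x) : ℂ)) y)) z := rfl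
  rw [t, dzc ev, dz_sum _ fun d _ => (dJ d).fun_mul ((dG d).fun_comp' z dφ)]
  simp only [Matrix.mul_apply, Matrix.transpose_apply, Matrix.map_apply]
  refine Finset.sum_congr rfl fun d _ => ?_
  rw [dz_mul (dJ d) ((dG d).fun_comp' z dφ), dz_star_hol (jac_an hφ d b).differentiableAt, zero_mul,
    add_zero]
  erw [dz_comp (dG d) hφ.differentiableAt]
  rw [mul_comm]
  rfl

theorem lv_add {f g : E N → ℝ} {z : E N} (hf : ContDiffAt ℝ ∞ f z) (hg : ContDiffAt ℝ ∞ g z) :
    lv (fun y => f y + g y) z = lv f z + lv g z := by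
  ext a b
  have hF := ofR_smooth hf
  have hG := ofR_smooth hg
  have e := fun {u : E N → ℂ} (h : ContDiffAt ℝ ∞ u z) =>
    ((h.of_le (m := 1) (by exact_mod_cast le_top)).eventually (by simp)).mono
      fun y hy => hy.differentiableAt (by simp)
  have ev : (fun y => star (dz b (fun x => ((f x + g x : ℝ) : ℂ)) y)) =ᶠ[𝓝 z]
      fun y => star (dz b (fun x => (f x : ℂ)) y) + star (dz b (fun x => (g x : ℂ)) y) := by
    filter_upwards [e hF, e hG] with y h1 h2
    simp only [Complex.ofReal_add]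
    rw [dz_add h1 h2, star_add]
  have t : lv (fun y => f y + g y) z a b =
      dz a (fun y => star (dz b (fun x => ((f x + g x : ℝ) : ℂ)) y)) z := rfl
  rw [t, dzc ev, dz_add ((star_smooth (dz_smooth hF b)).differentiableAt (by simp))
    ((star_smooth (dz_smooth hG b)).differentiableAt (by simp))]
  rfl

theorem re_smooth {h : E N → ℂ} {z : E N} (hh : AnalyticAt ℂ h z) :
    ContDiffAt ℝ ∞ (fun y => (h y).re) z :=
  Complex.reCLM.contDiff.contDiffAt.comp z (an_smooth hh)

theorem lv_re {h : E N → ℂ} {z : E N} (hh : AnalyticAt ℂ h z) : lv (fun y => (h y).re) z = 0 := by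
  ext a b
  have ev : (fun y => star (dz b (fun x => (((h x).re : ℝ) : ℂ)) y)) =ᶠ[𝓝 z]
      fun y => star (fderiv ℂ h y (Pi.single b 1) * 2⁻¹) := by
    filter_upwards [hh.eventually_analyticAt] with y hy
    have d1 : DifferentiableAt ℝ h y := hy.differentiableAt.restrictScalars ℝ
    have d2 : DifferentiableAt ℝ (fun x => star (h x)) y :=
      (star_smooth (an_smooth hy)).differentiableAt (by simp)
    have e : (fun x => (((h x).re : ℝ) : ℂ)) = fun x => (h x + star (h x)) * 2⁻¹ := by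
      funext x
      rw [Complex.re_eq_add_conj]; rfl
    rw [e, dz_mul (d1.fun_add d2) (differentiableAt_const _), dz_const, dz_add d1 d2,
      dz_star_hol hy.differentiableAt, dz_hol hy.differentiableAt]
    simp
  have t : lv (fun y => (h y).re) z a b =
      dz a (fun y => star (dz b (fun x => (((h x).re : ℝ) : ℂ)) y)) z := rfl
  rw [t, dzc ev]
  refine dz_star_hol (DifferentiableAt.mul_const ?_ _) a
  exact (((ContinuousLinearMap.apply ℂ ℂ (Pi.single b (1 : ℂ) : E N)).analyticAt _).comp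
    hh.fderiv).differentiableAt

/-- `u` is the real part of an analytic function near `z`. -/
def PH (u : E N → ℝ) (z : E N) : Prop :=
  ∃ h : E N → ℂ, AnalyticAt ℂ h z ∧ ∀ᶠ w in 𝓝 z, u w = (h w).re

theorem PH.add {u v : E N → ℝ} {z : E N} (hu : PH u z) (hv : PH v z) :
    PH (fun w => u w + v w) z := by
  obtain ⟨h, a, e⟩ := hu
  obtain ⟨k, b, f⟩ := hv
  exact ⟨fun w => h w + k w, a.add b, by filter_upwards [e, f] with w e f; simp [e, f]⟩

theorem PH.smul {u : E N → ℝ} {z : E N} (c : ℝ) (hu : PH u z) : PH (fun w => c * u w) z := by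
  obtain ⟨h, a, e⟩ := hu
  exact ⟨fun w => c * h w, analyticAt_const.mul a, by filter_upwards [e] with w e; simp [e]⟩

theorem PH.congr {u v : E N → ℝ} {z : E N} (hu : PH u z) (h : ∀ᶠ w in 𝓝 z, v w = u w) :
    PH v z := by
  obtain ⟨k, a, e⟩ := hu
  exact ⟨k, a, by filter_upwards [e, h] with w e f; rw [f, e]⟩

theorem PH.re {h : E N → ℂ} {z : E N} (a : AnalyticAt ℂ h z) : PH (fun w => (h w).re) z :=
  ⟨h, a, Eventually.of_forall fun _ => rfl⟩

theorem PH.log {f : E N → ℂ} {z : E N} (a : AnalyticAt ℂ f z) (h0 : f z ≠ 0) :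
    PH (fun w => Real.log ‖f w‖) z := by
  refine ⟨fun w => Complex.log (f w / f z) + (Real.log ‖f z‖ : ℝ), ?_, ?_⟩
  · refine AnalyticAt.add ?_ analyticAt_const
    refine (a.div analyticAt_const h0).clog ?_
    simp [div_self h0]
  · filter_upwards [a.continuousAt.eventually_ne h0] with w hw
    simp only [Complex.add_re, Complex.log_re, Complex.ofReal_re, norm_div]
    rw [Real.log_div (norm_ne_zero_iff.2 hw) (norm_ne_zero_iff.2 h0)]
    ring

theorem lv_change {f : E M → ℝ} {g : E N → ℝ} {φ : E M → E N} {z : E M}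
    (hg : ContDiffAt ℝ ∞ g (φ z)) (hφ : AnalyticAt ℂ φ z) (h : PH (fun w => f w - g (φ w)) z) :
    lv f z = (jac φ z)ᵀ * lv g (φ z) * (jac φ z).map star := by
  obtain ⟨k, a, e⟩ := h
  have e' : f =ᶠ[𝓝 z] fun w => g (φ w) + (k w).re := e.mono fun w hw => by
    simp only at hw ⊢; linarith
  have hc : ContDiffAt ℝ ∞ (fun w => g (φ w)) z := hg.comp z (an_smooth hφ)
  rw [lv_congr e', lv_add hc (re_smooth a), lv_re a, add_zero,
    lv_comp hg hφ]

/-- Weighted squared norm. -/
noncomputable def nq (s : Fin N → ℝ) (x : E N) : ℝ := ∑ k, s k * ‖x k‖ ^ 2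

theorem nq_smooth (s : Fin N → ℝ) : ContDiff ℝ ∞ (nq s) := by
  unfold nq
  refine ContDiff.sum fun k _ => contDiff_const.mul ?_
  exact (contDiff_norm_sq ℂ).comp (contDiff_apply ℝ ℂ k)

theorem dz_apply (x : E N) (a k : Fin N) : dz a (fun y : E N => y k) x = if k = a then 1 else 0 := by
  rw [dz_hol (differentiableAt_apply k x)]
  have := (ContinuousLinearMap.proj (R := ℂ) (φ := fun _ : Fin N => ℂ) k).fderiv (x := x)
  erw [this]
  simp [Pi.single_apply]

theorem dz_nq (s : Fin N → ℝ) (x : E N) (a : Fin N) :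
    dz a (fun y => (nq s y : ℂ)) x = s a * star (x a) := by
  have e : (fun y : E N => (nq s y : ℂ)) = fun y => ∑ k, (s k : ℂ) * (y k * star (y k)) := by
    funext y
    simp only [nq, Complex.ofReal_sum, Complex.ofReal_mul]
    refine Finset.sum_congr rfl fun k _ => ?_
    rw [Complex.star_def, Complex.mul_conj, Complex.normSq_eq_norm_sq]
  have d1 : ∀ k, DifferentiableAt ℝ (fun y : E N => y k) x := fun k => differentiableAt_apply k x
  have d2 : ∀ k, DifferentiableAt ℝ (fun y : E N => star (y k)) x := fun k =>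
    (star_smooth (contDiffAt_apply ℝ ℂ k x)).differentiableAt (by simp)
  rw [e, dz_sum _ fun k _ => ((d1 k).fun_mul (d2 k)).const_mul _]
  rw [Finset.sum_eq_single a]
  · rw [dz_mul (differentiableAt_const _) ((d1 a).fun_mul (d2 a)), dz_const, dz_mul (d1 a) (d2 a),
      dz_star_hol (differentiableAt_apply a x), dz_apply]
    simp
  · intro k _ hk
    rw [dz_mul (differentiableAt_const _) ((d1 k).fun_mul (d2 k)), dz_const, dz_mul (d1 k) (d2 k),
      dz_star_hol (differentiableAt_apply k x), dz_apply]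
    simp [hk]
  · simp

theorem dz_real {X : ℝ → ℝ} {X' : ℝ} {n : E N → ℝ} {x : E N} (hX : HasDerivAt X X' (n x))
    (hn : DifferentiableAt ℝ n x) (a : Fin N) :
    dz a (fun y => (X (n y) : ℂ)) x = X' * dz a (fun y => (n y : ℂ)) x := by
  have e1 := Complex.ofRealCLM.hasFDerivAt.comp x (hX.comp_hasFDerivAt x hn.hasFDerivAt)
  have e2 := Complex.ofRealCLM.hasFDerivAt.comp x hn.hasFDerivAt
  have e1' : fderiv ℝ (fun y => (X (n y) : ℂ)) x = _ := e1.fderiv
  have e2' : fderiv ℝ (fun y => (n y : ℂ)) x = _ := e2.fderiv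
  simp only [dz, e1', e2']
  simp
  ring

theorem lv_rad {X X' : ℝ → ℝ} {X'' : ℝ} (s : Fin N → ℝ) {x : E N}
    (h1 : ∀ᶠ t in 𝓝 (nq s x), HasDerivAt X (X' t) t) (h2 : HasDerivAt X' X'' (nq s x))
    (a b : Fin N) :
    lv (fun y => X (nq s y)) x a b = (if b = a then (X' (nq s x) * s a : ℂ) else 0) +
      X'' * (s a * star (x a)) * (s b * x b) := by
  have dn : ∀ y, DifferentiableAt ℝ (nq s) y := fun y => (nq_smooth s).differentiable (by simp) y
  have ev : (fun y => star (dz b (fun x => (X (nq s x) : ℂ)) y)) =ᶠ[𝓝 x]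
      fun y => (X' (nq s y) : ℂ) * (s b * y b) := by
    filter_upwards [(dn x).continuousAt.eventually h1] with y hy
    rw [dz_real hy (dn y), dz_nq]
    simp
  have t : lv (fun y => X (nq s y)) x a b =
      dz a (fun y => star (dz b (fun x => (X (nq s x) : ℂ)) y)) x := rfl
  have d1 : DifferentiableAt ℝ (fun y => (X' (nq s y) : ℂ)) x :=
    Complex.ofRealCLM.differentiableAt.comp x (h2.differentiableAt.comp x (dn x))
  have d2 : DifferentiableAt ℝ (fun y : E N => y b) x := differentiableAt_apply b x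
  rw [t, dzc ev, dz_mul d1 (d2.const_mul _), dz_mul (differentiableAt_const _) d2, dz_const,
    dz_apply, dz_real h2 (dn x), dz_nq]
  by_cases h : b = a
  · subst h; simp
  · simp [h]

theorem jac_comp {K : ℕ} {φ : E M → E N} {s : E K → E M} {z : E K}
    (hφ : DifferentiableAt ℂ φ (s z)) (hs : DifferentiableAt ℂ s z) :
    jac (fun w => φ (s w)) z = jac φ (s z) * jac s z := by
  ext c a
  have e : fderiv ℂ (fun w => φ (s w)) z = _ := (hφ.hasFDerivAt.comp z hs.hasFDerivAt).fderiv
  simp only [jac, Matrix.of_apply, Matrix.mul_apply, e, ContinuousLinearMap.comp_apply]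
  set v := fderiv ℂ s z (Pi.single a 1)
  have : v = ∑ j, v j • (Pi.single j 1 : E M) := by
    ext k; simp [Finset.sum_apply, Pi.single_apply]
  conv_lhs => rw [this]
  simp [map_sum, Finset.sum_apply, mul_comm]

theorem jac_congr {φ φ' : E M → E N} {z : E M} (h : φ =ᶠ[𝓝 z] φ') : jac φ z = jac φ' z := by
  simp only [jac, h.fderiv_eq]

theorem jac_id (z : E N) : jac (fun w : E N => w) z = 1 := by
  ext c a
  simp [jac, Pi.single_apply, Matrix.one_apply]

theorem jac_apply {φ : E M → E N} {z : E M} (h : DifferentiableAt ℂ φ z) (c : Fin N) (a : Fin M) :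
    jac φ z c a = dz a (fun w => φ w c) z := by
  rw [dz_hol (differentiableAt_pi.1 h c), jac, Matrix.of_apply, fderiv_pi (differentiableAt_pi.1 h)]
  rfl

end Pool.Agent.Kum
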