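import Pool.Agent.P.MP_63735c_ag.ZBHyp
import Pool.Agent.P.MP_63735c_ag.Kum.L

/-! Abstract gluing data of a compact symplectic surface, and the charts of the Kummer surface. -/

open scoped ComplexOrder ContDiff Matrix Topology
open Filter

namespace Pool.Agent.Kum

open Pool.Agent.SPF

/-- Gaussian lattice points in the plane. -/
noncomputable def emb (μ : Fin 2 → GaussianInt) : E 2 := fun k => ((μ k : GaussianInt) : ℂ)

/-- The plane without the Gaussian lattice points. -/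
def DD : Set (E 2) := {a | ∀ μ, a ≠ emb μ}

/-- Charts with unimodular changes, a Kähler potential, a line bundle, and a flat cover. -/
structure Glue (X : Type) [TopologicalSpace X] where
  ι : Type
  W : ι → Set (E 2)
  p : ι → E 2 → X
  ψ : ι → E 2 → ℝ
  Φ : ι → E 2 → ℝ
  g : ι → ι → X → ℂ
  isOpen : ∀ i, IsOpen (W i)
  cont : ∀ i, ContinuousOn (p i) (W i)
  inj : ∀ i, Set.InjOn (p i) (W i)
  opn : ∀ i O, IsOpen O → O ⊆ W i → IsOpen (p i '' O)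
  cover : ∀ x, ∃ i, ∃ z ∈ W i, p i z = x
  trans : ∀ i j, ∀ z ∈ W i, ∀ y ∈ W j, p i z = p j y → ∃ φ : E 2 → E 2, φ z = y ∧
    AnalyticAt ℂ φ z ∧ (∀ᶠ w in 𝓝 z, p j (φ w) = p i w ∧ (jac φ w).det = 1) ∧
    PH (fun w => Φ i w - Φ j (φ w)) z ∧ AnalyticAt ℂ (fun w => g i j (p i w)) z
  g_mul : ∀ i j k x, x ∈ p i '' W i → x ∈ p j '' W j → x ∈ p k '' W k →
    g j k x * g i j x = g i k x
  ψ_eq : ∀ i j, ∀ z ∈ W i, ∀ y ∈ W j, p i z = p j y →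
    Real.exp (-ψ i z) = ‖g i j (p i z)‖ ^ 2 * Real.exp (-ψ j y)
  ψ_smooth : ∀ i, ContDiff ℝ ∞ (ψ i)
  Φ_smooth : ∀ i, ContDiff ℝ ∞ (Φ i)
  ψ_psd : ∀ i z, (lv (ψ i) z).PosSemidef
  ψ_det : ∀ i z, (lv (ψ i) z).det = 0
  ψ_ne : ∃ i, ∃ z ∈ W i, lv (ψ i) z ≠ 0
  Φ_pos : ∀ i z, (lv (Φ i) z).PosDef
  Q : E 2 → X
  Q_loc : ∀ a ∈ DD, ∃ (i : ι) (κ : E 2 → E 2), AnalyticAt ℂ κ a ∧ κ a ∈ W i ∧
    (jac κ a).det ≠ 0 ∧ ∀ᶠ w in 𝓝 a, p i (κ w) = Q w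
  Q_neg : ∀ a ∈ DD, Q (-a) = Q a
  Q_per : ∀ a ∈ DD, ∀ μ, Q (a + (2 : ℂ) • emb μ) = Q a
  Q_dense : ∀ i, ∀ z ∈ W i, z ∈ closure {w | w ∈ W i ∧ ∃ a ∈ DD, Q a = p i w}

/-- The quotient map `(u, v) ↦ (u², v / u)` for `t = 0`, `(u / v, v²)` for `t = 1`. -/
noncomputable def cc (t : Fin 2) (b : E 2) : E 2 := fun k => if k = t then b t ^ 2 else b k / b t

/-- `b` lies over the point `z` of the chart of type `t`. -/
def Rep (t : Fin 2) (z b : E 2) : Prop := b t ^ 2 = z t ∧ b t.rev = b t * z t.rev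

/-- The domain of the chart of type `t`. -/
def WW (t : Fin 2) : Set (E 2) := {z | ‖z t‖ < 16 / 25 ∧ ‖z t * z t.rev ^ 2‖ < 16 / 25}

/-- The square of the first flat coordinate, in the chart of type `t`. -/
noncomputable def mm (t : Fin 2) (z : E 2) : ℂ := if t = 0 then z 0 else z 1 * z 0 ^ 2

/-- The two profile functions. -/
structure Fn where
  ε : ℝ
  κ : ℝ
  κ' : ℝ
  χ : ℝ → ℝ
  Y : ℝ → ℝ
  ε_pos : 0 < ε
  χ_smooth : ContDiff ℝ ∞ χ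
  Y_smooth : ContDiff ℝ ∞ Y
  χ_zero : ∀ t ≤ 1 / 100, χ t = 0
  χ_lin : ∀ t ≥ 1 / 30, χ t = t + κ
  Y_sq : ∀ t ≤ 1 / 100, Y t = t ^ 2 / 2
  Y_lin : ∀ t ≥ 1 / 30, ε * Real.log t + Y t = t + κ'
  χ_psd : ∀ t > 0, 0 ≤ deriv χ t + t * deriv (deriv χ) t
  X_one : ∀ t > 0, 0 < ε / t + deriv Y t
  X_two : ∀ t > 0, 0 < deriv Y t + t * deriv (deriv Y) t

/-- The weight of the line bundle in the chart of type `t`. -/
noncomputable def Fn.ψ (F : Fn) (t : Fin 2) (z : E 2) : ℝ := 2 * Real.pi * F.χ ‖mm t z‖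

/-- The Kähler potential in the chart of type `t`. -/
noncomputable def Fn.Φ (F : Fn) (t : Fin 2) (z : E 2) : ℝ :=
  F.Y (‖z t‖ * (1 + ‖z t.rev‖ ^ 2)) + F.ε * Real.log (1 + ‖z t.rev‖ ^ 2)

end Pool.Agent.Kum
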