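import Pool.Agent.P.MP_63735c_ag.Kum.V
import Pool.Agent.P.MP_63735c_ag.Kum.A

/-! Contraction data, and the Kummer surface with its sixteen nodes. -/

open scoped ComplexOrder ContDiff Matrix Topology
open Filter

namespace Pool.Agent.Kum

open Pool.Agent.SPF

/-- A contraction `ρ : Y → X` that is invertible over `R`, with local embeddings of `X`. -/
structure Sing {X Y : Type} [TopologicalSpace X] [TopologicalSpace Y] (R : Set X) (G : Glue Y) where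
  ρ : Y → X
  j : R → Y
  R_open : IsOpen R
  ρ_cont : Continuous ρ
  j_cont : Continuous j
  j_dense : DenseRange j
  ρ_j : ∀ x, ρ (j x) = x
  j_ρ : ∀ y (h : ρ y ∈ R), j ⟨ρ y, h⟩ = y
  Q_mem : ∀ a ∈ DD, ρ (G.Q a) ∈ R
  ψ_ne : ∃ i, ∃ w ∈ G.W i, ρ (G.p i w) ∈ R ∧ lv (G.ψ i) w ≠ 0
  Φ' : G.ι → E 2 → ℝ
  Φ'_smooth : ∀ i, ContDiff ℝ ∞ (Φ' i)
  Φ'_ph : ∀ i k (φ : E 2 → E 2), ∀ w ∈ G.W i, AnalyticAt ℂ φ w → φ w ∈ G.W k →
    (∀ᶠ v in 𝓝 w, G.p k (φ v) = G.p i v) → PH (fun v => Φ' i v - Φ' k (φ v)) w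
  κ : Type
  V : κ → Set X
  z : κ → X → E 3
  V_open : ∀ α, IsOpen (V α)
  V_cover : ∀ x, ∃ α, x ∈ V α
  z_cont : ∀ α, ContinuousOn (z α) (V α)
  z_inj : ∀ α, Set.InjOn (z α) (V α)
  z_trans : ∀ α β, ∀ x ∈ V α ∩ V β, ∃ φ : E 3 → E 3,
    (∀ᶠ w in 𝓝 (z α x), DifferentiableAt ℂ φ w) ∧ ∀ᶠ x' in 𝓝 x, z β x' = φ (z α x')
  πa : E 3 → Matrix (Fin 3) (Fin 3) ℂ
  πa_hol : ∀ a b, Differentiable ℂ fun w => πa w a b
  πa_skew : ∀ w, (πa w)ᵀ = -πa w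
  sing : ∀ α, ∀ x ∈ V α, x ∉ R → πa (z α x) = 0
  ψa : E 3 → ℝ
  Φa : E 3 → ℝ
  ψa_smooth : ContDiff ℝ ∞ ψa
  Φa_smooth : ContDiff ℝ ∞ Φa
  Φa_pos : ∀ w, (lv Φa w).PosDef
  loc : ∀ α y, ρ y ∈ V α → ∃ i, ∃ w ∈ G.W i, G.p i w = y ∧ ∃ q : E 2 → E 3, AnalyticAt ℂ q w ∧
    (∀ᶠ v in 𝓝 w, z α (ρ (G.p i v)) = q v ∧ G.ψ i v = ψa (q v) ∧ Φ' i v = Φa (q v)) ∧
    πa (q w) = jac q w * aS⁻¹ * (jac q w)ᵀ ∧ (ρ y ∈ R → Function.Injective (fderiv ℂ q w))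
  normal : ∀ α, ∀ x ∈ V α, ∀ O : Set X, IsOpen O → x ∈ O → ∀ f : X → ℂ,
    (∀ i, DifferentiableOn ℂ (fun w => f (ρ (G.p i w))) {w | w ∈ G.W i ∧ ρ (G.p i w) ∈ O ∩ R}) →
    ∃ F : E 3 → ℂ, (∀ᶠ w in 𝓝 (z α x), DifferentiableAt ℂ F w) ∧
      ∀ᶠ y in 𝓝 x, y ∈ R → f y = F (z α y)
  frame : ∀ x : X, ∃ (O : Set X) (e : G.ι → Y → ℂ) (c C : ℝ), IsOpen O ∧ x ∈ O ∧ 0 < c ∧
    ∀ i, ∀ w ∈ G.W i, ρ (G.p i w) ∈ O → AnalyticAt ℂ (fun v => e i (G.p i v)) w ∧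
      (c ≤ ‖e i (G.p i w)‖ ^ 2 * Real.exp (-G.ψ i w) ∧
        ‖e i (G.p i w)‖ ^ 2 * Real.exp (-G.ψ i w) ≤ C) ∧
      ∀ k, G.p i w ∈ G.p k '' G.W k → e k (G.p i w) = G.g i k (G.p i w) * e i (G.p i w)

/-- The invariants of degree two. -/
def quad (b : E 2) : E 3 := ![b 0 ^ 2, b 0 * b 1, b 1 ^ 2]

/-- The invariants of degree two in the chart of type `t`. -/
def qq (t : Fin 2) (z : E 2) : E 3 :=
  if t = 0 then ![z 0, z 0 * z 1, z 0 * z 1 ^ 2] else ![z 1 * z 0 ^ 2, z 1 * z 0, z 1]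

/-- The Poisson bivector of the quadric cone. -/
def pia (w : E 3) : Matrix (Fin 3) (Fin 3) ℂ :=
  !![0, -w 0, -(2 * w 1); w 0, 0, -w 2; 2 * w 1, w 2, 0]

/-- The profile of the Kähler form of the nodal surface. -/
structure Fz where
  κ : ℝ
  Y : ℝ → ℝ
  Y_smooth : ContDiff ℝ ∞ Y
  Y_sq : ∀ t ≤ 1 / 100, Y t = t ^ 2 / 2
  Y_lin : ∀ t ≥ 1 / 30, Y t = t + κ
  X_one : ∀ t > 0, 0 < deriv Y t
  X_two : ∀ t > 0, 0 < deriv Y t + t * deriv (deriv Y) t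

/-- The ambient Kähler potential. -/
noncomputable def Fz.Φa (F : Fz) (w : E 3) : ℝ := F.Y (Real.sqrt (nq ![1, 2, 1] w))

/-- The ambient weight. -/
noncomputable def Fn.ψa (F : Fn) (w : E 3) : ℝ := 2 * Real.pi * F.χ ‖w 0‖

/-- Points in one orbit of the group generated by `-1` and twice the lattice. -/
def Orb (a a' : E 2) : Prop := ∃ ν, cls ν = 0 ∧ (a' = a + emb ν ∨ a' = -a + emb ν)

theorem orb_equiv : Equivalence Orb := by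
  refine ⟨fun a => ⟨0, cls_zero, Or.inl (by rw [emb_zero, add_zero])⟩, ?_, ?_⟩
  · rintro a _ ⟨ν, c, rfl | rfl⟩
    · exact ⟨-ν, by rw [cls_neg, c], Or.inl (by rw [emb_neg]; abel)⟩
    · exact ⟨ν, c, Or.inr (by abel)⟩
  · rintro a _ _ ⟨ν, c, rfl | rfl⟩ ⟨μ, d, rfl | rfl⟩
    · exact ⟨ν + μ, by rw [cls_add, c, d, add_zero], Or.inl (by rw [emb_add]; abel)⟩
    · exact ⟨-ν + μ, by rw [cls_add, cls_neg, c, d, add_zero],
        Or.inr (by rw [emb_add, emb_neg]; abel)⟩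
    · exact ⟨ν + μ, by rw [cls_add, c, d, add_zero], Or.inr (by rw [emb_add]; abel)⟩
    · exact ⟨-ν + μ, by rw [cls_add, cls_neg, c, d, add_zero],
        Or.inl (by rw [emb_add, emb_neg]; abel)⟩

/-- The nodal surface. -/
abbrev XN : Type := Quotient (⟨Orb, orb_equiv⟩ : Setoid (E 2))

/-- The projection from the plane. -/
def pr (a : E 2) : XN := Quotient.mk _ a

theorem pr_eq {a a' : E 2} : pr a = pr a' ↔ Orb a a' := Quotient.eq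

/-- The smooth part. -/
def RR : Set XN := pr '' DD

/-- The contraction of the exceptional curves. -/
noncomputable def rho (y : XX) : XN :=
  pr (Classical.epsilon fun a => ∃ i : Ix, ∃ z ∈ WW i.2, pp i z = y ∧ a ∈ (inv i z).1)

/-- The inverse of the contraction. -/
noncomputable def jj (x : RR) : XX := QQ (Quotient.out x.1)

end Pool.Agent.Kum
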