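import Pool.Agent.P.MP_63735c_ag.Kum.G

/-! Connectedness, constancy of holomorphic functions and vanishing of holomorphic one-forms. -/

open scoped ComplexOrder ContDiff Matrix Topology
open Filter

namespace Pool.Agent.Kum

open Pool.Agent.SPF

theorem h_liou {g : ℂ → ℂ} (hg : Differentiable ℂ g)
    (hp : ∀ (z : ℂ) (μ : GaussianInt), g (z + 2 * (μ : ℂ)) = g z) (z w : ℂ) : g z = g w := by
  refine hg.apply_eq_apply_of_bounded ?_ z w
  refine ((isCompact_closedBall (0 : ℂ) 4).image hg.continuous).isBounded.subset ?_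
  rintro _ ⟨y, rfl⟩
  refine ⟨y + 2 * ((⟨-⌊y.re / 2⌋, -⌊y.im / 2⌋⟩ : GaussianInt) : ℂ), ?_, hp _ _⟩
  rw [mem_closedBall_zero_iff]
  refine (Complex.norm_le_abs_re_add_abs_im _).trans ?_
  have a1 := Int.floor_le (y.re / 2)
  have a2 := Int.lt_floor_add_one (y.re / 2)
  have b1 := Int.floor_le (y.im / 2)
  have b2 := Int.lt_floor_add_one (y.im / 2)
  have e1 : (y + 2 * ((⟨-⌊y.re / 2⌋, -⌊y.im / 2⌋⟩ : GaussianInt) : ℂ)).re =
      y.re - 2 * (⌊y.re / 2⌋ : ℝ) := by
    simp [GaussianInt.toComplex_def']; ring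
  have e2 : (y + 2 * ((⟨-⌊y.re / 2⌋, -⌊y.im / 2⌋⟩ : GaussianInt) : ℂ)).im =
      y.im - 2 * (⌊y.im / 2⌋ : ℝ) := by
    simp [GaussianInt.toComplex_def']; ring
  rw [e1, e2, abs_of_nonneg (by linarith), abs_of_nonneg (by linarith)]
  linarith

theorem h_mem {a : E 2} : a ∈ DD ↔ ∃ k, ∀ ν : GaussianInt, a k ≠ (ν : ℂ) := by
  constructor
  · intro h
    by_contra hn
    push Not at hn
    choose μ hμ using hn
    exact h μ (funext hμ)
  · rintro ⟨k, hk⟩ μ rfl
    exact hk (μ k) rfl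

theorem h_closed : IsClosed {z : ℂ | ∃ ν : GaussianInt, z = (ν : ℂ)} := by
  have e : {z : ℂ | ∃ ν : GaussianInt, z = (ν : ℂ)} =
      Complex.re ⁻¹' Set.range ((↑) : ℤ → ℝ) ∩ Complex.im ⁻¹' Set.range ((↑) : ℤ → ℝ) := by
    ext z
    constructor
    · rintro ⟨ν, rfl⟩
      exact ⟨⟨ν.re, by simp⟩, ⟨ν.im, by simp⟩⟩
    · rintro ⟨⟨m, hm⟩, ⟨n, hn⟩⟩
      refine ⟨⟨m, n⟩, Complex.ext ?_ ?_⟩
      · simp [← hm]
      · simp [← hn]
  rw [e]
  exact (Int.isClosedEmbedding_coe_real.isClosed_range.preimage Complex.continuous_re).inter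
    (Int.isClosedEmbedding_coe_real.isClosed_range.preimage Complex.continuous_im)

theorem h_open : IsOpen DD := by
  rw [isOpen_iff_mem_nhds]
  intro a ha
  obtain ⟨k, hk⟩ := h_mem.1 ha
  have h1 : IsOpen ((fun w : E 2 => w k) ⁻¹' {z : ℂ | ∃ ν : GaussianInt, z = (ν : ℂ)}ᶜ) :=
    h_closed.isOpen_compl.preimage (continuous_apply k)
  refine mem_of_superset (h1.mem_nhds ?_) fun w hw => h_mem.2 ⟨k, fun ν e => hw ⟨ν, e⟩⟩
  rintro ⟨ν, e⟩
  exact hk ν e

theorem h_half (ν : GaussianInt) : (1 / 2 : ℂ) ≠ (ν : ℂ) := by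
  intro h
  have h1 : (1 / 2 : ℝ) = (ν.re : ℝ) := by
    have := congrArg Complex.re h
    simpa using this
  have h2 : (1 : ℝ) = 2 * (ν.re : ℝ) := by linarith
  have h3 : (1 : ℤ) = 2 * ν.re := by exact_mod_cast h2
  omega

theorem h_add {a : E 2} (ha : a ∈ DD) (μ : Fin 2 → GaussianInt) : a + (2 : ℂ) • emb μ ∈ DD := by
  obtain ⟨k, hk⟩ := h_mem.1 ha
  refine h_mem.2 ⟨k, fun ν e => hk (ν - 2 * μ k) ?_⟩
  have : a k + 2 * ((μ k : GaussianInt) : ℂ) = ν := e
  rw [map_sub, map_mul, map_ofNat, ← this]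
  ring

theorem h_neg {a : E 2} (ha : a ∈ DD) : -a ∈ DD := by
  obtain ⟨k, hk⟩ := h_mem.1 ha
  refine h_mem.2 ⟨k, fun ν e => hk (-ν) ?_⟩
  have : -a k = ν := e
  rw [map_neg, ← this, neg_neg]

theorem h_slice {f : E 2 → ℂ} (hf : ∀ a ∈ DD, DifferentiableAt ℂ f a)
    (hp : ∀ a ∈ DD, ∀ μ, f (a + (2 : ℂ) • emb μ) = f a) (a : E 2) (k l : Fin 2) (hkl : k ≠ l)
    (hk : ∀ ν : GaussianInt, a k ≠ (ν : ℂ)) (v : ℂ) : f (Function.update a l v) = f a := by
  have hD : ∀ y, Function.update a l y ∈ DD := fun y =>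
    h_mem.2 ⟨k, by rw [Function.update_of_ne hkl]; exact hk⟩
  have hd : Differentiable ℂ fun y => f (Function.update a l y) := fun y =>
    (hf _ (hD y)).comp y (hasFDerivAt_update a y).differentiableAt
  have := h_liou hd (fun y μ => by
    have e : Function.update a l (y + 2 * (μ : ℂ)) =
        Function.update a l y + (2 : ℂ) • emb (Pi.single l μ) := by
      funext m
      by_cases h : m = l
      · subst h; simp [emb]
      · simp [emb, h]
    rw [e, hp _ (hD y)]) v (a l)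
  rwa [Function.update_eq_self] at this

theorem h_const {f : E 2 → ℂ} (hf : ∀ a ∈ DD, DifferentiableAt ℂ f a)
    (hp : ∀ a ∈ DD, ∀ μ, f (a + (2 : ℂ) • emb μ) = f a) :
    ∀ a ∈ DD, f a = f fun _ => 1 / 2 := by
  intro a ha
  obtain ⟨k, hk⟩ := h_mem.1 ha
  have hr : k ≠ k.rev := (by decide : ∀ k : Fin 2, k ≠ k.rev) k
  have e1 := h_slice hf hp a k k.rev hr hk (1 / 2)
  have e2 := h_slice hf hp (Function.update a k.rev (1 / 2)) k.rev k hr.symm
    (by rw [Function.update_self]; exact h_half) (1 / 2)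
  rw [← e1, ← e2]
  refine congrArg f (funext fun m => ?_)
  by_cases h : m = k
  · subst h; simp
  · have : m = k.rev := (by decide : ∀ m k : Fin 2, ¬m = k → m = k.rev) m k h
    subst this
    rw [Function.update_of_ne h, Function.update_self]

variable {X : Type} [TopologicalSpace X] (G : Glue X)

theorem Glue.h_dense {Y : Type} [TopologicalSpace Y] {i : G.ι} {u : E 2 → Y} {T : Set Y}
    (hu : ContinuousOn u (G.W i)) (hT : IsClosed T)
    (h : ∀ w ∈ G.W i, ∀ a ∈ DD, G.Q a = G.p i w → u w ∈ T) : ∀ z ∈ G.W i, u z ∈ T := by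
  intro z hz
  have h1 := ((hu z hz).mono fun w hw => hw.1).mem_closure_image (G.Q_dense i z hz)
  refine hT.closure_subset_iff.2 ?_ h1
  rintro _ ⟨w, ⟨hw, a, ha, e⟩, rfl⟩
  exact h w hw a ha e

include G in
theorem Glue.conn : PreconnectedSpace X := by
  have : Countable GaussianInt :=
    Function.Injective.countable (f := fun ν : GaussianInt => (ν.re, ν.im))
      fun _ _ h => Zsqrtd.ext (congrArg Prod.fst h) (congrArg Prod.snd h)
  have hr : 1 < Module.rank ℝ (E 2) := by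
    apply Module.one_lt_rank_of_one_lt_finrank
    simp [Module.finrank_pi_fintype]
  have hc : IsPreconnected DD := by
    have := ((Set.countable_range emb).isConnected_compl_of_one_lt_rank hr).isPreconnected
    have e : DD = (Set.range emb)ᶜ := by
      ext a
      exact ⟨fun h ⟨μ, e⟩ => h μ e.symm, fun h μ e => h ⟨μ, e.symm⟩⟩
    rwa [e]
  have hQ : ContinuousOn G.Q DD := by
    intro a ha
    obtain ⟨i, κ, h1, h2, -, h3⟩ := G.Q_loc a ha
    have h4 : ContinuousAt (fun w => G.p i (κ w)) a :=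
      ((G.cont i).continuousAt ((G.isOpen i).mem_nhds h2)).comp h1.continuousAt
    exact (h4.congr h3).continuousWithinAt
  have h5 := (hc.image _ hQ).closure
  refine ⟨?_⟩
  have e : closure (G.Q '' DD) = Set.univ := by
    refine Set.eq_univ_of_forall fun x => ?_
    obtain ⟨i, z, hz, rfl⟩ := G.cover x
    exact G.h_dense (G.cont i) isClosed_closure
      (fun w _ a ha e => subset_closure (e ▸ Set.mem_image_of_mem G.Q ha)) z hz
  rwa [e] at h5

theorem Glue.fun0 (f : X → ℂ) (hf : ∀ i, DifferentiableOn ℂ (fun z => f (G.p i z)) (G.W i)) :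
    ∃ c, ∀ x, f x = c := by
  have h1 : ∀ a ∈ DD, DifferentiableAt ℂ (fun w => f (G.Q w)) a := by
    intro a ha
    obtain ⟨i, κ, h1, h2, -, h3⟩ := G.Q_loc a ha
    have h4 : DifferentiableAt ℂ (fun w => f (G.p i (κ w))) a :=
      ((hf i).differentiableAt ((G.isOpen i).mem_nhds h2)).comp a h1.differentiableAt
    exact h4.congr_of_eventuallyEq (h3.mono fun w hw => by simp only [hw])
  have h2 := h_const h1 fun a ha μ => by simp only [G.Q_per a ha μ]
  refine ⟨f (G.Q fun _ => 1 / 2), fun x => ?_⟩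
  obtain ⟨i, z, hz, rfl⟩ := G.cover x
  exact G.h_dense (T := {f (G.Q fun _ => 1 / 2)}) (hf i).continuousOn isClosed_singleton
    (fun w _ a ha e => by rw [← e]; exact h2 a ha) z hz

/-- A local holomorphic lift of the flat cover to a chart. -/
def Glue.HLift (a : E 2) (i : G.ι) (κ : E 2 → E 2) : Prop :=
  AnalyticAt ℂ κ a ∧ κ a ∈ G.W i ∧ ∀ᶠ w in 𝓝 a, G.p i (κ w) = G.Q w

theorem Glue.h_near {a : E 2} {i : G.ι} {κ : E 2 → E 2} (h : G.HLift a i κ) :
    ∀ᶠ w in 𝓝 a, G.HLift w i κ := by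
  filter_upwards [h.1.eventually_analyticAt,
    h.1.continuousAt.eventually ((G.isOpen i).mem_nhds h.2.1), h.2.2.eventually_nhds]
    with w h1 h2 h3 using ⟨h1, h2, h3⟩

theorem Glue.one1 (α : G.ι → E 2 → E 2) (hα : ∀ i, DifferentiableOn ℂ (α i) (G.W i))
    (hc : ∀ i j (φ : E 2 → E 2), ∀ z ∈ G.W i, AnalyticAt ℂ φ z → φ z ∈ G.W j →
      (∀ᶠ w in 𝓝 z, G.p j (φ w) = G.p i w) → α i z = α j (φ z) ᵥ* jac φ z) :
    ∀ i, ∀ z ∈ G.W i, α i z = 0 := by
  classical
  have ind : ∀ a i κ j κ', G.HLift a i κ → G.HLift a j κ' →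
      α i (κ a) ᵥ* jac κ a = α j (κ' a) ᵥ* jac κ' a := by
    intro a i κ j κ' h h'
    obtain ⟨φ, e, an, ev, -⟩ := G.trans i j _ h.2.1 _ h'.2.1
      (h.2.2.self_of_nhds.trans h'.2.2.self_of_nhds.symm)
    have hW : φ (κ a) ∈ G.W j := e ▸ h'.2.1
    have e1 : (fun w => φ (κ w)) =ᶠ[𝓝 a] κ' := by
      filter_upwards [h.2.2, h'.2.2, h.1.continuousAt.eventually ev,
        (an.continuousAt.comp h.1.continuousAt).eventually ((G.isOpen j).mem_nhds hW),
        h'.1.continuousAt.eventually ((G.isOpen j).mem_nhds h'.2.1)] with w a1 a2 a3 a4 a5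
      exact G.inj j a4 a5 (a3.1.trans (a1.trans a2.symm))
    rw [hc i j φ _ h.2.1 an hW (ev.mono fun w hw => hw.1), Matrix.vecMul_vecMul,
      ← jac_comp an.differentiableAt h.1.differentiableAt, jac_congr e1, e]
  obtain ⟨A, hA⟩ : ∃ A : E 2 → E 2, ∀ a i κ, G.HLift a i κ → A a = α i (κ a) ᵥ* jac κ a := by
    refine ⟨fun a => if h : ∃ q : G.ι × (E 2 → E 2), G.HLift a q.1 q.2 then
      α h.choose.1 (h.choose.2 a) ᵥ* jac h.choose.2 a else 0, fun a i κ h => ?_⟩
    have h1 : ∃ q : G.ι × (E 2 → E 2), G.HLift a q.1 q.2 := ⟨(i, κ), h⟩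
    simp only [dif_pos h1]
    exact ind _ _ _ _ _ h1.choose_spec h
  have hd : ∀ k, ∀ a ∈ DD, DifferentiableAt ℂ (fun w => A w k) a := by
    intro k a ha
    obtain ⟨i, κ, h1, h2, -, h3⟩ := G.Q_loc a ha
    have h4 : DifferentiableAt ℂ (fun w => α i (κ w)) a :=
      ((hα i).differentiableAt ((G.isOpen i).mem_nhds h2)).comp a h1.differentiableAt
    have h5 : DifferentiableAt ℂ (fun w => ∑ c, α i (κ w) c * jac κ w c k) a :=
      DifferentiableAt.fun_sum fun c _ =>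
        (differentiableAt_pi.1 h4 c).mul (jac_an h1 c k).differentiableAt
    refine h5.congr_of_eventuallyEq ((G.h_near ⟨h1, h2, h3⟩).mono fun w hw => ?_)
    show A w k = _
    rw [hA w i κ hw]
    rfl
  have hp : ∀ a ∈ DD, ∀ μ, A (a + (2 : ℂ) • emb μ) = A a := by
    intro a ha μ
    obtain ⟨i, κ, h1, h2, -, h3⟩ := G.Q_loc _ (h_add ha μ)
    have an : AnalyticAt ℂ (fun w : E 2 => w + (2 : ℂ) • emb μ) a :=
      analyticAt_id.add analyticAt_const
    have l2 : G.HLift a i fun w => κ (w + (2 : ℂ) • emb μ) := by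
      refine ⟨h1.comp_of_eq an rfl, h2, ?_⟩
      filter_upwards [an.continuousAt.eventually h3, h_open.mem_nhds ha] with w a1 a2
      rw [a1, G.Q_per w a2]
    rw [hA _ i κ ⟨h1, h2, h3⟩, hA _ i _ l2]
    simp only [jac, fderiv_comp_add_right]
  have hn : ∀ a ∈ DD, A (-a) = -A a := by
    intro a ha
    obtain ⟨i, κ, h1, h2, -, h3⟩ := G.Q_loc _ (h_neg ha)
    have an : AnalyticAt ℂ (fun w : E 2 => -w) a := analyticAt_id.neg
    have l2 : G.HLift a i fun w => κ (-w) := by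
      refine ⟨h1.comp_of_eq an rfl, h2, ?_⟩
      filter_upwards [an.continuousAt.eventually h3, h_open.mem_nhds ha] with w a1 a2
      rw [a1, G.Q_neg w a2]
    have e : fderiv ℂ (fun w => κ (-w)) a = _ :=
      (h1.differentiableAt.hasFDerivAt.comp a (hasFDerivAt_id a).neg).fderiv
    have e2 : jac (fun w => κ (-w)) a = -jac κ (-a) := by
      ext c k
      simp [jac, e]
    rw [hA _ i κ ⟨h1, h2, h3⟩, hA _ i _ l2, e2, Matrix.vecMul_neg, neg_neg]
  have h0 : ∀ a ∈ DD, A a = 0 := by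
    intro a ha
    funext k
    have c := h_const (hd k) fun a ha μ => by simp only [hp a ha μ]
    have e1 : A (-a) k = A a k := (c _ (h_neg ha)).trans (c _ ha).symm
    rw [hn a ha, Pi.neg_apply] at e1
    show A a k = 0
    linear_combination (-1 / 2 : ℂ) * e1
  intro i
  refine G.h_dense (T := {0}) (hα i).continuousOn isClosed_singleton fun w hw a ha e => ?_
  obtain ⟨j, κ, h1, h2, h4, h3⟩ := G.Q_loc a ha
  have z1 : α j (κ a) = 0 :=
    Matrix.eq_zero_of_vecMul_eq_zero h4 ((hA a j κ ⟨h1, h2, h3⟩).symm.trans (h0 a ha))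
  obtain ⟨φ, e', an, ev, -⟩ := G.trans i j w hw _ h2 (e.symm.trans h3.self_of_nhds.symm)
  show α i w = 0
  rw [hc i j φ w hw an (e' ▸ h2) (ev.mono fun w hw => hw.1), e', z1, Matrix.zero_vecMul]

end Pool.Agent.Kum
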