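import Pool.Agent.Lib.SCV.Smooth
import Pool.Agent.P.MP_63735c_ag.Kum.Ctl

/-! An analytic set has a manifold point close to each of its points. -/

open scoped Topology
open Filter Set Metric

namespace Pool.Agent.Kum

open Pool.Agent.SPF Pool.Agent.CK Pool.Agent.SE Pool.Agent.ZB Pool.Agent.Lib.SCV

section

variable {F : Type} [NormedAddCommGroup F] [NormedSpace ℂ F]

/-- `S` is a complex submanifold near `y`. -/
def MPt (S : Set F) (y : F) : Prop :=
  ∃ (d : ℕ) (g : E d → F) (t : E d), (∀ᶠ u in 𝓝 t, DifferentiableAt ℂ g u) ∧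
    Function.Injective (fderiv ℂ g t) ∧ map g (𝓝 t) = 𝓝[S] y ∧ g t = y

/-- `S` is cut out in `W` by holomorphic functions. -/
def An (S W : Set F) : Prop :=
  ∀ w ∈ W, w ∉ S → ∃ f : F → ℂ, DifferentiableOn ℂ f W ∧ (∀ s ∈ S ∩ W, f s = 0) ∧ f w ≠ 0

theorem mp_van [FiniteDimensional ℂ F] {S : Set F} {z : F} {r : ℝ} (hz : z ∈ S)
    (H : ∀ h : F → ℂ, DifferentiableOn ℂ h (ball z r) → (∀ s ∈ S ∩ ball z r, h s = 0) →
      ∀ y ∈ S ∩ ball z r, fderiv ℂ h y = 0)
    {f : F → ℂ} (hf : DifferentiableOn ℂ f (ball z r)) (h0 : ∀ s ∈ S ∩ ball z r, f s = 0)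
    {w : F} (hw : w ∈ ball z r) : f w = 0 := by
  have hr : 0 < r := pos_of_mem_ball hw
  have hl : Continuous fun t : ℂ => z + t • (w - z) := by fun_prop
  have ev : ∀ᶠ t : ℂ in 𝓝 0, z + t • (w - z) ∈ ball z r :=
    hl.continuousAt.eventually_mem (by simpa using ball_mem_nhds z hr)
  have key : ∀ n : ℕ, ∀ h : F → ℂ, DifferentiableOn ℂ h (ball z r) →
      (∀ s ∈ S ∩ ball z r, h s = 0) → iteratedDeriv n (fun t : ℂ => h (z + t • (w - z))) 0 = 0 := by
    intro n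
    induction n with
    | zero => intro h _ h2; simpa using h2 z ⟨hz, mem_ball_self hr⟩
    | succ n ih =>
      intro h h1 h2
      rw [iteratedDeriv_succ']
      refine (EventuallyEq.iteratedDeriv_eq n ?_).trans (ih (fun y => fderiv ℂ h y (w - z))
        (differentiableOn_fderiv_apply isOpen_ball h1 _) fun s hs => by rw [H h h1 h2 s hs]; rfl)
      filter_upwards [ev] with t ht
      have a : HasDerivAt (fun t : ℂ => z + t • (w - z)) (w - z) t := by
        simpa using ((hasDerivAt_id t).smul_const (w - z)).const_add z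
      exact ((h1.differentiableAt (isOpen_ball.mem_nhds ht)).hasFDerivAt.comp_hasDerivAt t a).deriv
  have hn : ‖w - z‖ < r := by rwa [mem_ball, dist_eq_norm] at hw
  obtain ⟨ρ, h1, h2⟩ : ∃ ρ : ℝ, 1 < ρ ∧ ρ * ‖w - z‖ < r := by
    have c : ContinuousAt (fun ρ : ℝ => ρ * ‖w - z‖) 1 := by fun_prop
    have := (c.eventually_lt continuousAt_const (g := fun _ => r) (by simpa using hn)).filter_mono
      (nhdsWithin_le_nhds (s := Ioi 1))
    exact (this.and self_mem_nhdsWithin).exists.imp fun _ h => ⟨h.2, h.1⟩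
  have hd : DifferentiableOn ℂ (fun t : ℂ => f (z + t • (w - z))) (ball 0 ρ) := by
    refine hf.comp (f := fun t : ℂ => z + t • (w - z)) (by fun_prop) fun t ht => ?_
    rw [mem_ball, dist_eq_norm, add_sub_cancel_left, norm_smul]
    exact (mul_le_mul_of_nonneg_right (mem_ball_zero_iff.1 ht).le (norm_nonneg _)).trans_lt h2
  have := Complex.hasSum_taylorSeries_on_ball hd (z := 1) (by simpa using h1)
  simp only [key _ f hf h0, smul_zero, one_smul, add_sub_cancel] at this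
  exact this.unique hasSum_zero

end

theorem mp_main (m : ℕ) : ∀ (F : Type) [NormedAddCommGroup F] [NormedSpace ℂ F]
    [FiniteDimensional ℂ F], Module.finrank ℂ F = m → ∀ S W : Set F, IsOpen W → An S W →
    ∀ z ∈ S ∩ W, ∃ y ∈ S ∩ W, MPt S y := by
  induction m using Nat.strong_induction_on with
  | _ m ih =>
  intro F _ _ _ hm S W hW hA z hz
  have : CompleteSpace F := FiniteDimensional.complete ℂ F
  obtain ⟨r, hr, hB⟩ := Metric.isOpen_iff.1 hW z hz.2
  by_cases H : ∀ h : F → ℂ, DifferentiableOn ℂ h (ball z r) → (∀ s ∈ S ∩ ball z r, h s = 0) →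
      ∀ y ∈ S ∩ ball z r, fderiv ℂ h y = 0
  · have hS : ball z r ⊆ S := fun w hw => by
      by_contra hc
      obtain ⟨f, f1, f2, f3⟩ := hA w (hB hw) hc
      exact f3 (mp_van hz.1 H (f1.mono hB) (fun s hs => f2 s ⟨hs.1, hB hs.2⟩) hw)
    let e : E m ≃L[ℂ] F := ContinuousLinearEquiv.ofFinrankEq (by simp [hm])
    refine ⟨z, hz, m, e, e.symm z, Eventually.of_forall fun _ => e.differentiableAt, ?_, ?_,
      e.apply_symm_apply z⟩
    · rw [e.fderiv]; exact e.injective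
    · rw [nhdsWithin_eq_nhds.2 (mem_of_superset (ball_mem_nhds z hr) hS)]
      simpa using e.toHomeomorph.map_nhds_eq (e.symm z)
  push Not at H
  obtain ⟨h, h1, h2, y, hy, hl⟩ := H
  obtain ⟨l, hl'⟩ : ∃ l, l = fderiv ℂ h y := ⟨_, rfl⟩
  rw [← hl'] at hl
  obtain ⟨v, hv⟩ : ∃ v, l v = 1 := by
    obtain ⟨u, hu⟩ := DFunLike.ne_iff.1 hl
    exact ⟨(l u)⁻¹ • u, by rw [map_smul, smul_eq_mul, inv_mul_cancel₀ hu]⟩
  let K : Submodule ℂ F := LinearMap.ker (l : F →ₗ[ℂ] ℂ)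
  have hK : Module.finrank ℂ K < m := hm ▸ Submodule.finrank_lt fun c => by
    have : v ∈ K := c ▸ Submodule.mem_top
    exact one_ne_zero (hv.symm.trans this)
  let P : F → K := fun w => ⟨w - l w • v, by simp [K, hv]⟩
  have hP : Continuous P := Continuous.subtype_mk (by fun_prop) _
  let Φ : F → F := fun w => w + (h w - l w) • v
  have hΦP : ∀ w ∈ S ∩ ball z r, (P w : F) = Φ w := fun w hw => by
    simp [P, Φ, h2 w hw, sub_eq_add_neg]
  have hc : ContDiffAt ℂ 1 h y :=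
    (contDiffOn_nat isOpen_ball 1 h h1).contDiffAt (isOpen_ball.mem_nhds hy.2)
  have hΦc : ContDiffAt ℂ 1 Φ y := contDiffAt_id.add ((hc.sub l.contDiff.contDiffAt).smul_const v)
  have hΦd : HasFDerivAt Φ (ContinuousLinearEquiv.refl ℂ F : F →L[ℂ] F) y := by
    have a := (hasFDerivAt_id y).add ((((hc.differentiableAt one_ne_zero).hasFDerivAt.sub
      l.hasFDerivAt)).smul_const v)
    rw [← hl', sub_self] at a
    exact a.congr_fderiv (by ext; simp)
  obtain ⟨Ψ, e1, e2, e3⟩ : ∃ Ψ : F → F, (∀ᶠ w in 𝓝 y, Ψ (Φ w) = w) ∧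
      (∀ᶠ u in 𝓝 (Φ y), Φ (Ψ u) = u) ∧ ContDiffAt ℂ 1 Ψ (Φ y) :=
    ⟨_, (hΦc.hasStrictFDerivAt' hΦd one_ne_zero).eventually_left_inverse,
      (hΦc.hasStrictFDerivAt' hΦd one_ne_zero).eventually_right_inverse,
      hΦc.to_localInverse hΦd one_ne_zero⟩
  obtain ⟨O', o1, o2, o3⟩ := _root_.eventually_nhds_iff.1 (e1.and (isOpen_ball.mem_nhds hy.2))
  have e4 : ∀ᶠ u in 𝓝 (Φ y), Ψ u ∈ O' :=
    e3.continuousAt.eventually_mem (by rw [e1.self_of_nhds]; exact o2.mem_nhds o3)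
  obtain ⟨O, p1, p2, p3⟩ := _root_.eventually_nhds_iff.1 (e2.and (e4.and (e3.eventually (by simp))))
  have dΨ : ∀ u : K, (u : F) ∈ O → DifferentiableAt ℂ (fun u : K => Ψ u) u := fun u hu =>
    ((p1 u hu).2.2.differentiableAt one_ne_zero).comp u K.subtypeL.differentiableAt
  have mB : ∀ u : K, (u : F) ∈ O → Ψ u ∈ ball z r := fun u hu => (o1 _ (p1 u hu).2.1).2
  obtain ⟨u, ⟨hu1, hu2⟩, d, g, t, g1, g2, g3, g4⟩ := ih _ hK K rfl {u | Ψ u ∈ S} {u | (u : F) ∈ O}
    (p2.preimage continuous_subtype_val) (fun u hu hc => by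
      obtain ⟨f, f1, f2, f3⟩ := hA _ (hB (mB u hu)) hc
      exact ⟨fun u => f (Ψ u), f1.comp (fun u hu => (dΨ u hu).differentiableWithinAt)
        fun u hu => hB (mB u hu), fun s hs => f2 _ ⟨hs.1, hB (mB s hs.2)⟩, f3⟩) (P y)
    ⟨by show Ψ (P y) ∈ S; rw [hΦP y hy, e1.self_of_nhds]; exact hy.1,
      by show (P y : F) ∈ O; rw [hΦP y hy]; exact p3⟩
  have gO : ∀ᶠ s in 𝓝 t, (g s : F) ∈ O :=
    (continuous_subtype_val.continuousAt.comp g1.self_of_nhds.continuousAt).eventually_mem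
      (p2.mem_nhds (by simpa [g4] using hu2))
  have gd : ∀ᶠ s in 𝓝 t, DifferentiableAt ℂ (fun s => Ψ (g s)) s := by
    filter_upwards [g1, gO] with s a b using (dΨ _ b).comp s a
  refine ⟨Ψ u, ⟨hu1, hB (mB u hu2)⟩, d, fun s => Ψ (g s), t, gd, ?_, ?_, congrArg (fun u : K => Ψ u) g4⟩
  · have a : DifferentiableAt ℂ Φ (Ψ (g t)) := differentiableAt_id.add
      (((h1.differentiableAt (isOpen_ball.mem_nhds (mB _ gO.self_of_nhds))).sub
        l.differentiableAt).smul_const v)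
    have b := a.hasFDerivAt.comp t gd.self_of_nhds.hasFDerivAt
    have c := (K.subtypeL.hasFDerivAt.comp t g1.self_of_nhds.hasFDerivAt).congr_of_eventuallyEq
      (f₁ := Φ ∘ fun s => Ψ (g s)) (by filter_upwards [gO] with s hs using (p1 _ hs).1)
    have i : Function.Injective (K.subtypeL.comp (fderiv ℂ g t)) := Subtype.val_injective.comp g2
    rw [← b.unique c] at i
    exact Function.Injective.of_comp i
  · have q : map (fun s => Ψ (g s)) (𝓝 t) = map (fun u : K => Ψ u) (𝓝[{u | Ψ u ∈ S}] u) := by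
      rw [← g3, map_map]; rfl
    rw [q]
    refine le_antisymm (tendsto_nhdsWithin_iff.2 ⟨(dΨ u hu2).continuousAt.mono_left
      nhdsWithin_le_nhds, self_mem_nhdsWithin⟩) ?_
    have ev : ∀ᶠ w in 𝓝[S] (Ψ u), Ψ (P w) = w ∧ w ∈ S := by
      filter_upwards [self_mem_nhdsWithin, mem_nhdsWithin_of_mem_nhds (o2.mem_nhds (p1 _ hu2).2.1)]
        with w a b
      rw [hΦP w ⟨a, (o1 w b).2⟩]
      exact ⟨(o1 w b).1, a⟩
    have pu : P (Ψ u) = u := Subtype.ext ((hΦP _ ⟨hu1, mB u hu2⟩).trans (p1 _ hu2).1)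
    have T : Tendsto P (𝓝[S] (Ψ u)) (𝓝[{u : K | Ψ u ∈ S}] u) :=
      tendsto_nhdsWithin_iff.2 ⟨(hP.tendsto' _ _ pu).mono_left nhdsWithin_le_nhds,
        ev.mono fun w hw => by show Ψ (P w) ∈ S; rw [hw.1]; exact hw.2⟩
    exact ((tendsto_map (f := fun u : K => Ψ u)).comp T).congr' (f₂ := id) (ev.mono fun w hw => hw.1)

variable {N : ℕ} {X : Type} [TopologicalSpace X] {R : Set X} {A : Atlas R N}

theorem ctl_mpt (hR : IsOpen R) (B : Amb R A) (L : Line A) (k : ℕ) {x y : X}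
    (hy : y ∈ FibreS L k x) (yR : y ∈ R) (hb : ∃ s, L.IsSection k s ∧ ¬ VanS L k s y) {U : Set X}
    (hU : IsOpen U) (yU : y ∈ U) : ∃ (α : B.κ) (d : ℕ) (γ : E d → E (B.M α)) (t : E d),
      ∃ x' ∈ FibreS L k x ∩ B.V α, x' ∈ U ∧ (∀ᶠ u in 𝓝 t, DifferentiableAt ℂ γ u) ∧
        Function.Injective (fderiv ℂ γ t) ∧
        map γ (𝓝 t) = map (B.z α) (𝓝[FibreS L k x] x') := by
  obtain ⟨i, z, hz, e⟩ := A.cover ⟨y, yR⟩
  have e' : (A.p i z : X) = y := congrArg Subtype.val e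
  subst e'
  obtain ⟨α, hα⟩ := B.cover (A.p i z)
  obtain ⟨s₀, a0, b0⟩ := hb
  rw [ctl_van hR L k a0 i hz] at b0
  let W := ((A.C i).W ∩ (fun w => (A.p i w : X)) ⁻¹' (U ∩ B.V α)) ∩ ((A.C i).W ∩ s₀ i ⁻¹' {0}ᶜ)
  have hW : IsOpen W := ((continuous_subtype_val.comp_continuousOn (A.cont i)).isOpen_inter_preimage
    (A.C i).isOpen (hU.inter (B.V_open α))).inter
    ((a0.1 i).continuousOn.isOpen_inter_preimage (A.C i).isOpen isOpen_compl_singleton)
  obtain ⟨w, ⟨w1, w2⟩, d, g, t, g1, g2, g3, g4⟩ := mp_main _ (E N) rfl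
    ((fun w => (A.p i w : X)) ⁻¹' FibreS L k x) W hW (fun w hw hc => by
      obtain ⟨s, hs⟩ := not_forall.1 hc
      obtain ⟨a, b⟩ := Classical.not_imp.1 hs
      have a' : L.IsSection k fun j v => s₀ i z * s j v - s i z * s₀ j v :=
        ⟨fun j => ((a.1 j).const_mul _).sub ((a0.1 j).const_mul _), fun j l v hv u hu e => by
          simp only [a.2 j l v hv u hu e, a0.2 j l v hv u hu e]; ring⟩
      refine ⟨_, (a'.1 i).mono fun v hv => hv.1.1, fun v hv => ?_, fun c => b ?_⟩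
      · exact (ctl_van hR L k a' i hv.2.1.1).1 ((hv.1 _ a').2 ((hy _ a').1
          ((ctl_van hR L k a' i hz).2 (by ring))))
      · rw [← hy s a, ctl_van hR L k a i hw.1.1, ctl_van hR L k a i hz]
        have c' : s₀ i z * s i w = s i z * s₀ i w := sub_eq_zero.1 c
        have n : s₀ i w ≠ 0 := hw.2.2
        exact ⟨fun h => by simpa [h, n] using c'.symm, fun h => by simpa [h, b0] using c'⟩)
    z ⟨hy, ⟨hz, yU, hα⟩, hz, b0⟩
  have gW : ∀ᶠ u in 𝓝 t, g u ∈ W :=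
    g1.self_of_nhds.continuousAt.eventually_mem (hW.mem_nhds (g4 ▸ w2))
  refine ⟨α, d, fun u => B.z α (A.p i (g u)), t, A.p i w, ⟨w1, w2.1.2.2⟩, w2.1.2.1, ?_, ?_, ?_⟩
  · filter_upwards [g1, gW] with u a b using (B.hol α i _ b.1.1 b.1.2.2).1.comp u a
  · have b := B.hol α i _ gW.self_of_nhds.1.1 gW.self_of_nhds.1.2.2
    rw [show (fun u => B.z α (A.p i (g u))) = (fun v => B.z α (A.p i v)) ∘ g from rfl,
      fderiv_comp t b.1 g1.self_of_nhds]
    exact b.2.comp g2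
  · rw [nhdsWithin, ← ctl_map hR i w2.1.1, ← map_inf_principal_preimage, ← nhdsWithin, ← g3,
      map_map, map_map]
    rfl

theorem ctl_iso {n : ℕ} (hn : n ≠ 0) {B : Amb R A} {L : Line A}
    {Y : Type} [TopologicalSpace Y] {Z : Res L Y} (P : Over B Z) {S : Set X}
    (h : IsLagS P n S) {x : X} (hx : x ∈ S) : ∃ᶠ y in 𝓝[≠] x, y ∈ S := by
  by_contra hc
  obtain ⟨α, hα⟩ := B.cover x
  have e : 𝓝[S] x = pure x := by
    refine le_antisymm ?_ (pure_le_nhdsWithin hx)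
    rw [le_pure_iff]
    rw [not_frequently, eventually_nhdsWithin_iff] at hc
    filter_upwards [mem_nhdsWithin_of_mem_nhds hc, self_mem_nhdsWithin] with y h1 h2
    by_contra h3
    exact h1 h3 h2
  refine hn (h α 0 (fun _ => B.z α x) 0 x ⟨hx, hα⟩
    (Eventually.of_forall fun _ => differentiableAt_const _)
    (fun u v _ => Subsingleton.elim u v) ?_).1.symm
  rw [e, map_pure, Filter.map_const]

end Pool.Agent.Kum
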