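import Pool.Agent.P.MP_63735c_ag.Kum.G2

/-! An even holomorphic function off the origin of the plane descends to the quadric cone. -/

open scoped ComplexOrder ContDiff Matrix Topology
open Filter

namespace Pool.Agent.Kum

open Pool.Agent.SPF

theorem n2_cont (h : C(Circle × Circle, ℂ)) :
    Continuous fun p : ℝ × ℝ => h (Circle.exp p.1, Circle.exp p.2) := by fun_prop

theorem n2_in (h : C(Circle × Circle, ℂ)) (θ : ℝ) : IntervalIntegrable
    (fun φ => h (Circle.exp θ, Circle.exp φ)) MeasureTheory.volume 0 (2 * Real.pi) :=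
  Continuous.intervalIntegrable (by fun_prop) _ _

theorem n2_out (h : C(Circle × Circle, ℂ)) : IntervalIntegrable
    (fun θ => ∫ φ in (0 : ℝ)..2 * Real.pi, h (Circle.exp θ, Circle.exp φ))
    MeasureTheory.volume 0 (2 * Real.pi) :=
  (intervalIntegral.continuous_parametric_intervalIntegral_of_continuous'
    (f := fun θ φ => h (Circle.exp θ, Circle.exp φ)) (n2_cont h) _ _).intervalIntegrable _ _

/-- The integral over the torus. -/
noncomputable def n2_lin : C(Circle × Circle, ℂ) →ₗ[ℂ] ℂ where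
  toFun h := ∫ θ in (0 : ℝ)..2 * Real.pi, ∫ φ in (0 : ℝ)..2 * Real.pi,
    h (Circle.exp θ, Circle.exp φ)
  map_add' h k := by
    rw [← intervalIntegral.integral_add (n2_out h) (n2_out k)]
    refine intervalIntegral.integral_congr fun θ _ => ?_
    exact intervalIntegral.integral_add (n2_in h θ) (n2_in k θ)
  map_smul' c h := by
    simp only [ContinuousMap.smul_apply, intervalIntegral.integral_smul, RingHom.id_apply]

theorem n2_bound (h : C(Circle × Circle, ℂ)) :
    ‖n2_lin h‖ ≤ (|2 * Real.pi - 0| * |2 * Real.pi - 0|) * ‖h‖ := by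
  have h1 : ‖n2_lin h‖ ≤ (‖h‖ * |2 * Real.pi - 0|) * |2 * Real.pi - 0| :=
    intervalIntegral.norm_integral_le_of_norm_le_const fun θ _ =>
      intervalIntegral.norm_integral_le_of_norm_le_const fun φ _ => h.norm_coe_le_norm _
  exact h1.trans (le_of_eq (by ring))

/-- The integral over the torus as a continuous linear map. -/
noncomputable def n2_int : C(Circle × Circle, ℂ) →L[ℂ] ℂ := n2_lin.mkContinuous _ n2_bound

theorem n2_int_apply (h : C(Circle × Circle, ℂ)) : n2_int h =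
    ∫ θ in (0 : ℝ)..2 * Real.pi, ∫ φ in (0 : ℝ)..2 * Real.pi,
      h (Circle.exp θ, Circle.exp φ) := rfl

theorem n2_inv {f : C(Circle × Circle, ℂ)} (hf : ∀ t, f t ≠ 0) (t : Circle × Circle) :
    Ring.inverse f t = (f t)⁻¹ := by
  have h := Ring.mul_inverse_cancel f ((ContinuousMap.isUnit_iff_forall_ne_zero f).2 hf)
  exact eq_inv_of_mul_eq_one_right (congrArg (fun k : C(Circle × Circle, ℂ) => k t) h)

theorem n2_cauchy {r : ℝ} {f : ℂ → ℂ} (hf : DifferentiableOn ℂ f (Metric.closedBall 0 r)) {u : ℂ}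
    (hu : ‖u‖ < r) : ∫ θ in (0 : ℝ)..2 * Real.pi,
      (r * (Circle.exp θ : ℂ)) * (r * (Circle.exp θ : ℂ) - u)⁻¹ * f (r * (Circle.exp θ : ℂ)) =
      2 * Real.pi * f u := by
  have h := hf.circleIntegral_sub_inv_smul (w := u) (by simpa using hu)
  simp only [circleIntegral, deriv_circleMap, smul_eq_mul] at h
  have e : ∀ θ : ℝ, circleMap 0 r θ = r * (Circle.exp θ : ℂ) := fun θ => by
    simp [circleMap, Circle.coe_exp]
  simp only [e] at h
  refine mul_left_cancel₀ Complex.I_ne_zero ?_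
  rw [← intervalIntegral.integral_const_mul]
  refine (intervalIntegral.integral_congr fun θ _ => ?_).trans (h.trans (by ring))
  ring

/-- First coordinate on the torus of radius `r`. -/
noncomputable def n2_a (r : ℝ) : C(Circle × Circle, ℂ) := ⟨fun t => r * (t.1 : ℂ), by fun_prop⟩

/-- Second coordinate on the torus of radius `r`. -/
noncomputable def n2_b (r : ℝ) : C(Circle × Circle, ℂ) := ⟨fun t => r * (t.2 : ℂ), by fun_prop⟩

theorem n2_norm {r : ℝ} (hr : 0 < r) (c : Circle) : ‖(r : ℂ) * (c : ℂ)‖ = r := by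
  rw [norm_mul, Circle.norm_coe, mul_one, Complex.norm_real, Real.norm_of_nonneg hr.le]

theorem n2_ne {r : ℝ} (hr : 0 < r) (c : Circle) {u : ℂ} (hu : ‖u‖ < r) :
    (r : ℂ) * (c : ℂ) - u ≠ 0 := fun h => by
  rw [← sub_eq_zero.1 h, n2_norm hr] at hu
  exact lt_irrefl _ hu

theorem n2_ne2 {r : ℝ} (hr : 0 < r) (c : Circle) {u : ℂ} (hu : ‖u‖ < r ^ 2) :
    ((r : ℂ) * (c : ℂ)) ^ 2 - u ≠ 0 := fun h => by
  rw [← sub_eq_zero.1 h, norm_pow, n2_norm hr] at hu
  exact lt_irrefl _ hu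

theorem n2_mem {δ : ℝ} (hδ : 0 < δ) {u v : ℂ} (hu : ‖u‖ < δ) (hv : ‖v‖ < δ) (h : u ≠ 0 ∨ v ≠ 0) :
    (![u, v] : E 2) ∈ Metric.ball (0 : E 2) δ \ {0} := by
  refine ⟨?_, fun e => ?_⟩
  · rw [mem_ball_zero_iff, pi_norm_lt_iff hδ]
    intro i
    fin_cases i
    exacts [hu, hv]
  · have e' : (![u, v] : E 2) = 0 := e
    exact h.elim (fun k => k (congrFun e' 0)) fun k => k (congrFun e' 1)

theorem n2_d1 (v : ℂ) : Differentiable ℂ fun u : ℂ => (![u, v] : E 2) :=
  differentiable_pi.2 fun i => by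
    fin_cases i
    exacts [differentiable_id, differentiable_const v]

theorem n2_d2 (u : ℂ) : Differentiable ℂ fun v : ℂ => (![u, v] : E 2) :=
  differentiable_pi.2 fun i => by
    fin_cases i
    exacts [differentiable_const u, differentiable_id]

/-- The Cauchy formula on the torus, for points off the first axis. -/
theorem n2_torus {δ r : ℝ} (hr : 0 < r) (hδ : r < δ) {g : E 2 → ℂ}
    (hg : DifferentiableOn ℂ g (Metric.ball 0 δ \ {0})) {G : C(Circle × Circle, ℂ)}
    (hG : ∀ t, G t = g ![n2_a r t, n2_b r t]) {u v : ℂ} (hu : ‖u‖ < r) (hv : ‖v‖ < r)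
    (h0 : v ≠ 0) {h : C(Circle × Circle, ℂ)}
    (hh : ∀ t, h t = G t * n2_a r t * n2_b r t * ((n2_a r t - u) * (n2_b r t - v))⁻¹) :
    n2_int h = 2 * Real.pi * (2 * Real.pi * g ![u, v]) := by
  have hc : ∀ c : Circle, (r : ℂ) * (c : ℂ) ≠ 0 := fun c e => by
    have := n2_norm hr c
    rw [e, norm_zero] at this
    exact hr.ne this
  have k1 : DifferentiableOn ℂ (fun s : ℂ => 2 * Real.pi * g ![s, v]) (Metric.closedBall 0 r) :=
    (hg.comp (n2_d1 v).differentiableOn fun s hs => n2_mem (hr.trans hδ)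
      ((mem_closedBall_zero_iff.1 hs).trans_lt hδ) (hv.trans hδ) (Or.inr h0)).const_mul _
  have k2 : ∀ c : Circle, DifferentiableOn ℂ (fun s : ℂ => g ![r * (c : ℂ), s])
      (Metric.closedBall 0 r) := fun c =>
    hg.comp (n2_d2 _).differentiableOn fun s hs => n2_mem (hr.trans hδ)
      ((n2_norm hr c).trans_lt hδ) ((mem_closedBall_zero_iff.1 hs).trans_lt hδ) (Or.inl (hc c))
  rw [n2_int_apply]
  refine Eq.trans (intervalIntegral.integral_congr fun θ _ => ?_) (n2_cauchy k1 hu)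
  rw [← n2_cauchy (k2 (Circle.exp θ)) hv, ← intervalIntegral.integral_const_mul]
  refine intervalIntegral.integral_congr fun φ _ => ?_
  simp only [hh, hG, n2_a, n2_b, ContinuousMap.coe_mk, mul_inv]
  ring

theorem even_descent {δ : ℝ} (hδ : 0 < δ) {g : E 2 → ℂ}
    (hg : DifferentiableOn ℂ g (Metric.ball 0 δ \ {0}))
    (he : ∀ b ∈ Metric.ball (0 : E 2) δ, g (-b) = g b) :
    ∃ F : E 3 → ℂ, (∀ᶠ w in 𝓝 (0 : E 3), DifferentiableAt ℂ F w) ∧
      ∀ᶠ b in 𝓝 (0 : E 2), b ≠ 0 → g b = F (quad b) := by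
  obtain ⟨r, hr, hrδ⟩ : ∃ r : ℝ, 0 < r ∧ r < δ := ⟨δ / 2, by linarith, by linarith⟩
  have hc : ∀ c : Circle, (r : ℂ) * (c : ℂ) ≠ 0 := fun c e => by
    have := n2_norm hr c
    rw [e, norm_zero] at this
    exact hr.ne this
  have hm : ∀ t, (![n2_a r t, n2_b r t] : E 2) ∈ Metric.ball (0 : E 2) δ \ {0} := fun t =>
    n2_mem hδ ((n2_norm hr t.1).trans_lt hrδ) ((n2_norm hr t.2).trans_lt hrδ) (Or.inl (hc t.1))
  have hp : Continuous fun t => (![n2_a r t, n2_b r t] : E 2) := continuous_pi fun i => by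
    fin_cases i
    exacts [(n2_a r).continuous, (n2_b r).continuous]
  obtain ⟨G, hG⟩ : ∃ G : C(Circle × Circle, ℂ), ∀ t, G t = g ![n2_a r t, n2_b r t] :=
    ⟨⟨fun t => g ![n2_a r t, n2_b r t], hg.continuousOn.comp_continuous hp hm⟩, fun _ => rfl⟩
  obtain ⟨D, hD⟩ : ∃ D : E 3 → C(Circle × Circle, ℂ), D = fun w =>
      (n2_a r ^ 2 - w 0 • (1 : C(Circle × Circle, ℂ))) *
        (n2_b r ^ 2 - w 2 • (1 : C(Circle × Circle, ℂ))) := ⟨_, rfl⟩
  have hD1 : ∀ w t, D w t = (n2_a r t ^ 2 - w 0) * (n2_b r t ^ 2 - w 2) := fun w t => by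
    simp [hD]
  have hD2 : ∀ w : E 3, ‖w 0‖ < r ^ 2 → ‖w 2‖ < r ^ 2 → ∀ t, D w t ≠ 0 := fun w h0 h2 t => by
    rw [hD1]
    exact mul_ne_zero (n2_ne2 hr t.1 h0) (n2_ne2 hr t.2 h2)
  have hs : ∀ i : Fin 3, Differentiable ℂ fun w : E 3 => w i • (1 : C(Circle × Circle, ℂ)) :=
    fun i => (differentiable_apply i).smul_const _
  have hD3 : Differentiable ℂ D := by
    rw [hD]
    exact ((hs 0).const_sub _).mul ((hs 2).const_sub _)
  obtain ⟨H, hH⟩ : ∃ H : E 3 → C(Circle × Circle, ℂ), H = fun w => G * n2_a r * n2_b r *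
      ((n2_a r * n2_b r + w 1 • (1 : C(Circle × Circle, ℂ))) * Ring.inverse (D w)) := ⟨_, rfl⟩
  obtain ⟨F, hF⟩ : ∃ F : E 3 → ℂ, F = fun w =>
      (2 * Real.pi * (2 * Real.pi) : ℂ)⁻¹ * n2_int (H w) := ⟨_, rfl⟩
  have hFd : ∀ w : E 3, ‖w 0‖ < r ^ 2 → ‖w 2‖ < r ^ 2 → DifferentiableAt ℂ F w := by
    intro w h0 h2
    have k : DifferentiableAt ℂ H w := by
      rw [hH]
      exact (((hs 1 w).const_add _).mul ((hD3 w).inverse
        ((ContinuousMap.isUnit_iff_forall_ne_zero _).2 (hD2 w h0 h2)))).const_mul _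
    rw [hF]
    exact (n2_int.differentiableAt.comp w k).const_mul _
  have hq : ∀ {u : ℂ}, ‖u‖ < r → ‖u ^ 2‖ < r ^ 2 := fun {u} hu => by
    rw [norm_pow]
    exact pow_lt_pow_left₀ hu (norm_nonneg u) two_ne_zero
  have main : ∀ u v : ℂ, ‖u‖ < r → ‖v‖ < r → v ≠ 0 → g ![u, v] = F (quad ![u, v]) := by
    intro u v hu hv h0
    have ex : ∀ u v : ℂ, ‖u‖ < r → ‖v‖ < r → ∃ h : C(Circle × Circle, ℂ), ∀ t, h t =
        G t * n2_a r t * n2_b r t * ((n2_a r t - u) * (n2_b r t - v))⁻¹ := fun u v hu hv =>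
      ⟨⟨_, ((G.continuous.mul (n2_a r).continuous).mul (n2_b r).continuous).mul
        ((((n2_a r).continuous.sub continuous_const).mul
          ((n2_b r).continuous.sub continuous_const)).inv₀ fun t =>
            mul_ne_zero (n2_ne hr t.1 hu) (n2_ne hr t.2 hv))⟩, fun _ => rfl⟩
    have hu' : ‖-u‖ < r := by rwa [norm_neg]
    have hv' : ‖-v‖ < r := by rwa [norm_neg]
    obtain ⟨h1, e1⟩ := ex u v hu hv
    obtain ⟨h2, e2⟩ := ex (-u) (-v) hu' hv'
    have i1 := n2_torus hr hrδ hg hG hu hv h0 e1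
    have i2 := n2_torus hr hrδ hg hG hu' hv' (neg_ne_zero.2 h0) e2
    have ev : g ![-u, -v] = g ![u, v] := by
      rw [← he _ (n2_mem hδ (hu.trans hrδ) (hv.trans hrδ) (Or.inr h0)).1]
      congr 1
      funext i
      fin_cases i <;> rfl
    have sum : h1 + h2 = (2 : ℂ) • H (quad ![u, v]) := by
      ext t
      have a1 : n2_a r t - u ≠ 0 := n2_ne hr t.1 hu
      have a2 : n2_b r t - v ≠ 0 := n2_ne hr t.2 hv
      have a3 : n2_a r t - -u ≠ 0 := n2_ne hr t.1 hu'
      have a4 : n2_b r t - -v ≠ 0 := n2_ne hr t.2 hv'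
      have a5 : D (quad ![u, v]) t = ((n2_a r t - u) * (n2_b r t - v)) *
          ((n2_a r t - -u) * (n2_b r t - -v)) := by
        rw [hD1]
        show (n2_a r t ^ 2 - u ^ 2) * (n2_b r t ^ 2 - v ^ 2) = _
        ring
      have a6 : quad ![u, v] 1 = u * v := rfl
      simp only [hH, ContinuousMap.add_apply, ContinuousMap.smul_apply, ContinuousMap.mul_apply,
        ContinuousMap.one_apply, smul_eq_mul, e1, e2]
      rw [n2_inv (hD2 (quad ![u, v]) (hq hu) (hq hv)), a5, a6]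
      field_simp
      ring
    have i3 := congrArg n2_int sum
    rw [map_add, map_smul, i1, i2, ev, smul_eq_mul] at i3
    have hπ : (2 * Real.pi * (2 * Real.pi) : ℂ) ≠ 0 := by
      have : (Real.pi : ℂ) ≠ 0 := Complex.ofReal_ne_zero.2 Real.pi_ne_zero
      exact mul_ne_zero (mul_ne_zero two_ne_zero this) (mul_ne_zero two_ne_zero this)
    rw [hF]
    refine (eq_inv_mul_iff_mul_eq₀ hπ).2 ?_
    linear_combination i3 / 2
  refine ⟨F, ?_, ?_⟩
  · filter_upwards [Metric.ball_mem_nhds (0 : E 3) (pow_pos hr 2)] with w hw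
    rw [mem_ball_zero_iff, pi_norm_lt_iff (pow_pos hr 2)] at hw
    exact hFd w (hw 0) (hw 2)
  · filter_upwards [Metric.ball_mem_nhds (0 : E 2) hr] with b hb h0
    rw [mem_ball_zero_iff, pi_norm_lt_iff hr] at hb
    obtain ⟨u, v, rfl⟩ : ∃ u v, b = ![u, v] := ⟨b 0, b 1, by funext i; fin_cases i <;> rfl⟩
    have hu : ‖u‖ < r := hb 0
    have hv : ‖v‖ < r := hb 1
    by_cases h1 : v = 0
    swap
    · exact main u v hu hv h1
    subst h1
    have hu0 : u ≠ 0 := fun e => h0 (by funext i; fin_cases i <;> simp [e])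
    have ho : IsOpen (Metric.ball (0 : E 2) δ \ {0}) := Metric.isOpen_ball.sdiff isClosed_singleton
    have c1 : ContinuousAt (fun s : ℂ => g ![u, s]) 0 :=
      ContinuousAt.comp (f := fun s : ℂ => (![u, s] : E 2)) (hg.continuousOn.continuousAt
        (ho.mem_nhds (n2_mem hδ (hu.trans hrδ) (hv.trans hrδ) (Or.inl hu0))))
        (n2_d2 u).continuous.continuousAt
    have cq : Continuous fun s : ℂ => quad ![u, s] := continuous_pi fun i => by
      fin_cases i
      · exact (continuous_const : Continuous fun _ : ℂ => u ^ 2)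
      · exact (continuous_const.mul continuous_id : Continuous fun s : ℂ => u * s)
      · exact (continuous_id.pow 2 : Continuous fun s : ℂ => s ^ 2)
    have c2 : ContinuousAt (fun s : ℂ => F (quad ![u, s])) 0 :=
      ContinuousAt.comp (f := fun s : ℂ => quad ![u, s])
        (hFd _ (hq hu) (hq hv)).continuousAt cq.continuousAt
    refine tendsto_nhds_unique_of_eventuallyEq (l := 𝓝[≠] (0 : ℂ))
      (c1.tendsto.mono_left nhdsWithin_le_nhds) (c2.tendsto.mono_left nhdsWithin_le_nhds) ?_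
    filter_upwards [self_mem_nhdsWithin,
      nhdsWithin_le_nhds (Metric.ball_mem_nhds (0 : ℂ) hr)] with s s0 hs'
    exact main u s hu (mem_ball_zero_iff.1 hs') s0

end Pool.Agent.Kum
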