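import Pool.Agent.P.MP_63735c_ag.Kum.G

/-! The gluing relation of the Kummer surface. -/

open scoped ComplexOrder ContDiff Matrix Topology
open Filter

namespace Pool.Agent.Kum

open Pool.Agent.SPF

/-- Classes of lattice points modulo two. -/
abbrev Cl : Type := Fin 2 → ZMod 2 × ZMod 2

/-- The class of a lattice point. -/
def cls (μ : Fin 2 → GaussianInt) : Cl := fun k => (((μ k).re : ZMod 2), ((μ k).im : ZMod 2))

/-- The chart indices. -/
abbrev Ix : Type := Cl × Fin 2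

theorem emb_add (μ ν : Fin 2 → GaussianInt) : emb (μ + ν) = emb μ + emb ν := by
  ext k; simp [emb]

theorem emb_neg (μ : Fin 2 → GaussianInt) : emb (-μ) = -emb μ := by
  ext k; simp [emb]

theorem emb_zero : emb 0 = 0 := by
  ext k; simp [emb]

theorem cls_add (μ ν : Fin 2 → GaussianInt) : cls (μ + ν) = cls μ + cls ν := by
  ext k <;> simp [cls]

theorem cl_self (P : Cl) : P + P = 0 := by
  ext k <;> simp [CharTwo.add_self_eq_zero]

theorem cls_zero : cls 0 = 0 := by
  ext k <;> simp [cls]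

theorem cls_neg (μ : Fin 2 → GaussianInt) : cls (-μ) = cls μ := by
  ext k <;> simp [cls]

theorem cls_surj (P : Cl) : ∃ μ, cls μ = P :=
  ⟨fun k => ⟨((P k).1.val : ℤ), ((P k).2.val : ℤ)⟩, by ext k <;> simp [cls]⟩

theorem gi_re (m : GaussianInt) : |(m.re : ℝ)| ≤ ‖(m : ℂ)‖ := by
  rw [GaussianInt.intCast_re]; exact Complex.abs_re_le_norm _

theorem gi_im (m : GaussianInt) : |(m.im : ℝ)| ≤ ‖(m : ℂ)‖ := by
  rw [GaussianInt.intCast_im]; exact Complex.abs_im_le_norm _

theorem gi_small {m : GaussianInt} (h : ‖(m : ℂ)‖ < 1) : m = 0 := by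
  have h1 : |m.re| < 1 := by exact_mod_cast (gi_re m).trans_lt h
  have h2 : |m.im| < 1 := by exact_mod_cast (gi_im m).trans_lt h
  ext <;> simp [Int.abs_lt_one_iff.1 h1, Int.abs_lt_one_iff.1 h2]

theorem int_even {n : ℤ} (h0 : (n : ZMod 2) = 0) (h : |n| < 2) : n = 0 := by
  have := (ZMod.intCast_zmod_eq_zero_iff_dvd n 2).1 h0
  rw [abs_lt] at h
  omega

theorem even_small {ν : Fin 2 → GaussianInt} (h0 : cls ν = 0) (h : ∀ k, ‖emb ν k‖ < 2) : ν = 0 := by
  funext k
  have h1 : |(ν k).re| < 2 := by exact_mod_cast (gi_re (ν k)).trans_lt (h k)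
  have h2 : |(ν k).im| < 2 := by exact_mod_cast (gi_im (ν k)).trans_lt (h k)
  have e := congrFun h0 k
  have e1 : (((ν k).re : ℤ) : ZMod 2) = 0 := congrArg Prod.fst e
  have e2 : (((ν k).im : ℤ) : ZMod 2) = 0 := congrArg Prod.snd e
  ext <;> simp [int_even e1 h1, int_even e2 h2]

theorem all_small {ν : Fin 2 → GaussianInt} (h : ∀ k, ‖emb ν k‖ < 1) : ν = 0 :=
  funext fun k => gi_small (h k)

theorem fin2 (t k : Fin 2) : k = t ∨ k = t.rev := by revert t k; decide

theorem rev_ne (t : Fin 2) : t.rev ≠ t := by revert t; decide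

theorem ext2 (t : Fin 2) {a b : E 2} (h1 : a t = b t) (h2 : a t.rev = b t.rev) : a = b := by
  funext k; rcases fin2 t k with rfl | rfl <;> assumption

variable {t t' : Fin 2} {z y b b' : E 2}

theorem Rep.neg (h : Rep t z b) : Rep t z (-b) :=
  ⟨by simpa using h.1, by simp [h.2]⟩

theorem exists_rep (t : Fin 2) (z : E 2) : ∃ b, Rep t z b := by
  obtain ⟨r, hr⟩ := IsAlgClosed.exists_pow_nat_eq (z t) (n := 2) (by norm_num)
  exact ⟨fun k => if k = t then r else r * z k, by simpa using hr, by simp [rev_ne]⟩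

theorem Rep.uniq (h : Rep t z b) (h' : Rep t z b') : b' = b ∨ b' = -b := by
  rcases sq_eq_sq_iff_eq_or_eq_neg.1 (h'.1.trans h.1.symm) with e | e
  · exact Or.inl (ext2 t e (by rw [h.2, h'.2, e]))
  · exact Or.inr (ext2 t (by simpa using e) (by simp [h.2, h'.2, e]))

theorem Rep.zero_iff (h : Rep t z b) : z t = 0 ↔ b = 0 := by
  constructor
  · intro e
    have : b t = 0 := by simpa [e] using h.1
    exact ext2 t this (by simp [h.2, this])
  · rintro rfl
    simpa using h.1.symm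

theorem Rep.ne (h : Rep t z b) (h0 : z t ≠ 0) : b t ≠ 0 := fun e => h0 (by simp [← h.1, e])

theorem Rep.mem_iff (h : Rep t z b) : z ∈ WW t ↔ ∀ k, ‖b k‖ < 4 / 5 := by
  have e2 : z t * z t.rev ^ 2 = b t.rev ^ 2 := by rw [h.2, ← h.1]; ring
  have sq : ∀ u : ℂ, ‖u ^ 2‖ < 16 / 25 ↔ ‖u‖ < 4 / 5 := fun u => by
    rw [norm_pow, show (16 / 25 : ℝ) = (4 / 5) ^ 2 by norm_num,
      sq_lt_sq₀ (norm_nonneg _) (by norm_num)]
  simp only [WW, Set.mem_ofPred_eq, e2]
  rw [← h.1, sq, sq]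
  exact ⟨fun e k => by rcases fin2 t k with rfl | rfl; exacts [e.1, e.2], fun e => ⟨e _, e _⟩⟩

theorem rep_cc (h : b t ≠ 0) : Rep t (cc t b) b :=
  ⟨by simp [cc], by simp only [cc, rev_ne, if_false]; field_simp⟩

theorem Rep.eq_cc (h : Rep t z b) (h0 : z t ≠ 0) : cc t b = z := by
  refine ext2 t (by simp [cc, h.1]) ?_
  have := h.ne h0
  simp only [cc, rev_ne, if_false, h.2]; field_simp

theorem isOpen_WW (t : Fin 2) : IsOpen (WW t) := by
  have h1 : IsOpen {z : E 2 | ‖z t‖ < 16 / 25} := isOpen_lt (by fun_prop) continuous_const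
  have h2 : IsOpen {z : E 2 | ‖z t * z t.rev ^ 2‖ < 16 / 25} :=
    isOpen_lt (by fun_prop) continuous_const
  exact h1.inter h2

/-- The invariant of a point of a chart: its orbit and, on the exceptional curve, its direction. -/
def inv (i : Ix) (z : E 2) : Set (E 2) × Set (E 2) :=
  ({a | ∃ b μ, Rep i.2 z b ∧ cls μ = i.1 ∧ a = b + emb μ},
    {d | z i.2 = 0 → d i.2.rev = d i.2 * z i.2.rev})

/-- Equal slopes. -/
def Dir (t t' : Fin 2) (z y : E 2) : Prop :=
  (t = t' → z t.rev = y t'.rev) ∧ (t ≠ t' → z t.rev * y t'.rev = 1)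

/-- Flat points over `z` and `y` that differ by a lattice point of the right class. -/
def Lk (i j : Ix) (z y b : E 2) (ν : Fin 2 → GaussianInt) : Prop :=
  cls ν = i.1 + j.1 ∧ Rep i.2 z b ∧ Rep j.2 y (b + emb ν)

/-- The gluing relation. -/
def Rl (i j : Ix) (z y : E 2) : Prop :=
  (∃ b ν, Lk i j z y b ν) ∧ (i.1 = j.1 → Dir i.2 j.2 z y)

variable {i j : Ix} {ν ν' : Fin 2 → GaussianInt}

theorem Lk.lt (h : Lk i j z y b ν) (hz : z ∈ WW i.2) (hy : y ∈ WW j.2) (k : Fin 2) :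
    ‖emb ν k‖ < 2 := by
  have h1 := h.2.1.mem_iff.1 hz k
  have h2 := h.2.2.mem_iff.1 hy k
  have : emb ν k = (b + emb ν) k - b k := by simp
  rw [this]
  linarith [norm_sub_le ((b + emb ν) k) (b k)]

theorem Lk.same (h : Lk i j z y b ν) (hz : z ∈ WW i.2) (hy : y ∈ WW j.2) (e : i.1 = j.1) :
    ν = 0 := even_small (by rw [h.1, e, cl_self]) (h.lt hz hy)

theorem Lk.of_zero (h : Lk i j z y b ν) (e : ν = 0) : i.1 = j.1 := by
  have := h.1
  rw [e, cls_zero] at this
  calc i.1 = i.1 + (j.1 + j.1) := by rw [cl_self, add_zero]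
    _ = j.1 := by rw [← add_assoc, ← this, zero_add]

theorem Lk.symm (h : Lk i j z y b ν) : Lk j i y z (b + emb ν) (-ν) :=
  ⟨by rw [cls_neg, h.1, add_comm], h.2.2, by simpa [emb_neg] using h.2.1⟩

theorem Lk.neg (h : Lk i j z y b ν) : Lk i j z y (-b) (-ν) :=
  ⟨by rw [cls_neg, h.1], h.2.1.neg, by simpa [emb_neg, add_comm] using h.2.2.neg⟩

theorem Lk.node (h : Lk i j z y b ν) (hy : y ∈ WW j.2) (e : z i.2 = 0) :
    b = 0 ∧ ν = 0 ∧ y j.2 = 0 := by
  have hb := h.2.1.zero_iff.1 e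
  have hν : ν = 0 := all_small fun k => by
    have := h.2.2.mem_iff.1 hy k
    simp only [hb, zero_add] at this
    linarith
  exact ⟨hb, hν, h.2.2.zero_iff.2 (by simp [hb, hν, emb_zero])⟩

theorem Lk.big (h : Lk i j z y b ν) (hz : z ∈ WW i.2) (hy : y ∈ WW j.2) {k : Fin 2}
    (e : ν k ≠ 0) : 1 / 5 < ‖b k‖ ∧ 1 / 5 < ‖(b + emb ν) k‖ := by
  have h1 := h.2.1.mem_iff.1 hz k
  have h2 := h.2.2.mem_iff.1 hy k
  have h3 : 1 ≤ ‖emb ν k‖ := not_lt.1 fun c => e (gi_small c)
  have : emb ν k = (b + emb ν) k - b k := by simp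
  rw [this] at h3
  constructor <;> linarith [norm_sub_le ((b + emb ν) k) (b k)]

theorem Lk.rl (h : Lk i j z y b ν) (hz : z ∈ WW i.2) (hy : y ∈ WW j.2) (h0 : z i.2 ≠ 0) :
    Rl i j z y := by
  refine ⟨⟨b, ν, h⟩, fun e => ?_⟩
  have hν := h.same hz hy e
  have r1 := h.2.1
  have r2 : Rep j.2 y b := by simpa [hν, emb_zero] using h.2.2
  have n1 := r1.ne h0
  constructor
  · intro et
    have := r2.2
    rw [← et, r1.2] at this
    rw [← et]
    exact mul_left_cancel₀ n1 this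
  · intro et
    have e2 : j.2 = i.2.rev := (fin2 i.2 j.2).resolve_left fun c => et c.symm
    have := r2.2
    rw [e2, Fin.rev_rev, r1.2] at this
    rw [e2, Fin.rev_rev]
    exact mul_left_cancel₀ n1 (by rw [← mul_assoc, ← this, mul_one])

theorem Lk.uniq (h : Lk i j z y b ν) (h' : Lk i j z y b' ν') (hz : z ∈ WW i.2)
    (hy : y ∈ WW j.2) : (b' = b ∧ ν' = ν) ∨ (b' = -b ∧ ν' = -ν) := by
  have inj : ∀ μ μ', emb μ = emb μ' → μ = μ' := fun μ μ' e =>
    funext fun k => GaussianInt.toComplex_inj.1 (congrFun e k)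
  have main : ∀ ν' : Fin 2 → GaussianInt, Lk i j z y b ν' → ν' = ν := by
    intro ν' h'
    rcases h.2.2.uniq h'.2.2 with e | e
    · exact inj _ _ (add_left_cancel e)
    · have e2 : emb (ν + ν') = -(b + b) := by rw [emb_add]; linear_combination e
      have e3 : ν + ν' = 0 := by
        refine even_small (by rw [cls_add, h.1, h'.1, cl_self]) fun k => ?_
        have := h.2.1.mem_iff.1 hz k
        rw [e2, Pi.neg_apply, norm_neg, Pi.add_apply]
        linarith [norm_add_le (b k) (b k)]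
      have e4 : b = 0 := by
        rw [e3, emb_zero] at e2
        funext k
        have := congrFun e2 k
        simp only [Pi.zero_apply, Pi.neg_apply, Pi.add_apply] at this ⊢
        linear_combination this / 2
      have z0 := h.2.1.zero_iff.2 e4
      rw [(h.node hy z0).2.1, (h'.node hy z0).2.1]
  rcases h.2.1.uniq h'.2.1 with e | e
  · exact Or.inl ⟨e, main _ (e ▸ h')⟩
  · refine Or.inr ⟨e, ?_⟩
    have := main _ (by simpa [e] using h'.neg)
    rw [← this, neg_neg]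

theorem orb_sub (h : Lk i j z y b ν) : (inv i z).1 ⊆ (inv j y).1 := by
  rintro a ⟨b₁, μ, r, c, rfl⟩
  have hc : ∀ ν : Fin 2 → GaussianInt, cls ν = i.1 + j.1 → cls (μ + -ν) = j.1 := fun ν e => by
    rw [cls_add, cls_neg, c, e, ← add_assoc, cl_self, zero_add]
  rcases h.2.1.uniq r with rfl | rfl
  · exact ⟨_, μ + -ν, h.2.2, hc _ h.1, by rw [emb_add, emb_neg]; abel⟩
  · exact ⟨_, μ + - -ν, h.neg.2.2, hc _ h.neg.1, by simp only [emb_add, emb_neg]; abel⟩

theorem key (hz : z ∈ WW i.2) (hy : y ∈ WW j.2) : inv i z = inv j y ↔ Rl i j z y := by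
  constructor
  · intro e
    obtain ⟨b, r⟩ := exists_rep i.2 z
    obtain ⟨μ, c⟩ := cls_surj i.1
    have m : b + emb μ ∈ (inv i z).1 := ⟨b, μ, r, c, rfl⟩
    rw [e] at m
    obtain ⟨b', μ', r', c', e'⟩ := m
    have lk : Lk i j z y b (μ + -μ') := by
      refine ⟨by rw [cls_add, cls_neg, c, c'], r, ?_⟩
      have : b + emb (μ + -μ') = b' := by rw [emb_add, emb_neg]; linear_combination e'
      rwa [this]
    by_cases h0 : z i.2 = 0
    · refine ⟨⟨_, _, lk⟩, fun _ => ?_⟩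
      have y0 := (lk.node hy h0).2.2
      have m2 : (fun k => if k = i.2 then 1 else z k) ∈ (inv i z).2 := fun _ => by simp [rev_ne]
      rw [e] at m2
      have m3 := m2 y0
      constructor
      · intro et
        rw [← et] at m3 ⊢
        simpa [rev_ne] using m3
      · intro et
        have e2 : j.2 = i.2.rev := (fin2 i.2 j.2).resolve_left fun c => et c.symm
        rw [e2] at m3 ⊢
        simpa [rev_ne] using m3.symm
    · exact lk.rl hz hy h0
  · rintro ⟨⟨b, ν, lk⟩, hd⟩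
    refine Prod.ext ((orb_sub lk).antisymm (orb_sub lk.symm)) ?_
    ext d
    simp only [inv, Set.mem_ofPred_eq]
    by_cases h0 : z i.2 = 0
    · obtain ⟨-, hν, y0⟩ := lk.node hy h0
      have D := hd (lk.of_zero hν)
      simp only [h0, y0, forall_true_left]
      by_cases et : i.2 = j.2
      · rw [D.1 et, et]
      · have e2 : j.2 = i.2.rev := (fin2 i.2 j.2).resolve_left fun c => et c.symm
        have D2 := D.2 et
        rw [e2] at D2 ⊢
        rw [Fin.rev_rev] at D2 ⊢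
        constructor
        · intro e; rw [e, mul_assoc, D2, mul_one]
        · intro e; rw [e, mul_assoc, mul_comm (y i.2), D2, mul_one]
    · have y0 : y j.2 ≠ 0 := fun c => h0 (lk.symm.node hz c).2.2
      simp [h0, y0]

theorem Rl.inj (h : Rl i i z y) (hz : z ∈ WW i.2) (hy : y ∈ WW i.2) : z = y := by
  obtain ⟨⟨b, ν, lk⟩, hd⟩ := h
  have r2 : Rep i.2 y b := by simpa [lk.same hz hy rfl, emb_zero] using lk.2.2
  exact ext2 i.2 (lk.2.1.1.symm.trans r2.1) ((hd rfl).1 rfl)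

/-- The surface. -/
abbrev XX : Type := Quotient (Setoid.ker fun x : (Σ i : Ix, WW i.2) => inv x.1 x.2)

theorem zero_mem_WW (t : Fin 2) : (0 : E 2) ∈ WW t := by simp [WW]

open Classical in
/-- The charts. -/
noncomputable def pp (i : Ix) (z : E 2) : XX :=
  if h : z ∈ WW i.2 then Quotient.mk _ ⟨i, z, h⟩ else Quotient.mk _ ⟨i, 0, zero_mem_WW _⟩

theorem pp_mk (hz : z ∈ WW i.2) : pp i z = Quotient.mk _ ⟨i, z, hz⟩ := dif_pos hz

theorem pp_eq (hz : z ∈ WW i.2) (hy : y ∈ WW j.2) : pp i z = pp j y ↔ Rl i j z y := by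
  rw [pp_mk hz, pp_mk hy, Quotient.eq, ← key hz hy]
  rfl

theorem pp_cont (i : Ix) : ContinuousOn (pp i) (WW i.2) := by
  rw [continuousOn_iff_continuous_domRestrict]
  have : (WW i.2).domRestrict (pp i) = fun w => Quotient.mk _ ⟨i, w⟩ := funext fun w => pp_mk w.2
  rw [this]
  exact continuous_quotient_mk'.comp continuous_sigmaMk

theorem pp_inj (i : Ix) : Set.InjOn (pp i) (WW i.2) := fun _ hz _ hy e =>
  ((pp_eq hz hy).1 e).inj hz hy

theorem pp_cover (x : XX) : ∃ i, ∃ z ∈ WW i.2, pp i z = x := by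
  obtain ⟨⟨i, z, hz⟩, rfl⟩ := Quotient.exists_rep x
  exact ⟨i, z, hz, pp_mk hz⟩

end Pool.Agent.Kum
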