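import Pool.Agent.P.MP_63735c_ag.Kum.G2

/-! Topology of the nodal Kummer surface and of the contraction. -/

open scoped ComplexOrder ContDiff Matrix Topology
open Filter

namespace Pool.Agent.Kum

open Pool.Agent.SPF

theorem s2_cont : Continuous pr := continuous_quotient_mk'

theorem s2_surj : Function.Surjective pr := fun x => Quotient.exists_rep x

theorem pr_open : IsOpenQuotientMap pr := by
  refine ⟨s2_surj, s2_cont, fun U hU => ?_⟩
  have q : Topology.IsQuotientMap pr := isQuotientMap_quotient_mk'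
  rw [← q.isOpen_preimage, isOpen_iff_mem_nhds]
  rintro a ⟨u, hu, e⟩
  obtain ⟨ν, c, rfl | rfl⟩ := pr_eq.1 e.symm
  · have h : ContinuousAt (fun w : E 2 => w + emb ν) a := by fun_prop
    filter_upwards [h.eventually (hU.mem_nhds hu)] with w hw
    exact ⟨_, hw, (pr_eq.2 ⟨ν, c, Or.inl rfl⟩).symm⟩
  · have h : ContinuousAt (fun w : E 2 => -w + emb ν) a := by fun_prop
    filter_upwards [h.eventually (hU.mem_nhds hu)] with w hw
    exact ⟨_, hw, (pr_eq.2 ⟨ν, c, Or.inr rfl⟩).symm⟩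

theorem s2_even {ν : Fin 2 → GaussianInt} (h : cls ν = 0) : ∃ μ, ν = μ + μ := by
  have e1 : ∀ k, (2 : ℤ) ∣ (ν k).re := fun k =>
    (ZMod.intCast_zmod_eq_zero_iff_dvd _ 2).1 (congrArg Prod.fst (congrFun h k))
  have e2 : ∀ k, (2 : ℤ) ∣ (ν k).im := fun k =>
    (ZMod.intCast_zmod_eq_zero_iff_dvd _ 2).1 (congrArg Prod.snd (congrFun h k))
  choose p hp using e1
  choose q hq using e2
  refine ⟨fun k => ⟨p k, q k⟩, funext fun k => Zsqrtd.ext ?_ ?_⟩
  · simp [hp k, two_mul]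
  · simp [hq k, two_mul]

theorem s2_two (μ : Fin 2 → GaussianInt) : emb (μ + μ) = (2 : ℂ) • emb μ := by
  rw [emb_add, two_smul]

theorem s2_lat : IsClosed {a : E 2 | ∃ ν, cls ν = 0 ∧ a = emb ν} := by
  have e : {a : E 2 | ∃ ν, cls ν = 0 ∧ a = emb ν} = (fun a : E 2 => (2⁻¹ : ℂ) • a) ⁻¹' DDᶜ := by
    ext a
    constructor
    · rintro ⟨ν, c, rfl⟩ h
      obtain ⟨μ, rfl⟩ := s2_even c
      exact h μ (by beta_reduce; rw [s2_two, smul_smul]; simp)
    · intro h
      by_contra hn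
      refine h fun μ e => hn ⟨μ + μ, by rw [cls_add, cl_self], ?_⟩
      have e' : (2⁻¹ : ℂ) • a = emb μ := e
      rw [s2_two, ← e', smul_smul]; simp
  rw [e]
  exact h_open.isClosed_compl.preimage (by fun_prop)

theorem XN_t2 : T2Space XN := by
  rw [t2Space_iff_of_isOpenQuotientMap pr_open]
  have e : {q : E 2 × E 2 | pr q.1 = pr q.2} =
      (fun q : E 2 × E 2 => q.2 - q.1) ⁻¹' {a : E 2 | ∃ ν, cls ν = 0 ∧ a = emb ν} ∪
      (fun q : E 2 × E 2 => q.2 + q.1) ⁻¹' {a : E 2 | ∃ ν, cls ν = 0 ∧ a = emb ν} := by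
    ext ⟨a, a'⟩
    constructor
    · intro h
      obtain ⟨ν, c, h | h⟩ := pr_eq.1 h
      · exact Or.inl ⟨ν, c, by simp only at h ⊢; rw [h]; abel⟩
      · exact Or.inr ⟨ν, c, by simp only at h ⊢; rw [h]; abel⟩
    · rintro (⟨ν, c, h⟩ | ⟨ν, c, h⟩)
      · exact pr_eq.2 ⟨ν, c, Or.inl (by simp only at h ⊢; rw [← h]; abel)⟩
      · exact pr_eq.2 ⟨ν, c, Or.inr (by simp only at h ⊢; rw [← h]; abel)⟩
  rw [e]
  exact (s2_lat.preimage (by fun_prop)).union (s2_lat.preimage (by fun_prop))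

theorem XN_cpt : CompactSpace XN := by
  refine ⟨((isCompact_closedBall (0 : E 2) 2).image s2_cont).of_isClosed_subset isClosed_univ
    fun x _ => ?_⟩
  obtain ⟨a, rfl⟩ := s2_surj x
  refine ⟨a + emb (-rd ((2⁻¹ : ℂ) • a) + -rd ((2⁻¹ : ℂ) • a)), ?_,
    (pr_eq.2 ⟨_, by rw [cls_add, cl_self], Or.inl rfl⟩).symm⟩
  rw [mem_closedBall_zero_iff, pi_norm_le_iff_of_nonneg zero_le_two]
  intro k
  have e : a + emb (-rd ((2⁻¹ : ℂ) • a) + -rd ((2⁻¹ : ℂ) • a)) =
      (2 : ℂ) • ((2⁻¹ : ℂ) • a + emb (-rd ((2⁻¹ : ℂ) • a))) := by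
    rw [s2_two, smul_add, smul_smul]; simp
  have := rd_lt ((2⁻¹ : ℂ) • a) k
  rw [e, Pi.smul_apply, norm_smul, Complex.norm_ofNat]
  linarith

theorem s2_add {a : E 2} (ha : a ∈ DD) (ν : Fin 2 → GaussianInt) : a + emb ν ∈ DD :=
  fun μ e => ha (μ + -ν) (by rw [emb_add, emb_neg, ← e]; abel)

theorem mem_RR {a : E 2} : pr a ∈ RR ↔ a ∈ DD := by
  refine ⟨?_, fun h => ⟨a, h, rfl⟩⟩
  rintro ⟨a', h, e⟩
  obtain ⟨ν, -, rfl | rfl⟩ := pr_eq.1 e
  exacts [s2_add h ν, s2_add (h_neg h) ν]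

theorem RR_open : IsOpen RR := pr_open.isOpenMap _ h_open

theorem s2_dense : Dense DD := by
  have : Countable GaussianInt :=
    Function.Injective.countable (f := fun ν : GaussianInt => (ν.re, ν.im))
      fun _ _ h => Zsqrtd.ext (congrArg Prod.fst h) (congrArg Prod.snd h)
  have d : Dense (Set.range emb)ᶜ := (Set.countable_range emb).dense_compl ℂ
  refine d.mono ?_
  intro a h μ e
  exact h ⟨μ, e.symm⟩

theorem RR_dense : Dense RR := s2_surj.denseRange.dense_image s2_cont s2_dense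

theorem RR_ne : RR ≠ Set.univ := fun e =>
  mem_RR.1 (e ▸ Set.mem_univ (pr 0)) 0 emb_zero.symm

theorem rho_pp {i : Ix} {z b : E 2} {μ : Fin 2 → GaussianInt} (hz : z ∈ WW i.2)
    (r : Rep i.2 z b) (c : cls μ = i.1) : rho (pp i z) = pr (b + emb μ) := by
  obtain ⟨j, y, hy, e, m⟩ := Classical.epsilon_spec
    (p := fun a => ∃ j : Ix, ∃ y ∈ WW j.2, pp j y = pp i z ∧ a ∈ (inv j y).1)
    ⟨b + emb μ, i, z, hz, rfl, b, μ, r, c, rfl⟩
  rw [(key hy hz).2 ((pp_eq hy hz).1 e)] at m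
  obtain ⟨b', μ', r', c', e'⟩ := m
  rw [rho, e', pr_eq]
  rcases r.uniq r' with rfl | rfl
  · exact ⟨μ + -μ', by rw [cls_add, cls_neg, c, c', cl_self],
      Or.inl (by rw [emb_add, emb_neg]; abel)⟩
  · exact ⟨μ + μ', by rw [cls_add, c, c', cl_self], Or.inr (by rw [emb_add]; abel)⟩

theorem rho_mem {i : Ix} {z : E 2} (hz : z ∈ WW i.2) : rho (pp i z) ∈ RR ↔ z i.2 ≠ 0 := by
  obtain ⟨b, r⟩ := exists_rep i.2 z
  obtain ⟨μ, c⟩ := cls_surj i.1
  rw [rho_pp hz r c, mem_RR]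
  constructor
  · intro h z0
    exact h μ (by rw [r.zero_iff.1 z0, zero_add])
  · intro z0 μ' e
    have e1 : emb (μ' + -μ) = b := by rw [emb_add, emb_neg, ← e]; abel
    have e2 : μ' + -μ = 0 := all_small fun k => by
      rw [e1]; exact (r.mem_iff.1 hz k).trans (by norm_num)
    rw [e2, emb_zero] at e1
    exact z0 (r.zero_iff.2 e1.symm)

theorem rho_QQ {a : E 2} (ha : a ∈ DD) : rho (QQ a) = pr a := by
  obtain ⟨t, h0⟩ := DD_ne ha
  rw [QQ_spec (rd a) (rd_lt a) h0, rho_pp (i := (cls (rd a), t)) (μ := rd a)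
    ((rep_cc h0).mem_iff.2 (rd_lt a)) (rep_cc h0) rfl, emb_neg]
  exact congrArg pr (by abel)

theorem s2_rho_at {i : Ix} {z : E 2} (hz : z ∈ WW i.2) :
    ContinuousAt (fun w => rho (pp i w)) z := by
  obtain ⟨μ, c⟩ := cls_surj i.1
  have q : IsOpenQuotientMap
      (Pi.map fun (k : Fin 2) (u : ℂ) => if k = i.2 then u ^ 2 else u : E 2 → E 2) := by
    refine IsOpenQuotientMap.piMap fun k => ?_
    by_cases e : k = i.2
    · simp only [e, if_true]
      exact Complex.isOpenQuotientMap_pow 2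
    · simp only [e, if_false]
      exact IsOpenQuotientMap.id
  obtain ⟨s, rfl⟩ := q.surjective z
  rw [← q.continuousAt_comp_iff]
  have h : Continuous fun v : E 2 =>
      pr ((fun k => v i.2 * if k = i.2 then 1 else v k) + emb μ) := by
    refine s2_cont.comp (Continuous.add (continuous_pi fun k => ?_) continuous_const)
    by_cases e : k = i.2
    · simp only [e, if_true]; fun_prop
    · simp only [e, if_false]; fun_prop
  refine h.continuousAt.congr ?_
  filter_upwards [q.continuous.continuousAt.eventually ((isOpen_WW i.2).mem_nhds hz)] with v hv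
  exact (rho_pp hv ⟨by simp, by simp [rev_ne]⟩ c).symm

theorem rho_cont : Continuous rho := by
  rw [isQuotientMap_quotient_mk'.continuous_iff]
  refine continuous_sigma fun i => continuous_iff_continuousAt.2 fun w => ?_
  refine ((s2_rho_at w.2).comp continuous_subtype_val.continuousAt).congr
    (Eventually.of_forall fun v => ?_)
  exact congrArg rho (pp_mk v.2)

theorem s2_out {a : E 2} (ha : a ∈ DD) : QQ (Quotient.out (pr a)) = QQ a := by
  obtain ⟨ν, c, e⟩ := pr_eq.1 (Quotient.out_eq (pr a) : pr (Quotient.out (pr a)) = pr a).symm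
  obtain ⟨μ, rfl⟩ := s2_even c
  rcases e with e | e
  · rw [e, s2_two, QQ_per ha]
  · rw [e, s2_two, QQ_per (h_neg ha), QQ_neg ha]

theorem jj_pr {a : E 2} (ha : a ∈ DD) (h : pr a ∈ RR) : jj ⟨pr a, h⟩ = QQ a := s2_out ha

theorem jj_cont : Continuous jj := by
  refine continuous_iff_continuousAt.2 ?_
  rintro ⟨_, a, ha, rfl⟩
  have h : ContinuousAt (fun x : XN => QQ (Quotient.out x)) (pr a) := by
    rw [← pr_open.continuousAt_comp_iff]
    obtain ⟨i, κ, h1, h2, -, h3⟩ := QQ_loc ha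
    refine (((pp_cont i).continuousAt ((isOpen_WW _).mem_nhds h2)).comp h1.continuousAt).congr ?_
    filter_upwards [h3, h_open.mem_nhds ha] with w e hw
    exact e.trans (s2_out hw).symm
  exact ContinuousAt.comp (f := (Subtype.val : RR → XN)) (x := ⟨pr a, a, ha, rfl⟩) h
    continuous_subtype_val.continuousAt

theorem jj_dense : DenseRange jj := by
  intro y
  obtain ⟨i, z, hz, rfl⟩ := pp_cover y
  refine closure_mono ?_
    (((pp_cont i z hz).mono fun w hw => hw.1).mem_closure_image (QQ_dense hz))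
  rintro _ ⟨w, ⟨-, a, ha, e⟩, rfl⟩
  exact ⟨⟨pr a, mem_RR.2 ha⟩, (jj_pr ha _).trans e⟩

theorem rho_jj (x : RR) : rho (jj x) = x := by
  obtain ⟨_, a, ha, rfl⟩ := x
  rw [jj_pr ha, rho_QQ ha]

theorem jj_rho (y : XX) (h : rho y ∈ RR) : jj ⟨rho y, h⟩ = y := by
  obtain ⟨i, z, hz, rfl⟩ := pp_cover y
  obtain ⟨b, r⟩ := exists_rep i.2 z
  obtain ⟨μ, c⟩ := cls_surj i.1
  have z0 := (rho_mem hz).1 h
  have e0 := rho_pp hz r c
  have e : b + emb μ + emb (-μ) = b := by rw [emb_neg]; abel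
  show QQ (Quotient.out (rho (pp i z))) = _
  rw [e0, s2_out (mem_RR.1 (e0 ▸ h)), QQ_spec (t := i.2) μ (by rw [e]; exact r.mem_iff.1 hz)
    (by rw [e]; exact r.ne z0), e, c, r.eq_cc z0]

end Pool.Agent.Kum
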