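import Pool.Agent.P.MP_63735c_ag.Kum.S

/-! The changes of chart of the Kummer surface. -/

open scoped ComplexOrder ContDiff Matrix Topology
open Filter

namespace Pool.Agent.Kum

open Pool.Agent.SPF

variable {t t' : Fin 2} {z y b b' : E 2} {i j : Ix} {ν ν' : Fin 2 → GaussianInt}

theorem an_apply (k : Fin 2) (z : E 2) : AnalyticAt ℂ (fun w : E 2 => w k) z :=
  (ContinuousLinearMap.proj (R := ℂ) (φ := fun _ : Fin 2 => ℂ) k).analyticAt z

theorem dz_inv {x : E 2} {k : Fin 2} (hk : x k ≠ 0) (a : Fin 2) :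
    dz a (fun w : E 2 => (w k)⁻¹) x = -(x k ^ 2)⁻¹ * if k = a then 1 else 0 := by
  have e := (hasDerivAt_inv hk).comp_hasFDerivAt x (hasFDerivAt_apply (𝕜 := ℂ) k x)
  have e' : HasFDerivAt (fun w : E 2 => (w k)⁻¹) _ x := e
  rw [dz_hol e'.differentiableAt, e'.fderiv]
  simp [Pi.single_apply]

theorem dR (k : Fin 2) (x : E 2) : DifferentiableAt ℝ (fun w : E 2 => w k) x :=
  differentiableAt_apply k x

theorem dRi {k : Fin 2} {x : E 2} (hk : x k ≠ 0) :
    DifferentiableAt ℝ (fun w : E 2 => (w k)⁻¹) x := (dR k x).inv hk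

theorem cc_an (h : b t ≠ 0) : AnalyticAt ℂ (cc t) b := by
  refine AnalyticAt.pi fun k => ?_
  by_cases e : k = t
  · simp only [cc, e, if_true]; exact (an_apply t b).pow 2
  · simp only [cc, e, if_false]; exact (an_apply k b).div (an_apply t b) h

theorem det2 (t : Fin 2) (A : Matrix (Fin 2) (Fin 2) ℂ) :
    A.det = A t t * A t.rev t.rev - A t t.rev * A t.rev t := by
  rw [Matrix.det_fin_two]
  fin_cases t
  · rfl
  · show _ = A 1 1 * A 0 0 - A 1 0 * A 0 1
    ring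

theorem det_cc (h : b t ≠ 0) : (jac (cc t) b).det = 2 := by
  have d := (cc_an h).differentiableAt
  have e1 : (fun w => cc t w t) = fun w : E 2 => w t * w t := by
    funext w; simp [cc, sq]
  have e2 : (fun w => cc t w t.rev) = fun w : E 2 => w t.rev * (w t)⁻¹ := by
    funext w; simp [cc, rev_ne, div_eq_mul_inv]
  rw [det2 t]
  simp only [jac_apply d, e1, e2, dz_mul (dR _ _) (dR _ _), dz_mul (dR _ _) (dRi h), dz_apply,
    dz_inv h, rev_ne, (rev_ne t).symm, if_true, if_false]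
  field_simp
  ring

/-- The change between the two charts at one exceptional curve. -/
noncomputable def sw (t : Fin 2) (w : E 2) : E 2 :=
  fun k => if k = t then (w t.rev)⁻¹ else w t * w t.rev ^ 2

theorem sw_an (h : z t.rev ≠ 0) : AnalyticAt ℂ (sw t) z := by
  refine AnalyticAt.pi fun k => ?_
  by_cases e : k = t
  · simp only [sw, e, if_true]; exact (an_apply t.rev z).inv h
  · simp only [sw, e, if_false]; exact (an_apply t z).mul ((an_apply t.rev z).pow 2)

theorem det_sw (h : z t.rev ≠ 0) : (jac (sw t) z).det = 1 := by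
  have d := (sw_an h).differentiableAt
  have e1 : (fun w => sw t w t) = fun w : E 2 => (w t.rev)⁻¹ := by
    funext w; simp [sw]
  have e2 : (fun w => sw t w t.rev) = fun w : E 2 => w t * (w t.rev * w t.rev) := by
    funext w; simp [sw, rev_ne, sq]
  rw [det2 t]
  simp only [jac_apply d, e1, e2, dz_mul (dR _ _) ((dR _ _).fun_mul (dR _ _)),
    dz_mul (dR _ _) (dR _ _), dz_apply, dz_inv h, rev_ne, (rev_ne t).symm, if_true, if_false]
  field_simp
  ring

theorem Rep.sw (h : Rep t z b) (h0 : z t.rev ≠ 0) : Rep t.rev (sw t z) b := by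
  constructor
  · simp only [Kum.sw, rev_ne, if_false]; rw [h.2, ← h.1]; ring
  · simp only [Kum.sw, Fin.rev_rev, if_true]; rw [h.2]; field_simp

/-- A local section of the quotient map. -/
noncomputable def sec (t : Fin 2) (z b w : E 2) : E 2 :=
  fun k => b t * (w t / z t) ^ (((2 : ℕ) : ℂ)⁻¹) * if k = t then 1 else w k

theorem rep_sec (h : Rep t z b) (h0 : z t ≠ 0) (w : E 2) : Rep t w (sec t z b w) := by
  constructor
  · simp only [sec, if_true, mul_one, mul_pow, Complex.cpow_nat_inv_pow _ two_ne_zero, h.1]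
    field_simp
  · simp [sec, rev_ne]

theorem sec_self (h : Rep t z b) (h0 : z t ≠ 0) : sec t z b z = b :=
  ext2 t (by simp [sec, div_self h0]) (by simp [sec, div_self h0, rev_ne, h.2])

theorem sec_an (h0 : z t ≠ 0) : ∀ᶠ w in 𝓝 z, AnalyticAt ℂ (sec t z b) w := by
  refine AnalyticAt.eventually_analyticAt (AnalyticAt.pi fun k => ?_)
  have a1 : AnalyticAt ℂ (fun w : E 2 => b t * (w t / z t) ^ (((2 : ℕ) : ℂ)⁻¹)) z := by
    refine analyticAt_const.mul (((an_apply t z).div analyticAt_const h0).cpow analyticAt_const ?_)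
    simp [div_self h0]
  by_cases e : k = t
  · simp only [sec, e, if_true]; exact a1.mul analyticAt_const
  · simp only [sec, e, if_false]; exact a1.mul (an_apply k z)

theorem det_sec (h : Rep t z b) (h0 : z t ≠ 0) :
    ∀ᶠ w in 𝓝 z, 2 * (jac (sec t z b) w).det = 1 := by
  have ev : ∀ᶠ w in 𝓝 z, w t ≠ 0 := (an_apply t z).continuousAt.eventually_ne h0
  filter_upwards [ev.eventually_nhds, sec_an (b := b) h0] with w hw a
  have n := (rep_sec h h0 w).ne hw.self_of_nhds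
  have e : (fun v => cc t (sec t z b v)) =ᶠ[𝓝 w] fun v => v :=
    hw.mono fun v hv => (rep_sec h h0 v).eq_cc hv
  have := jac_congr e
  rw [jac_comp (cc_an n).differentiableAt a.differentiableAt, jac_id] at this
  rw [← det_cc n, ← Matrix.det_mul, this, Matrix.det_one]

theorem jac_add_const (s : E 2 → E 2) (c w : E 2) : jac (fun v => s v + c) w = jac s w := by
  simp only [jac, fderiv_add_const]

theorem Rep.nsq (h : Rep t z b) :
    ‖z t‖ * (1 + ‖z t.rev‖ ^ 2) = ‖b t‖ ^ 2 + ‖b t.rev‖ ^ 2 := by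
  rw [h.2, ← h.1, norm_mul, norm_pow]; ring

theorem sum2 (t : Fin 2) (f : Fin 2 → ℝ) : f t + f t.rev = f 0 + f 1 := by
  fin_cases t
  · rfl
  · exact add_comm _ _

/-- A radial profile that is linear far out. -/
structure Fm where
  ε : ℝ
  κ' : ℝ
  Y : ℝ → ℝ
  Y_lin : ∀ t ≥ 1 / 30, ε * Real.log t + Y t = t + κ'

/-- The potential of a profile in the chart of type `t`. -/
noncomputable def Fm.Φ (F : Fm) (t : Fin 2) (z : E 2) : ℝ :=
  F.Y (‖z t‖ * (1 + ‖z t.rev‖ ^ 2)) + F.ε * Real.log (1 + ‖z t.rev‖ ^ 2)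

/-- The profile of the Kähler potential. -/
def Fn.fm (F : Fn) : Fm := ⟨F.ε, F.κ', F.Y, F.Y_lin⟩

theorem Φ_rep (F : Fm) (h : Rep t z b) (h0 : z t ≠ 0) {k : Fin 2} (hk : 1 / 5 < ‖b k‖) :
    F.Φ t z = ‖b 0‖ ^ 2 + ‖b 1‖ ^ 2 + F.κ' - F.ε * Real.log ‖z t‖ := by
  have e := h.nsq
  rw [sum2 t fun k => ‖b k‖ ^ 2] at e
  have big : ‖b 0‖ ^ 2 + ‖b 1‖ ^ 2 ≥ 1 / 30 := by
    have : (1 / 5 : ℝ) ^ 2 < ‖b k‖ ^ 2 := by gcongr
    rcases fin2 0 k with rfl | rfl
    · nlinarith [sq_nonneg ‖b 1‖]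
    · change _ < ‖b 1‖ ^ 2 at this
      nlinarith [sq_nonneg ‖b 0‖]
  have l := F.Y_lin _ big
  have lg : Real.log (‖b 0‖ ^ 2 + ‖b 1‖ ^ 2) = Real.log ‖z t‖ + Real.log (1 + ‖z t.rev‖ ^ 2) := by
    rw [← e, Real.log_mul (norm_ne_zero_iff.2 h0) (by positivity)]
  rw [Fm.Φ, e]
  rw [lg] at l
  linarith

theorem nsq_add (u m : ℂ) : ‖u + m‖ ^ 2 = ‖u‖ ^ 2 + (2 * u * star m + ‖m‖ ^ 2 : ℂ).re := by
  simp only [← Complex.normSq_eq_norm_sq, Complex.normSq_add, ← Complex.ofReal_pow,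
    Complex.add_re, Complex.ofReal_re, Complex.star_def, mul_assoc]
  simp
  ring

/-- The factor of automorphy. -/
noncomputable def GG (u m : ℂ) : ℂ := Complex.exp (Real.pi * (2 * u * star m + ‖m‖ ^ 2))

theorem trans0 (F : Fm) (hz : z ∈ WW i.2) (hy : y ∈ WW j.2) (h : Rl i j z y) :
    ∃ φ : E 2 → E 2, φ z = y ∧ AnalyticAt ℂ φ z ∧
      (∀ᶠ w in 𝓝 z, Rl i j w (φ w) ∧ (jac φ w).det = 1) ∧
      PH (fun w => F.Φ i.2 w - F.Φ j.2 (φ w)) z ∧ ∃ G : E 2 → ℂ, AnalyticAt ℂ G z ∧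
        ∀ᶠ w in 𝓝 z, ∃ b ν, Lk i j w (φ w) b ν ∧ G w = GG (b 0) (emb ν 0) := by
  obtain ⟨⟨b, ν, lk⟩, hd⟩ := h
  by_cases e : i.1 = j.1
  · have c0 : cls 0 = i.1 + j.1 := by rw [e, cl_self, cls_zero]
    have G0 : ∀ u, (1 : ℂ) = GG u (emb 0 0) := fun u => by simp [GG, emb_zero]
    by_cases et : i.2 = j.2
    · obtain rfl : i = j := Prod.ext e et
      have lk' : ∀ w, ∃ b, Lk i i w w b 0 := fun w =>
        (exists_rep i.2 w).imp fun b r => ⟨c0, r, by simpa [emb_zero] using r⟩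
      refine ⟨fun w => w, Rl.inj ⟨⟨b, ν, lk⟩, hd⟩ hz hy, analyticAt_id, Eventually.of_forall
        fun w => ⟨⟨(lk' w).imp fun b r => ⟨0, r⟩, fun _ => ⟨fun _ => rfl, fun c => absurd rfl c⟩⟩,
          by rw [jac_id, Matrix.det_one]⟩, ⟨fun _ => 0, analyticAt_const, by simp⟩,
        fun _ => 1, analyticAt_const, Eventually.of_forall fun w =>
          (lk' w).imp fun b r => ⟨0, r, G0 _⟩⟩
    · have e2 : j.2 = i.2.rev := (fin2 i.2 j.2).resolve_left fun c => et c.symm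
      have D := (hd e).2 et
      rw [e2, Fin.rev_rev] at D
      have n0 : z i.2.rev ≠ 0 := left_ne_zero_of_mul_eq_one D
      have ev : ∀ᶠ w in 𝓝 z, w i.2.rev ≠ 0 := (an_apply _ z).continuousAt.eventually_ne n0
      have lk' : ∀ w : E 2, w i.2.rev ≠ 0 → ∃ b, Lk i j w (sw i.2 w) b 0 := fun w hw =>
        (exists_rep i.2 w).imp fun b r => ⟨c0, r, by simpa [emb_zero, e2] using r.sw hw⟩
      refine ⟨sw i.2, ?_, sw_an n0, ev.mono fun w hw => ⟨⟨(lk' w hw).imp fun b r => ⟨0, r⟩,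
        fun _ => ⟨fun c => absurd c et, fun _ => ?_⟩⟩, det_sw hw⟩, ?_, fun _ => 1,
        analyticAt_const, ev.mono fun w hw => (lk' w hw).imp fun b r => ⟨0, r, G0 _⟩⟩
      · have r2 : Rep i.2.rev y b := by simpa [lk.same hz hy e, emb_zero, e2] using lk.2.2
        refine ext2 i.2 ?_ (((lk.2.1.sw n0).1).symm.trans r2.1)
        simp only [sw, if_true]
        exact (eq_inv_of_mul_eq_one_right D).symm
      · rw [e2, Fin.rev_rev]
        simp [sw, hw]
      · refine ((PH.log (an_apply i.2.rev z) n0).smul (2 * F.ε)).congr (ev.mono fun w hw => ?_)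
        have nw : ‖w i.2.rev‖ ≠ 0 := norm_ne_zero_iff.2 hw
        have a1 : ‖w i.2 * w i.2.rev ^ 2‖ * (1 + ‖(w i.2.rev)⁻¹‖ ^ 2) =
            ‖w i.2‖ * (1 + ‖w i.2.rev‖ ^ 2) := by
          rw [norm_mul, norm_pow, norm_inv]; field_simp; ring
        have a2 : 1 + ‖w i.2.rev‖ ^ 2 = (1 + ‖(w i.2.rev)⁻¹‖ ^ 2) * ‖w i.2.rev‖ ^ 2 := by
          rw [norm_inv]; field_simp; ring
        have a3 : Real.log (1 + ‖w i.2.rev‖ ^ 2) =
            Real.log (1 + ‖(w i.2.rev)⁻¹‖ ^ 2) + 2 * Real.log ‖w i.2.rev‖ := by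
          rw [a2, Real.log_mul (by positivity) (pow_ne_zero 2 nw), Real.log_pow]
          norm_num
        simp only [Fm.Φ, e2, Fin.rev_rev, sw, rev_ne, if_true, if_false, a1, a3]
        ring
  · have nν : ν ≠ 0 := fun c => e (lk.of_zero c)
    obtain ⟨k, hk⟩ := Function.ne_iff.1 nν
    have z0 : z i.2 ≠ 0 := fun c => nν (lk.node hy c).2.1
    have y0 : y j.2 ≠ 0 := fun c => z0 (lk.symm.node hz c).2.2
    have r := lk.2.1
    have n' := lk.2.2.ne y0
    have sa := sec_an (b := b) z0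
    have s0 := sa.self_of_nhds
    have s1 : AnalyticAt ℂ (fun w => sec i.2 z b w + emb ν) z := s0.add analyticAt_const
    have v1 : sec i.2 z b z + emb ν = b + emb ν := by rw [sec_self r z0]
    have sk : ∀ k, AnalyticAt ℂ (fun w => sec i.2 z b w k) z := fun k =>
      (an_apply k _).comp s0
    have ev : ∀ᶠ w in 𝓝 z, (sec i.2 z b w + emb ν) j.2 ≠ 0 :=
      ((an_apply j.2 _).comp s1).continuousAt.eventually_ne (by simpa only [Function.comp, v1] using n')
    have φz : cc j.2 (sec i.2 z b z + emb ν) = y := by rw [v1, lk.2.2.eq_cc y0]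
    have φa : AnalyticAt ℂ (fun w => cc j.2 (sec i.2 z b w + emb ν)) z :=
      (cc_an (by rw [v1]; exact n')).comp s1
    have lk' : ∀ᶠ w in 𝓝 z, Lk i j w (cc j.2 (sec i.2 z b w + emb ν)) (sec i.2 z b w) ν :=
      ev.mono fun w hw => ⟨lk.1, rep_sec r z0 w, rep_cc hw⟩
    refine ⟨fun w => cc j.2 (sec i.2 z b w + emb ν), φz, φa, ?_, ?_,
      fun w => GG (sec i.2 z b w 0) (emb ν 0), ?_, lk'.mono fun w hw => ⟨_, _, hw, rfl⟩⟩
    · filter_upwards [lk', ev, sa, det_sec r z0] with w h1 h2 h3 h4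
      refine ⟨⟨⟨_, _, h1⟩, fun c => absurd c e⟩, ?_⟩
      rw [jac_comp (s := fun w => sec i.2 z b w + emb ν) (cc_an h2).differentiableAt
        (h3.differentiableAt.add_const _), Matrix.det_mul, det_cc h2, jac_add_const, h4]
    · have p1 := (PH.log (an_apply i.2 z) z0).smul (-F.ε)
      have p2 := (PH.log ((an_apply j.2 _).comp φa) (by simpa only [Function.comp, φz] using y0)).smul F.ε
      have p3 : ∀ k, PH (fun w => -1 * (2 * sec i.2 z b w k * star (emb ν k) +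
          ‖emb ν k‖ ^ 2 : ℂ).re) z := fun k => (PH.re (((analyticAt_const.mul (sk k)).mul
            analyticAt_const).add analyticAt_const)).smul (-1)
      refine ((p1.add p2).add ((p3 0).add (p3 1))).congr ?_
      have m1 : ∀ᶠ w in 𝓝 z, w ∈ WW i.2 := (isOpen_WW _).mem_nhds hz
      have m2 : ∀ᶠ w in 𝓝 z, cc j.2 (sec i.2 z b w + emb ν) ∈ WW j.2 :=
        φa.continuousAt.eventually ((isOpen_WW _).mem_nhds (by beta_reduce; rw [φz]; exact hy))
      filter_upwards [lk', m1, m2] with w h1 h2 h3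
      have w0 : w i.2 ≠ 0 := fun c => nν (h1.node h3 c).2.1
      have w1 := fun c => w0 (h1.symm.node h2 c).2.2
      obtain ⟨b1, b2⟩ := h1.big h2 h3 hk
      rw [Φ_rep F h1.2.1 w0 b1, Φ_rep F h1.2.2 w1 b2]
      simp only [Pi.add_apply, nsq_add, Function.comp]
      ring
    · exact (analyticAt_const.mul (((analyticAt_const.mul (sk 0)).mul analyticAt_const).add
        analyticAt_const)).cexp

end Pool.Agent.Kum
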