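import Pool.Agent.P.MP_63735c_ag.Kum.G

/-! The weight of the line bundle on the Kummer surface: smooth, semipositive, degenerate. -/

open scoped ComplexOrder ContDiff Matrix Topology
open Filter

namespace Pool.Agent.Kum

open Pool.Agent.SPF

/-- The radial weight on the line. -/
noncomputable def Fn.rad (F : Fn) (x : E 1) : ℝ := 2 * Real.pi * F.χ ‖x 0‖

/-- The map to the line. -/
noncomputable def mmv (t : Fin 2) (z : E 2) : E 1 := fun _ => mm t z

theorem mmv_an (t : Fin 2) (z : E 2) : AnalyticAt ℂ (mmv t) z := by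
  have c : ∀ k : Fin 2, AnalyticAt ℂ (fun w : E 2 => w k) z := fun k =>
    (ContinuousLinearMap.proj (R := ℂ) (φ := fun _ : Fin 2 => ℂ) k).analyticAt z
  refine analyticAt_pi_iff.2 fun _ => ?_
  unfold mmv mm
  by_cases h : t = 0
  · simp only [h, if_true]; exact c 0
  · simp only [h, if_false]; exact (c 1).mul ((c 0).pow 2)

theorem Fn.rad_zero (F : Fn) {x : E 1} (h : ‖x 0‖ < 1 / 100) : F.rad =ᶠ[𝓝 x] fun _ => 0 := by
  have c : ContinuousAt (fun y : E 1 => ‖y 0‖) x := (continuous_apply 0).norm.continuousAt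
  filter_upwards [c.eventually (gt_mem_nhds h)] with y hy
  rw [Fn.rad, F.χ_zero _ (le_of_lt hy), mul_zero]

theorem Fn.rad_smooth (F : Fn) (x : E 1) : ContDiffAt ℝ ∞ F.rad x := by
  by_cases h : x 0 = 0
  · exact contDiffAt_const.congr_of_eventuallyEq (F.rad_zero (by rw [h]; norm_num))
  · have n : ContDiffAt ℝ ∞ (fun y : E 1 => ‖y 0‖) x :=
      (contDiffAt_norm ℝ h).comp x (contDiffAt_apply ℝ ℂ 0 x)
    exact contDiffAt_const.mul (F.χ_smooth.contDiffAt.comp x n)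

theorem lv_zero1 {N : ℕ} (x : E N) : lv (fun _ => (0 : ℝ)) x = 0 := by
  ext a b
  simp [lv, dz]

theorem Fn.lv_rad_ne (F : Fn) {x : E 1} (h : x 0 ≠ 0) :
    lv F.rad x 0 0 = ((2 * Real.pi / (4 * ‖x 0‖) *
      (deriv F.χ ‖x 0‖ + ‖x 0‖ * deriv (deriv F.χ) ‖x 0‖) : ℝ) : ℂ) := by
  have hr : 0 < ‖x 0‖ := norm_pos_iff.2 h
  have hn : ∀ y : E 1, nq (fun _ => 1) y = ‖y 0‖ ^ 2 := fun y => by simp [nq]
  have e : F.rad = fun y => (fun s => 2 * Real.pi * F.χ (Real.sqrt s)) (nq (fun _ => 1) y) := by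
    funext y
    simp only [hn, Fn.rad, Real.sqrt_sq (norm_nonneg _)]
  have d1 : ∀ s, HasDerivAt F.χ (deriv F.χ s) s := fun s =>
    (F.χ_smooth.differentiable (by simp) s).hasDerivAt
  have d2 : ∀ s, HasDerivAt (deriv F.χ) (deriv (deriv F.χ) s) s := fun s =>
    (((contDiff_infty_iff_deriv.1 F.χ_smooth).2).differentiable (by simp) s).hasDerivAt
  have hp : 0 < nq (fun _ : Fin 1 => (1 : ℝ)) x := by rw [hn]; positivity
  have h1 : ∀ᶠ s in 𝓝 (nq (fun _ : Fin 1 => (1 : ℝ)) x),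
      HasDerivAt (fun s => 2 * Real.pi * F.χ (Real.sqrt s))
        ((fun s => 2 * Real.pi * (deriv F.χ (Real.sqrt s) * (1 / (2 * Real.sqrt s)))) s) s := by
    filter_upwards [lt_mem_nhds hp] with s hs
    exact ((d1 _).comp s (Real.hasDerivAt_sqrt hs.ne')).const_mul _
  have q := Real.hasDerivAt_sqrt hp.ne'
  have hs : Real.sqrt (nq (fun _ : Fin 1 => (1 : ℝ)) x) = ‖x 0‖ := by
    rw [hn, Real.sqrt_sq hr.le]
  have h2 := ((((d2 _).comp _ q).mul ((hasDerivAt_const _ (1 : ℝ)).div (q.const_mul 2)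
    (by rw [hs]; positivity)))).const_mul (2 * Real.pi)
  rw [e, lv_rad (fun _ => 1) h1 h2]
  have m : star (x 0) * x 0 = ((‖x 0‖ ^ 2 : ℝ) : ℂ) := by
    rw [mul_comm, Complex.star_def, Complex.mul_conj, Complex.normSq_eq_norm_sq]
  simp only [if_true, Complex.ofReal_one, one_mul, mul_one, Function.comp, Pi.div_apply, hs]
  rw [mul_assoc _ (star (x 0)), m, ← Complex.ofReal_mul, ← Complex.ofReal_add]
  refine congrArg _ ?_
  field_simp
  ring

theorem Fn.lv_rad_val (F : Fn) (x : E 1) : ∃ c : ℝ, 0 ≤ c ∧ lv F.rad x 0 0 = (c : ℂ) := by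
  by_cases h : x 0 = 0
  · refine ⟨0, le_rfl, ?_⟩
    rw [lv_congr (F.rad_zero (by rw [h]; norm_num)), lv_zero1]
    simp
  · have hr : 0 < ‖x 0‖ := norm_pos_iff.2 h
    exact ⟨_, mul_nonneg (by positivity) (F.χ_psd _ hr), F.lv_rad_ne h⟩

theorem Fn.ψ_rad (F : Fn) (t : Fin 2) : F.ψ t = fun y => F.rad (mmv t y) := by
  funext y
  simp only [Fn.ψ, Fn.rad, mmv]

theorem Fn.lv_ψ (F : Fn) (t : Fin 2) (z : E 2) :
    lv (F.ψ t) z = (jac (mmv t) z)ᵀ * lv F.rad (mmv t z) * (jac (mmv t) z).map star := by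
  rw [F.ψ_rad t]
  exact lv_comp (f := F.rad) (φ := mmv t) (F.rad_smooth _) (mmv_an t z)

theorem Fn.ψ_smooth (F : Fn) (t : Fin 2) : ContDiff ℝ ∞ (F.ψ t) := by
  rw [F.ψ_rad t]
  exact contDiff_iff_contDiffAt.2 fun z =>
    ContDiffAt.comp (g := F.rad) (f := mmv t) z (F.rad_smooth _) (an_smooth (mmv_an t z))

theorem Fn.ψ_psd (F : Fn) (t : Fin 2) (z : E 2) : (lv (F.ψ t) z).PosSemidef := by
  obtain ⟨c, hc, e⟩ := F.lv_rad_val (mmv t z)
  have d : lv F.rad (mmv t z) = Matrix.diagonal fun _ => (c : ℂ) := by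
    ext a b
    rw [Subsingleton.elim a 0, Subsingleton.elim b 0, e]
    simp
  have p : (lv F.rad (mmv t z)).PosSemidef := by
    rw [d]
    exact Matrix.PosSemidef.diagonal fun _ => by simpa using hc
  have j : (jac (mmv t) z)ᵀ = ((jac (mmv t) z).map star)ᴴ := by
    ext a b
    simp
  rw [F.lv_ψ, j]
  exact p.conjTranspose_mul_mul_same _

theorem Fn.ψ_det (F : Fn) (t : Fin 2) (z : E 2) : (lv (F.ψ t) z).det = 0 := by
  rw [F.lv_ψ, Matrix.det_fin_two]
  simp only [Matrix.mul_apply, Matrix.transpose_apply, Matrix.map_apply, Fin.sum_univ_one]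
  ring

theorem Fn.ψ_ne (F : Fn) : ∃ z ∈ WW 0, lv (F.ψ 0) z ≠ 0 := by
  refine ⟨fun k => if k = 0 then 1 / 4 else 0, ?_, fun h => ?_⟩
  · constructor
    · simp; norm_num
    · have : (0 : Fin 2).rev = 1 := rfl
      simp [this]
  set z : E 2 := fun k => if k = 0 then 1 / 4 else 0 with hz
  have v : mmv 0 z 0 = 1 / 4 := by simp [mmv, mm, hz]
  have n : ‖mmv 0 z 0‖ = 1 / 4 := by rw [v]; simp
  have J : jac (mmv 0) z 0 0 = 1 := by
    rw [jac_apply (mmv_an 0 z).differentiableAt]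
    have : (fun w : E 2 => mmv 0 w 0) = fun w => w 0 := by funext w; simp [mmv, mm]
    rw [this, dz_apply]
    simp
  have c1 : deriv F.χ =ᶠ[𝓝 (1 / 4 : ℝ)] fun _ => 1 := by
    filter_upwards [lt_mem_nhds (show (1 / 30 : ℝ) < 1 / 4 by norm_num)] with s hs
    have : F.χ =ᶠ[𝓝 s] fun u => u + F.κ := by
      filter_upwards [lt_mem_nhds hs] with u hu
      exact F.χ_lin u hu.le
    rw [this.deriv_eq]
    simp
  have c2 : deriv (deriv F.χ) (1 / 4) = 0 := by rw [c1.deriv_eq]; simp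
  have e := congrFun (congrFun h 0) 0
  rw [F.lv_ψ] at e
  simp only [Matrix.mul_apply, Matrix.transpose_apply, Matrix.map_apply, Fin.sum_univ_one, J,
    star_one, one_mul, mul_one, Matrix.zero_apply] at e
  rw [F.lv_rad_ne (by rw [v]; norm_num), n, c2, c1.self_of_nhds, Complex.ofReal_eq_zero] at e
  have := Real.pi_pos
  linarith

end Pool.Agent.Kum
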