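import Pool.Agent.P.MP_63735c_ag.Kum.G

/-! The Kähler potential is smooth and strictly plurisubharmonic. -/

open scoped ComplexOrder ContDiff Matrix Topology
open Filter

namespace Pool.Agent.Kum

open Pool.Agent.SPF

theorem u2_near (F : Fn) (t : Fin 2) {z : E 2} (hz : z t = 0) :
    (fun y : E 2 => F.Y (‖y t‖ * (1 + ‖y t.rev‖ ^ 2))) =ᶠ[𝓝 z]
      fun y => ‖y t‖ ^ 2 * (1 + ‖y t.rev‖ ^ 2) ^ 2 / 2 := by
  have hc : ContinuousAt (fun y : E 2 => ‖y t‖ * (1 + ‖y t.rev‖ ^ 2)) z := by fun_prop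
  filter_upwards [hc.eventually_lt_const (u := 1 / 100) (by simp [hz])] with y hy
  rw [F.Y_sq _ hy.le, mul_pow]

theorem u2_sq (k : Fin 2) : ContDiff ℝ ∞ fun y : E 2 => ‖y k‖ ^ 2 :=
  (contDiff_apply ℝ ℂ k).norm_sq ℂ

theorem Fn.Φ_smooth (F : Fn) (t : Fin 2) : ContDiff ℝ ∞ (F.Φ t) := by
  have h1 : ContDiff ℝ ∞ fun y : E 2 => 1 + ‖y t.rev‖ ^ 2 := contDiff_const.add (u2_sq _)
  refine ContDiff.add (contDiff_iff_contDiffAt.2 fun z => ?_)
    (contDiff_const.mul (h1.log fun y => by positivity))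
  by_cases hz : z t = 0
  · exact (((u2_sq t).mul (h1.pow 2)).div_const 2).contDiffAt.congr_of_eventuallyEq
      (u2_near F t hz)
  · exact F.Y_smooth.contDiffAt.comp z
      (((contDiff_apply ℝ ℂ t).contDiffAt.norm ℂ hz).mul h1.contDiffAt)

theorem u2_tr {M N : ℕ} (J : Matrix (Fin N) (Fin M) ℂ) : Jᵀ = (J.map star)ᴴ := by
  ext a b
  simp

theorem u2_mid {M J : Matrix (Fin 2) (Fin 2) ℂ} (h : (Jᵀ * M * J.map star).PosDef) : M.PosDef := by
  rw [u2_tr] at h
  set B := J.map star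
  have hB : Function.Injective B.mulVec := by
    refine (injective_iff_map_eq_zero B.mulVecLin).2 fun v hv => ?_
    by_contra h0
    have h1 := h.dotProduct_mulVec_pos h0
    rw [← Matrix.mulVec_mulVec, show B *ᵥ v = 0 from hv] at h1
    simp at h1
  have hu : IsUnit B.det := (Matrix.isUnit_iff_isUnit_det B).1 (Matrix.mulVec_injective_iff_isUnit.1 hB)
  have h2 := h.conjTranspose_mul_mul_same (B := B⁻¹) (Matrix.mulVec_injective_iff_isUnit.2
    ((Matrix.isUnit_iff_isUnit_det _).2 (Matrix.isUnit_nonsing_inv_det B hu)))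
  rwa [Matrix.mul_assoc, Matrix.mul_assoc, Matrix.mul_nonsing_inv B hu, Matrix.mul_one,
    ← Matrix.mul_assoc, ← Matrix.conjTranspose_mul, Matrix.mul_nonsing_inv B hu,
    Matrix.conjTranspose_one, Matrix.one_mul] at h2

theorem u2_rad {M : Matrix (Fin 2) (Fin 2) ℂ} {p q : ℝ} {x : E 2} (hp : 0 < p)
    (hq : 0 < p + (‖x 0‖ ^ 2 + ‖x 1‖ ^ 2) * q)
    (h : ∀ a b, M a b = (if b = a then (p : ℂ) else 0) + q * star (x a) * x b) : M.PosDef := by
  refine Matrix.PosDef.of_dotProduct_mulVec_pos ?_ fun v hv => ?_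
  · ext a b
    rw [Matrix.conjTranspose_apply, h, h]
    by_cases e : b = a <;> simp [e, eq_comm (a := a)] <;> ring
  have e : star v ⬝ᵥ M *ᵥ v = ((p * (‖v 0‖ ^ 2 + ‖v 1‖ ^ 2) +
      q * ‖x 0 * v 0 + x 1 * v 1‖ ^ 2 : ℝ) : ℂ) := by
    simp only [dotProduct, Matrix.mulVec, Fin.sum_univ_two, h, Pi.star_apply, Complex.ofReal_add,
      Complex.ofReal_mul, ← Complex.normSq_eq_norm_sq, ← Complex.mul_conj, map_add, map_mul,
      Complex.star_def]
    simp
    ring
  rw [e, Complex.zero_lt_real]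
  have h0 : 0 < ‖v 0‖ ^ 2 + ‖v 1‖ ^ 2 := by
    by_contra h0
    refine hv (funext fun k => ?_)
    have a0 : ‖v 0‖ = 0 := by nlinarith [sq_nonneg ‖v 0‖, sq_nonneg ‖v 1‖]
    have a1 : ‖v 1‖ = 0 := by nlinarith [sq_nonneg ‖v 0‖, sq_nonneg ‖v 1‖]
    fin_cases k
    exacts [norm_eq_zero.1 a0, norm_eq_zero.1 a1]
  rcases le_or_gt 0 q with h1 | h1
  · positivity
  have h2 : ‖x 0 * v 0 + x 1 * v 1‖ ≤ ‖x 0‖ * ‖v 0‖ + ‖x 1‖ * ‖v 1‖ :=
    (norm_add_le _ _).trans (by rw [norm_mul, norm_mul])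
  have h3 : ‖x 0 * v 0 + x 1 * v 1‖ ^ 2 ≤ (‖x 0‖ ^ 2 + ‖x 1‖ ^ 2) * (‖v 0‖ ^ 2 + ‖v 1‖ ^ 2) :=
    (pow_le_pow_left₀ (norm_nonneg _) h2 2).trans
      (by nlinarith [sq_nonneg (‖x 0‖ * ‖v 1‖ - ‖x 1‖ * ‖v 0‖)])
  nlinarith [mul_pos hq h0, mul_le_mul_of_nonpos_left h3 h1.le]

theorem u2_sum (t : Fin 2) (f : Fin 2 → ℝ) : ∑ k, f k = f t + f t.rev := by
  fin_cases t <;> simp [add_comm]

theorem u2_ne (t : Fin 2) : t.rev ≠ t := by revert t; decide

theorem u2_off (F : Fn) (t : Fin 2) {z : E 2} (hz : z t ≠ 0) : (lv (F.Φ t) z).PosDef := by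
  obtain ⟨r, hr⟩ := IsAlgClosed.exists_pow_nat_eq (z t) two_pos
  have r0 : r ≠ 0 := fun h => hz (by rw [← hr, h]; simp)
  set b : E 2 := fun k => if k = t then r else r * z k with hb
  have bt : b t = r := by simp [hb]
  have cb : cc t b = z := by
    funext k
    by_cases h : k = t
    · simp [cc, h, bt, hr]
    · simp only [cc, h, if_false, if_true, hb]
      field_simp
  have n1 : ∀ y : E 2, nq 1 y = ‖y t‖ ^ 2 + ‖y t.rev‖ ^ 2 := fun y => by
    simp only [nq, Pi.one_apply, one_mul]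
    exact u2_sum t _
  have ev : ∀ᶠ y in 𝓝 b, y t ≠ 0 := (continuous_apply t).continuousAt.eventually_ne (bt ▸ r0)
  have an : ∀ k, AnalyticAt ℂ (fun y : E 2 => y k) b := fun k =>
    (ContinuousLinearMap.proj (R := ℂ) (φ := fun _ : Fin 2 => ℂ) k).analyticAt b
  have hc : AnalyticAt ℂ (cc t) b := by
    refine analyticAt_pi_iff.2 fun k => ?_
    by_cases h : k = t
    · simp only [cc, h, if_true]
      exact (an t).fun_pow 2
    · simp only [cc, h, if_false]
      exact (an k).fun_div (an t) (bt ▸ r0)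
  have N0 : 0 < nq 1 b := by
    rw [n1, bt]
    have := norm_pos_iff.2 r0
    positivity
  have dY : ∀ s, HasDerivAt F.Y (deriv F.Y s) s := fun s =>
    (F.Y_smooth.differentiable (by simp) s).hasDerivAt
  have dY' : ∀ s, HasDerivAt (deriv F.Y) (deriv (deriv F.Y) s) s := fun s =>
    ((contDiff_infty_iff_deriv.1 F.Y_smooth).2.differentiable (by simp) s).hasDerivAt
  have h1 : ∀ᶠ s in 𝓝 (nq 1 b), HasDerivAt (fun s => F.ε * Real.log s + F.Y s)
      (F.ε * s⁻¹ + deriv F.Y s) s := by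
    filter_upwards [eventually_ne_nhds N0.ne'] with s hs
    exact ((Real.hasDerivAt_log hs).const_mul _).add (dY s)
  have h2 : HasDerivAt (fun s => F.ε * s⁻¹ + deriv F.Y s) _ (nq 1 b) :=
    ((hasDerivAt_inv N0.ne').const_mul _).add (dY' _)
  have key := lv_change (f := fun y => F.ε * Real.log (nq 1 y) + F.Y (nq 1 y)) (g := F.Φ t)
    (φ := cc t) (z := b) (F.Φ_smooth t).contDiffAt hc
    (((PH.log (an t) (bt ▸ r0)).smul (2 * F.ε)).congr (by
      filter_upwards [ev] with y hy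
      have a0 : ‖y t‖ ≠ 0 := norm_ne_zero_iff.2 hy
      have a1 : nq 1 y = ‖y t‖ ^ 2 * (1 + (‖y t.rev‖ / ‖y t‖) ^ 2) := by
        rw [n1]
        field_simp
      simp only [Fn.Φ, cc, if_true, u2_ne t, if_false, norm_pow, norm_div, ← a1]
      rw [a1, Real.log_mul (pow_ne_zero 2 a0) (by positivity), Real.log_pow]
      push_cast
      ring))
  rw [cb] at key
  refine u2_mid (J := jac (cc t) b) ?_
  rw [← key]
  refine u2_rad (x := b) (p := F.ε * (nq 1 b)⁻¹ + deriv F.Y (nq 1 b))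
    (q := F.ε * -((nq 1 b) ^ 2)⁻¹ + deriv (deriv F.Y) (nq 1 b)) (F.X_one _ N0) ?_ fun a c => ?_
  · have e : ‖b 0‖ ^ 2 + ‖b 1‖ ^ 2 = nq 1 b := by simp [nq]
    rw [e]
    refine (F.X_two _ N0).trans_eq ?_
    field_simp
    ring
  · rw [lv_rad 1 h1 h2]
    simp

theorem u2_on (F : Fn) (t : Fin 2) {z : E 2} (hz : z t = 0) : (lv (F.Φ t) z).PosDef := by
  have an : ∀ k, AnalyticAt ℂ (fun y : E 2 => y k) z := fun k =>
    (ContinuousLinearMap.proj (R := ℂ) (φ := fun _ : Fin 2 => ℂ) k).analyticAt z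
  set h : E 2 → E 2 := fun y => ![y t * y t.rev, y t * y t.rev ^ 2] with hh
  have hc : AnalyticAt ℂ h z := by
    refine analyticAt_pi_iff.2 fun k => ?_
    fin_cases k
    exacts [(an t).mul (an _), (an t).mul ((an _).pow 2)]
  have n1 : ∀ y : E 2, nq (Pi.single t.rev 1) y = ‖y t.rev‖ ^ 2 := fun y => by
    rw [nq, u2_sum t]
    simp [(u2_ne t).symm]
  have n2 : ∀ y : E 2, nq (Pi.single t (1 / 2)) y = ‖y t‖ ^ 2 / 2 := fun y => by
    rw [nq, u2_sum t]
    simp [u2_ne t]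
    ring
  have e : F.Φ t =ᶠ[𝓝 z] fun y => (nq (Pi.single t (1 / 2)) y +
      F.ε * Real.log (1 + nq (Pi.single t.rev 1) y)) + nq ![1, 1 / 2] (h y) := by
    filter_upwards [u2_near F t hz] with y hy
    rw [Fn.Φ, hy, n1, n2]
    simp [nq, hh]
    ring
  have p0 : ∀ y : E 2, 0 < 1 + nq (Pi.single t.rev 1) y := fun y => by rw [n1]; positivity
  have s1 : ContDiff ℝ ∞ fun y => F.ε * Real.log (1 + nq (Pi.single t.rev 1) y) :=
    contDiff_const.mul ((contDiff_const.add (nq_smooth _)).log fun y => (p0 y).ne')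
  have l1 : ∀ (s : Fin 2 → ℝ) (x : E 2), lv (nq s) x = Matrix.diagonal fun a => (s a : ℂ) := by
    intro s x
    ext a b
    have := lv_rad (X := fun u => u) (X' := fun _ => 1) (X'' := 0) s (x := x)
      (Eventually.of_forall fun u => hasDerivAt_id u) (hasDerivAt_const _ _) a b
    rw [show lv (nq s) x a b = _ from this]
    by_cases e : b = a <;> simp [e, eq_comm (a := a)]
  set m := nq (Pi.single t.rev 1) z with hm
  have m0 : 0 < 1 + m := p0 z
  have h1 : ∀ᶠ s in 𝓝 m, HasDerivAt (fun s => F.ε * Real.log (1 + s)) (F.ε * (1 + s)⁻¹) s := by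
    have hc : ContinuousAt (fun s : ℝ => 1 + s) m := by fun_prop
    filter_upwards [hc.eventually_ne m0.ne'] with s hs
    exact ((((hasDerivAt_id s).const_add 1).log hs).const_mul _).congr_deriv (by simp)
  have h2 : HasDerivAt (fun s => F.ε * (1 + s)⁻¹) (F.ε * (-1 / (1 + m) ^ 2)) m :=
    (((hasDerivAt_id m).const_add 1).inv m0.ne').const_mul _
  have l2 : lv (fun y => F.ε * Real.log (1 + nq (Pi.single t.rev 1) y)) z =
      Matrix.diagonal fun a => ((Pi.single t.rev (F.ε / (1 + m) ^ 2) : Fin 2 → ℝ) a : ℂ) := by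
    ext a b
    rw [lv_rad (X := fun s => F.ε * Real.log (1 + s)) _ h1 h2]
    have e1 : (m : ℂ) = star (z t.rev) * z t.rev := by
      rw [hm, n1, ← Complex.normSq_eq_norm_sq, ← Complex.mul_conj, mul_comm]
      rfl
    have e2 : (1 + m : ℂ) ≠ 0 := by exact_mod_cast m0.ne'
    by_cases ha : a = t.rev
    · by_cases hb : b = t.rev
      · subst ha hb
        simp only [if_true, Pi.single_eq_same, Matrix.diagonal_apply_eq, ← hm]
        push_cast
        rw [one_mul, one_mul, mul_assoc _ (star _), ← e1]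
        field_simp
        ring
      · subst ha
        simp [hb, Ne.symm hb]
    · by_cases hb : b = a <;> simp [ha, hb, Matrix.diagonal_apply]
  rw [lv_congr e, lv_add (g := fun y => nq ![1, 1 / 2] (h y)) ((nq_smooth _).add s1).contDiffAt
    ((nq_smooth _).contDiffAt.comp z (an_smooth hc)), lv_add (nq_smooth _).contDiffAt s1.contDiffAt,
    lv_comp (nq_smooth _).contDiffAt hc, l1, l1, l2, Matrix.diagonal_add, u2_tr]
  refine (Matrix.PosDef.diagonal fun a => ?_).add_posSemidef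
    ((Matrix.PosSemidef.diagonal fun a => ?_).conjTranspose_mul_mul_same _)
  · rw [← Complex.ofReal_add, Complex.zero_lt_real]
    have := F.ε_pos
    by_cases ha : a = t
    · subst ha
      simp [(u2_ne a).symm]
    · have : a = t.rev := (by decide : ∀ a t : Fin 2, a ≠ t → a = t.rev) a t ha
      subst this
      simp only [Pi.single_eq_same, Pi.single_eq_of_ne ha]
      positivity
  · fin_cases a <;> simp

theorem Fn.Φ_pos (F : Fn) (t : Fin 2) (z : E 2) : (lv (F.Φ t) z).PosDef := by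
  by_cases hz : z t = 0
  exacts [u2_on F t hz, u2_off F t hz]

end Pool.Agent.Kum
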