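import Pool.Agent.P.MP_63735c_ag.Kum.V
import Pool.Agent.P.MP_63735c_ag.Kum.F
import Pool.Agent.P.MP_63735c_ag.Kum.U1
import Pool.Agent.P.MP_63735c_ag.Kum.U2
import Pool.Agent.P.MP_63735c_ag.Kum.A

/-! The Kummer surface as a gluing datum. -/

namespace Pool.Agent.Kum

open Pool.Agent.SPF

/-- The gluing datum of the Kummer surface. -/
noncomputable def kummer (F : Fn) : Glue XX where
  ι := Ix
  W i := WW i.2
  p := pp
  ψ i := F.ψ i.2
  Φ i := F.Φ i.2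
  g := gg
  isOpen i := isOpen_WW i.2
  cont := pp_cont
  inj := pp_inj
  opn := pp_opn F
  cover := pp_cover
  trans _ _ _ hz _ hy e := pp_trans F hz hy e
  g_mul := gg_mul
  ψ_eq _ _ _ hz _ hy e := ψ_eq0 F hz hy e
  ψ_smooth i := F.ψ_smooth i.2
  Φ_smooth i := F.Φ_smooth i.2
  ψ_psd i := F.ψ_psd i.2
  ψ_det i := F.ψ_det i.2
  ψ_ne := ⟨(0, 0), F.ψ_ne⟩
  Φ_pos i := F.Φ_pos i.2
  Q := QQ
  Q_loc _ := QQ_loc
  Q_neg _ := QQ_neg
  Q_per _ := QQ_per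
  Q_dense _ _ := QQ_dense

theorem exists_glue : ∃ (X : Type) (_ : TopologicalSpace X) (_ : T2Space X) (_ : CompactSpace X),
    Nonempty (Glue X) := by
  obtain ⟨F⟩ := exists_Fn
  exact ⟨XX, inferInstance, XX_t2 F, XX_cpt, ⟨kummer F⟩⟩

end Pool.Agent.Kum
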