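import Pool.Agent.P.MP_63735c_ag.Kum.G2
import Pool.Agent.P.MP_63735c_ag.Kum.F

/-! The ambient potentials of the nodal surface. -/

open scoped ComplexOrder ContDiff Matrix Topology
open Filter

namespace Pool.Agent.Kum

open Pool.Agent.SPF

theorem exists_Fz : Nonempty Fz := by
  obtain ⟨P, p1, p2, p3⟩ := fprim (γ := fun s => fstep s * (1 - s))
    (fstep_smooth.mul (contDiff_const.sub contDiff_id)) fun t ht => by rw [fstep_zero ht, zero_mul]
  have y1 : ∀ t, HasDerivAt (fun t => t ^ 2 / 2 + P t) (t + fstep t * (1 - t)) t := fun t =>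
    (((hasDerivAt_pow 2 t).div_const 2).add (p2 t)).congr_deriv (by simp)
  have yd : deriv (fun t => t ^ 2 / 2 + P t) = fun t => t + fstep t * (1 - t) :=
    funext fun t => (y1 t).deriv
  refine ⟨⟨_, fun t => t ^ 2 / 2 + P t, ((contDiff_id.pow 2).div_const 2).add p1,
    fun t ht => by rw [p3 t ht, add_zero], fconst fun t ht => (y1 t).congr_deriv ?_,
    fun t ht => ?_, fun t ht => ?_⟩⟩
  · rw [fstep_one ht]
    ring
  · rw [yd]
    have h2 := fstep_mem t
    rcases h2.1.eq_or_lt with h | h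
    · simp only [← h]; linarith
    · nlinarith [mul_nonneg (sub_nonneg.2 h2.2) ht.le]
  · rw [yd]
    have d1 := (fstep_smooth.differentiable (by simp) t).hasDerivAt
    have d3 : HasDerivAt (fun t => t + fstep t * (1 - t)) _ t :=
      (hasDerivAt_id t).add (d1.mul ((hasDerivAt_id t).const_sub 1))
    rw [d3.deriv]
    beta_reduce
    have h2 := fstep_mem t
    have h3 := fstep_key (t := t)
    have h4 := fstep_deriv t
    rcases h2.1.eq_or_lt with h | h
    · simp only [← h]; nlinarith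
    · nlinarith [mul_nonneg (sub_nonneg.2 h2.2) ht.le]

theorem u3_nn (w : E 3) : 0 ≤ nq ![1, 2, 1] w :=
  Finset.sum_nonneg fun k _ => mul_nonneg (by fin_cases k <;> simp) (sq_nonneg _)

theorem u3_near (F : Fz) {w : E 3} (h : nq ![1, 2, 1] w = 0) :
    F.Φa =ᶠ[𝓝 w] fun y => nq ![1, 2, 1] y / 2 := by
  have hc : ContinuousAt (fun y : E 3 => Real.sqrt (nq ![1, 2, 1] y)) w :=
    (nq_smooth _).continuous.sqrt.continuousAt
  filter_upwards [hc.eventually_lt_const (u := 1 / 100) (by simp [h])] with y hy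
  rw [Fz.Φa, F.Y_sq _ hy.le, Real.sq_sqrt (u3_nn y)]

theorem Fz.Φa_smooth (F : Fz) : ContDiff ℝ ∞ F.Φa := by
  refine contDiff_iff_contDiffAt.2 fun w => ?_
  by_cases h : nq ![1, 2, 1] w = 0
  · exact ((nq_smooth _).div_const 2).contDiffAt.congr_of_eventuallyEq (u3_near F h)
  · exact F.Y_smooth.contDiffAt.comp w ((nq_smooth _).contDiffAt.sqrt h)

theorem u3_rad {N : ℕ} {M : Matrix (Fin N) (Fin N) ℂ} {p q : ℝ} {s : Fin N → ℝ} {x : E N}
    (hs : ∀ a, 0 < s a) (hp : 0 < p) (hq : 0 < p + nq s x * q)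
    (h : ∀ a b, M a b = (if b = a then (p * s a : ℂ) else 0) +
      q * (s a * star (x a)) * (s b * x b)) : M.PosDef := by
  refine Matrix.PosDef.of_dotProduct_mulVec_pos ?_ fun v hv => ?_
  · ext a b
    rw [Matrix.conjTranspose_apply, h, h]
    by_cases e : b = a <;> simp [e, eq_comm (a := a)] <;> ring
  have e0 : ∀ u : ℂ, ((‖u‖ ^ 2 : ℝ) : ℂ) = star u * u := fun u => by
    rw [← Complex.normSq_eq_norm_sq, ← Complex.mul_conj, mul_comm]
    rfl
  have e : star v ⬝ᵥ M *ᵥ v = ((p * nq s v + q * ‖∑ a, s a * x a * v a‖ ^ 2 : ℝ) : ℂ) := by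
    rw [Complex.ofReal_add, Complex.ofReal_mul, Complex.ofReal_mul, e0, star_sum,
      Finset.sum_mul_sum, nq, Complex.ofReal_sum]
    simp only [dotProduct, Matrix.mulVec, h, add_mul, ite_mul, zero_mul, Finset.sum_add_distrib,
      Finset.sum_ite_eq', Finset.mem_univ, if_true, mul_add, Finset.mul_sum, Complex.ofReal_mul, e0,
      Pi.star_apply, star_mul', Complex.star_def, Complex.conj_ofReal]
    refine congrArg₂ (· + ·) (Finset.sum_congr rfl fun a _ => by ring)
      (Finset.sum_congr rfl fun a _ => Finset.sum_congr rfl fun b _ => by ring)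
  rw [e, Complex.zero_lt_real]
  have h0 : 0 < nq s v := by
    obtain ⟨k, hk⟩ := Function.ne_iff.1 hv
    exact Finset.sum_pos' (fun a _ => mul_nonneg (hs a).le (sq_nonneg _))
      ⟨k, Finset.mem_univ _, mul_pos (hs k) (pow_pos (norm_pos_iff.2 hk) 2)⟩
  rcases le_or_gt 0 q with h1 | h1
  · positivity
  have h2 : ‖∑ a, s a * x a * v a‖ ≤ ∑ a, s a * ‖x a‖ * ‖v a‖ :=
    (norm_sum_le _ _).trans_eq (Finset.sum_congr rfl fun a _ => by
      rw [norm_mul, norm_mul, Complex.norm_real, Real.norm_of_nonneg (hs a).le])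
  have h3 : ‖∑ a, s a * x a * v a‖ ^ 2 ≤ nq s x * nq s v :=
    (pow_le_pow_left₀ (norm_nonneg _) h2 2).trans
      (Finset.sum_sq_le_sum_mul_sum_of_sq_le_mul _
        (fun a _ => mul_nonneg (hs a).le (sq_nonneg _))
        (fun a _ => mul_nonneg (hs a).le (sq_nonneg _)) fun a _ => le_of_eq (by ring))
  nlinarith [mul_pos hq h0, mul_le_mul_of_nonpos_left h3 h1.le]

theorem Fz.Φa_pos (F : Fz) (w : E 3) : (lv F.Φa w).PosDef := by
  have hs : ∀ a : Fin 3, (0 : ℝ) < ![1, 2, 1] a := fun a => by fin_cases a <;> simp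
  rcases (u3_nn w).eq_or_lt with h | h
  · rw [lv_congr (u3_near F h.symm)]
    exact u3_rad (p := 1 / 2) (q := 0) hs (by norm_num) (by norm_num) fun a b =>
      lv_rad (X := fun u => u / 2) (X' := fun _ => 1 / 2) _
        (Eventually.of_forall fun u => (hasDerivAt_id u).div_const 2) (hasDerivAt_const _ _) a b
  set u := nq ![1, 2, 1] w with hu
  have r0 : 0 < √u := Real.sqrt_pos.2 h
  have dY : ∀ s, HasDerivAt F.Y (deriv F.Y s) s := fun s =>
    (F.Y_smooth.differentiable (by simp) s).hasDerivAt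
  have dY' : ∀ s, HasDerivAt (deriv F.Y) (deriv (deriv F.Y) s) s := fun s =>
    ((contDiff_infty_iff_deriv.1 F.Y_smooth).2.differentiable (by simp) s).hasDerivAt
  have h1 : ∀ᶠ s in 𝓝 u, HasDerivAt (fun s => F.Y (√s)) (deriv F.Y (√s) * (1 / (2 * √s))) s := by
    filter_upwards [eventually_ne_nhds h.ne'] with s hs
    exact (dY _).comp s (Real.hasDerivAt_sqrt hs)
  have d0 := Real.hasDerivAt_sqrt h.ne'
  have h2 : HasDerivAt (fun s => deriv F.Y (√s) * (1 / (2 * √s))) _ u :=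
    ((dY' _).comp u d0).mul ((hasDerivAt_const u 1).div (d0.const_mul 2) (by positivity))
  refine u3_rad hs (mul_pos (F.X_one _ r0) (by positivity)) ?_
    (lv_rad (X := fun s => F.Y (√s)) (X' := fun s => deriv F.Y (√s) * (1 / (2 * √s))) _ h1 h2)
  refine (div_pos (F.X_two _ r0) (show 0 < 4 * √u by positivity)).trans_eq ?_
  rw [← hu]
  obtain ⟨r, hr, e⟩ : ∃ r, √u = r ∧ u = r ^ 2 := ⟨_, rfl, (Real.sq_sqrt h.le).symm⟩
  simp only [Function.comp_def, hr] at r0 ⊢
  rw [e]
  field_simp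
  ring

theorem Fn.ψa_smooth (F : Fn) : ContDiff ℝ ∞ F.ψa := by
  refine contDiff_const.mul (contDiff_iff_contDiffAt.2 fun w => ?_)
  by_cases h : w 0 = 0
  · refine (contDiffAt_const (c := 0)).congr_of_eventuallyEq ?_
    have hc : ContinuousAt (fun y : E 3 => ‖y 0‖) w := (continuous_apply 0).norm.continuousAt
    filter_upwards [hc.eventually_lt_const (u := 1 / 100) (by simp [h])] with y hy
    exact F.χ_zero _ hy.le
  · exact F.χ_smooth.contDiffAt.comp w ((contDiff_apply ℝ ℂ 0).contDiffAt.norm ℂ h)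

theorem Fz.Φa_qq (F : Fz) (t : Fin 2) (z : E 2) :
    F.Φa (qq t z) = F.Y (‖z t‖ * (1 + ‖z t.rev‖ ^ 2)) := by
  rw [Fz.Φa, ← Real.sqrt_sq (show 0 ≤ ‖z t‖ * (1 + ‖z t.rev‖ ^ 2) by positivity)]
  refine congrArg (fun s => F.Y (√s)) ?_
  fin_cases t <;> simp [nq, qq, Fin.sum_univ_three] <;> ring

end Pool.Agent.Kum
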