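import Pool.Agent.P.MP_63735c_ag.Kum.G2
import Pool.Agent.P.MP_63735c_ag.Kum.U1

/-! The invariants of degree two in the charts of the Kummer surface. -/

open scoped ComplexOrder ContDiff Matrix Topology
open Filter

namespace Pool.Agent.Kum

open Pool.Agent.SPF

theorem qq_an (t : Fin 2) (z : E 2) : AnalyticAt ℂ (qq t) z := by
  have c : ∀ k : Fin 2, AnalyticAt ℂ (fun w : E 2 => w k) z := fun k =>
    (ContinuousLinearMap.proj (R := ℂ) (φ := fun _ : Fin 2 => ℂ) k).analyticAt z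
  refine analyticAt_pi_iff.2 fun k => ?_
  unfold qq
  by_cases h : t = 0
  · simp only [h, if_true]
    fin_cases k
    · exact c 0
    · exact (c 0).mul (c 1)
    · exact (c 0).mul ((c 1).pow 2)
  · simp only [h, if_false]
    fin_cases k
    · exact (c 1).mul ((c 0).pow 2)
    · exact (c 1).mul (c 0)
    · exact c 1

theorem u3b_jac0 (z : E 2) : jac (qq 0) z = !![1, 0; z 1, z 0; z 1 ^ 2, 2 * (z 0 * z 1)] := by
  have d := (qq_an 0 z).differentiableAt
  have r : ∀ k : Fin 2, DifferentiableAt ℝ (fun w : E 2 => w k) z := fun k =>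
    differentiableAt_apply k z
  have e0 : (fun w : E 2 => qq 0 w 0) = fun w => w 0 := by funext w; simp [qq]
  have e1 : (fun w : E 2 => qq 0 w 1) = fun w => w 0 * w 1 := by funext w; simp [qq]
  have e2 : (fun w : E 2 => qq 0 w 2) = fun w => w 0 * (w 1 * w 1) := by
    funext w; simp [qq, pow_two]
  have j0 : ∀ a, jac (qq 0) z 0 a = if 0 = a then 1 else 0 := fun a => by
    rw [jac_apply d, e0, dz_apply]
  have j1 : ∀ a, jac (qq 0) z 1 a =
      z 0 * (if 1 = a then 1 else 0) + (if 0 = a then 1 else 0) * z 1 := fun a => by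
    rw [jac_apply d, e1, dz_mul (r 0) (r 1), dz_apply, dz_apply]
  have j2 : ∀ a, jac (qq 0) z 2 a =
      z 0 * (z 1 * (if 1 = a then 1 else 0) + (if 1 = a then 1 else 0) * z 1) +
        (if 0 = a then 1 else 0) * (z 1 * z 1) := fun a => by
    rw [jac_apply d, e2, dz_mul (r 0) ((r 1).fun_mul (r 1)), dz_mul (r 1) (r 1), dz_apply, dz_apply]
  ext c a
  fin_cases c <;> fin_cases a <;> simp [j0, j1, j2] <;> ring

theorem u3b_jac1 (z : E 2) : jac (qq 1) z = !![2 * (z 0 * z 1), z 0 ^ 2; z 1, z 0; 0, 1] := by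
  have d := (qq_an 1 z).differentiableAt
  have r : ∀ k : Fin 2, DifferentiableAt ℝ (fun w : E 2 => w k) z := fun k =>
    differentiableAt_apply k z
  have e0 : (fun w : E 2 => qq 1 w 0) = fun w => w 1 * (w 0 * w 0) := by
    funext w; simp [qq, pow_two]
  have e1 : (fun w : E 2 => qq 1 w 1) = fun w => w 1 * w 0 := by funext w; simp [qq]
  have e2 : (fun w : E 2 => qq 1 w 2) = fun w => w 1 := by funext w; simp [qq]
  have j2 : ∀ a, jac (qq 1) z 2 a = if 1 = a then 1 else 0 := fun a => by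
    rw [jac_apply d, e2, dz_apply]
  have j1 : ∀ a, jac (qq 1) z 1 a =
      z 1 * (if 0 = a then 1 else 0) + (if 1 = a then 1 else 0) * z 0 := fun a => by
    rw [jac_apply d, e1, dz_mul (r 1) (r 0), dz_apply, dz_apply]
  have j0 : ∀ a, jac (qq 1) z 0 a =
      z 1 * (z 0 * (if 0 = a then 1 else 0) + (if 0 = a then 1 else 0) * z 0) +
        (if 1 = a then 1 else 0) * (z 0 * z 0) := fun a => by
    rw [jac_apply d, e0, dz_mul (r 1) ((r 0).fun_mul (r 0)), dz_mul (r 0) (r 0), dz_apply, dz_apply]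
  ext c a
  fin_cases c <;> fin_cases a <;> simp [j0, j1, j2] <;> ring

theorem qq_pia (t : Fin 2) (z : E 2) :
    pia (qq t z) = jac (qq t) z * aS⁻¹ * (jac (qq t) z)ᵀ := by
  have h : t = 0 ∨ t = 1 := by fin_cases t <;> simp
  rw [aS_inv]
  rcases h with rfl | rfl
  · rw [u3b_jac0]
    ext c d
    fin_cases c <;> fin_cases d <;>
      simp [pia, qq, aS, Matrix.mul_apply, Fin.sum_univ_two] <;> ring
  · rw [u3b_jac1]
    ext c d
    fin_cases c <;> fin_cases d <;>
      simp [pia, qq, aS, Matrix.mul_apply, Fin.sum_univ_two] <;> ring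

theorem u3b_apply {N M : ℕ} (φ : E M → E N) (z v : E M) (c : Fin N) :
    fderiv ℂ φ z v c = ∑ a, jac φ z c a * v a := by
  have : v = ∑ j, v j • (Pi.single j 1 : E M) := by
    ext k; simp [Finset.sum_apply, Pi.single_apply]
  conv_lhs => rw [this]
  simp [jac, map_sum, Finset.sum_apply, mul_comm]

theorem qq_inj {t : Fin 2} {z : E 2} (h : z t ≠ 0) : Function.Injective (fderiv ℂ (qq t) z) := by
  refine (injective_iff_map_eq_zero (fderiv ℂ (qq t) z)).2 fun v hv => ?_
  have e : ∀ c, ∑ a, jac (qq t) z c a * v a = 0 := fun c => by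
    rw [← u3b_apply, hv]; rfl
  have ht : t = 0 ∨ t = 1 := by fin_cases t <;> simp
  rcases ht with rfl | rfl
  · have e0 := e 0
    have e1 := e 1
    rw [u3b_jac0] at e0 e1
    have v0 : v 0 = 0 := by simpa [Fin.sum_univ_two] using e0
    have v1 : v 1 = 0 := by simpa [Fin.sum_univ_two, v0, h] using e1
    ext k
    fin_cases k
    · exact v0
    · exact v1
  · have e2 := e 2
    have e1 := e 1
    rw [u3b_jac1] at e2 e1
    have v1 : v 1 = 0 := by simpa [Fin.sum_univ_two] using e2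
    have v0 : v 0 = 0 := by simpa [Fin.sum_univ_two, v1, h] using e1
    ext k
    fin_cases k
    · exact v0
    · exact v1

theorem Fn.ψ_ne' (F : Fn) : ∃ z ∈ WW 0, z 0 ≠ 0 ∧ lv (F.ψ 0) z ≠ 0 := by
  obtain ⟨z, hz, h⟩ := F.ψ_ne
  refine ⟨z, hz, fun h0 => h ?_, h⟩
  have v : mmv 0 z 0 = 0 := by simp [mmv, mm, h0]
  rw [F.lv_ψ, lv_congr (F.rad_zero (by rw [v]; norm_num)), lv_zero1]
  simp

end Pool.Agent.Kum
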