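import Pool.Agent.P.MP_63735c_ag.Kum.S2
import Pool.Agent.P.MP_63735c_ag.Kum.N2

/-! The local embeddings of the nodal Kummer surface. -/

open scoped ComplexOrder ContDiff Matrix Topology
open Filter

namespace Pool.Agent.Kum

open Pool.Agent.SPF

variable {t t' : Fin 2} {z y b b' : E 2} {i : Ix} {μ μ' : Fin 2 → GaussianInt} {P Q : Cl}

/-- Small vectors. -/
def Sm (b : E 2) : Prop := ∀ k, ‖b k‖ < 4 / 5

theorem Sm.neg (h : Sm b) : Sm (-b) := fun k => by rw [Pi.neg_apply, norm_neg]; exact h k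

theorem Sm.ev {T : Type} [TopologicalSpace T] {f : T → E 2} {x : T} (hf : ContinuousAt f x)
    (h : Sm (f x)) : ∀ᶠ w in 𝓝 x, Sm (f w) :=
  eventually_all.2 fun k => ((continuous_apply k).continuousAt.comp hf).norm.eventually_lt
    continuousAt_const (h k)

theorem Sm.ev' (h : Sm b) : ∀ᶠ w in 𝓝 b, Sm w := Sm.ev (f := fun w => w) continuousAt_id h

/-- A lattice point in a given class. -/
noncomputable def lf (P : Cl) : Fin 2 → GaussianInt := (cls_surj P).choose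

theorem cls_lf (P : Cl) : cls (lf P) = P := (cls_surj P).choose_spec

theorem pr_cls (b : E 2) (h : cls μ = cls μ') : pr (b + emb μ) = pr (b + emb μ') :=
  pr_eq.2 ⟨μ' + -μ, by rw [cls_add, cls_neg, h, cl_self],
    Or.inl (by rw [emb_add, emb_neg]; abel)⟩

theorem pr_neg (b : E 2) (μ : Fin 2 → GaussianInt) : pr (-b + emb μ) = pr (b + emb μ) :=
  pr_eq.2 ⟨μ + μ, by rw [cls_add, cl_self], Or.inr (by rw [emb_add]; abel)⟩

theorem pr_link (h : pr (b + emb μ) = pr (b' + emb μ')) :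
    ∃ ν, cls ν = cls μ + cls μ' ∧ (b' = b + emb ν ∨ b' = -b + emb ν) := by
  obtain ⟨l, c, e | e⟩ := pr_eq.1 h
  · exact ⟨μ + l + -μ', by rw [cls_add, cls_add, cls_neg, c, add_zero],
      Or.inl (by simp only [emb_add, emb_neg]; linear_combination e)⟩
  · exact ⟨-μ + l + -μ', by rw [cls_add, cls_add, cls_neg, cls_neg, c, add_zero],
      Or.inr (by simp only [emb_add, emb_neg]; linear_combination e)⟩

theorem sm_zero {ν : Fin 2 → GaussianInt} (h : Sm b) (h' : Sm (b + emb ν)) (c : cls ν = 0) :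
    ν = 0 := even_small c fun k => by
  have : emb ν k = (b + emb ν) k - b k := by simp
  rw [this]
  linarith [norm_sub_le ((b + emb ν) k) (b k), h k, h' k]

theorem pr_uniq (h : Sm b) (h' : Sm b') (e : pr (b + emb μ) = pr (b' + emb μ)) :
    b' = b ∨ b' = -b := by
  obtain ⟨ν, c, rfl | rfl⟩ := pr_link e
  · left; rw [sm_zero h h' (c.trans (cl_self _)), emb_zero, add_zero]
  · right; rw [sm_zero h.neg h' (c.trans (cl_self _)), emb_zero, add_zero]

theorem quad_neg (b : E 2) : quad (-b) = quad b := by simp [quad]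

theorem quad_zero : quad 0 = 0 := by
  ext k; fin_cases k <;> simp [quad]

theorem quad_inj (e : quad b = quad b') : b' = b ∨ b' = -b := by
  have e0 : b 0 ^ 2 = b' 0 ^ 2 := congrFun e 0
  have e1 : b 0 * b 1 = b' 0 * b' 1 := congrFun e 1
  have e2 : b 1 ^ 2 = b' 1 ^ 2 := congrFun e 2
  by_cases h : b 0 = 0
  · have h' : b' 0 = 0 := by simpa [h] using e0.symm
    rcases sq_eq_sq_iff_eq_or_eq_neg.1 e2.symm with c | c
    · exact Or.inl (ext2 0 (by rw [h, h']) c)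
    · exact Or.inr (ext2 0 (by simp [h, h']) c)
  · rcases sq_eq_sq_iff_eq_or_eq_neg.1 e0.symm with c | c
    · rw [c] at e1
      exact Or.inl (ext2 0 c (mul_left_cancel₀ h e1).symm)
    · rw [c] at e1
      refine Or.inr (ext2 0 c ?_)
      show b' 1 = -b 1
      exact mul_left_cancel₀ h (by linear_combination e1)

theorem quad_an (b : E 2) : AnalyticAt ℂ quad b := by
  refine AnalyticAt.pi fun k => ?_
  fin_cases k
  · exact (an_apply 0 b).pow 2
  · exact (an_apply 0 b).mul (an_apply 1 b)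
  · exact (an_apply 1 b).pow 2

theorem Rep.qq (h : Rep t z b) : qq t z = quad b := by
  fin_cases t
  · have h1 : b 0 ^ 2 = z 0 := h.1
    have h2 : b 1 = b 0 * z 1 := h.2
    show ![z 0, z 0 * z 1, z 0 * z 1 ^ 2] = ![_, _, _]
    rw [h2, ← h1]; congr 2 <;> [ring; (congr 1; ring)]
  · have h1 : b 1 ^ 2 = z 1 := h.1
    have h2 : b 0 = b 1 * z 0 := h.2
    show ![z 1 * z 0 ^ 2, z 1 * z 0, z 1] = ![_, _, _]
    rw [h2, ← h1]; congr 1 <;> [ring; (congr 1; ring)]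

/-- The neighbourhood of a node. -/
def VV (P : Cl) : Set XN := {x | ∃ b, Sm b ∧ x = pr (b + emb (lf P))}

/-- The local embedding at a node. -/
noncomputable def zz (P : Cl) (x : XN) : E 3 :=
  Classical.epsilon fun w => ∃ b, Sm b ∧ x = pr (b + emb (lf P)) ∧ w = quad b

theorem zz_spec (h : Sm b) : zz P (pr (b + emb (lf P))) = quad b := by
  obtain ⟨b', h', e, e'⟩ := Classical.epsilon_spec
    (p := fun w => ∃ b', Sm b' ∧ pr (b + emb (lf P)) = pr (b' + emb (lf P)) ∧ w = quad b')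
    ⟨_, b, h, rfl, rfl⟩
  rw [zz, e']
  rcases pr_uniq h h' e with rfl | rfl
  · rfl
  · exact quad_neg _

theorem ev_pr {p : XN → Prop} {c : E 2} (h : ∀ᶠ v in 𝓝 b, p (pr (v + c))) :
    ∀ᶠ x in 𝓝 (pr (b + c)), p x := by
  rw [← pr_open.map_nhds_eq, eventually_map]
  have : ContinuousAt (fun a : E 2 => a - c) (b + c) := by fun_prop
  have h2 := this.eventually (p := fun v => p (pr (v + c))) (by simpa using h)
  simpa using h2

theorem VV_open (P : Cl) : IsOpen (VV P) := by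
  rw [isOpen_iff_mem_nhds]
  rintro _ ⟨b, h, rfl⟩
  exact ev_pr ((Sm.ev' h).mono fun v hv => ⟨v, hv, rfl⟩)

theorem VV_cover (x : XN) : ∃ P, x ∈ VV P := by
  obtain ⟨a, rfl⟩ := Quotient.exists_rep x
  refine ⟨cls (rd a), a + emb (-rd a), rd_lt a, ?_⟩
  rw [pr_cls _ (cls_lf _), emb_neg, neg_add_cancel_right]
  rfl

theorem zz_cont (P : Cl) : ContinuousOn (zz P) (VV P) := by
  rintro _ ⟨b, h, rfl⟩
  refine ContinuousAt.continuousWithinAt fun U hU => ?_
  rw [zz_spec h] at hU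
  refine ev_pr (p := fun x => zz P x ∈ U) ?_
  filter_upwards [Sm.ev' h, (quad_an b).continuousAt hU] with v h1 h2
  rwa [zz_spec h1]

theorem zz_inj (P : Cl) : Set.InjOn (zz P) (VV P) := by
  rintro _ ⟨b, h, rfl⟩ _ ⟨b', h', rfl⟩ e
  rw [zz_spec h, zz_spec h'] at e
  rcases quad_inj e with rfl | rfl
  · rfl
  · exact (pr_neg _ _).symm

theorem sm_DD (h : Sm b) (h0 : b ≠ 0) : b + emb μ ∈ DD := fun μ' e => by
  have e1 : emb (μ' + -μ) = b := by rw [emb_add, emb_neg, ← e]; abel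
  have e2 : μ' + -μ = 0 := all_small fun k => by rw [e1]; exact (h k).trans (by norm_num)
  rw [e2, emb_zero] at e1
  exact h0 e1.symm

theorem zz_sing (x : XN) (hx : x ∈ VV P) (h : x ∉ RR) : pia (zz P x) = 0 := by
  obtain ⟨b, hb, rfl⟩ := hx
  have : b = 0 := by_contra fun c => h (mem_RR.2 (sm_DD hb c))
  rw [zz_spec hb, this, quad_zero]
  ext a c
  fin_cases a <;> fin_cases c <;> simp [pia]

/-- The chart coordinates as functions on the ambient space. -/
noncomputable def ca (t : Fin 2) (w : E 3) : E 2 :=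
  if t = 0 then ![w 0, w 1 / w 0] else ![w 1 / w 2, w 2]

theorem an3 (k : Fin 3) (z : E 3) : AnalyticAt ℂ (fun w : E 3 => w k) z :=
  (ContinuousLinearMap.proj (R := ℂ) (φ := fun _ : Fin 3 => ℂ) k).analyticAt z

theorem ca_quad (h : b t ≠ 0) : ca t (quad b) = cc t b := by
  fin_cases t <;> ext k <;> fin_cases k
  · rfl
  · have h' : b 0 ≠ 0 := h
    show b 0 * b 1 / b 0 ^ 2 = b 1 / b 0
    field_simp
  · have h' : b 1 ≠ 0 := h
    show b 0 * b 1 / b 1 ^ 2 = b 0 / b 1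
    field_simp
  · rfl

theorem ca_an (h : b t ≠ 0) : AnalyticAt ℂ (ca t) (quad b) := by
  refine AnalyticAt.pi fun k => ?_
  fin_cases t <;> fin_cases k
  · exact an3 0 _
  · exact (an3 1 _).div (an3 0 _) (pow_ne_zero 2 h)
  · exact (an3 1 _).div (an3 2 _) (pow_ne_zero 2 h)
  · exact an3 2 _

theorem exists_ret (h0 : b ≠ 0) : ∃ r : E 3 → E 2, AnalyticAt ℂ r (quad b) ∧
    ∀ᶠ v in 𝓝 b, r (quad v) = v := by
  obtain ⟨t, h⟩ : ∃ t, b t ≠ 0 := Function.ne_iff.1 h0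
  have r := rep_cc h
  have c0 : cc t b t ≠ 0 := by simpa [cc] using h
  have a : AnalyticAt ℂ (fun w => sec t (cc t b) b (ca t w)) (quad b) :=
    AnalyticAt.comp (g := sec t (cc t b) b) (f := ca t)
      (by rw [ca_quad h]; exact (sec_an c0).self_of_nhds) (ca_an h)
  refine ⟨_, a, ?_⟩
  have c1 : ContinuousAt (fun v : E 2 => sec t (cc t b) b (ca t (quad v)) t + v t) b :=
    ((continuous_apply t).continuousAt.comp (a.continuousAt.comp
      (quad_an b).continuousAt)).add (continuous_apply t).continuousAt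
  have c2 := c1.eventually_ne (y := 0) (by
    simp only [ca_quad h, sec_self r c0, ← two_mul]; exact mul_ne_zero two_ne_zero h)
  filter_upwards [c2, (an_apply t b).continuousAt.eventually_ne h] with v h1 h2
  rw [ca_quad h2] at h1 ⊢
  rcases (rep_cc h2).uniq (rep_sec r c0 (cc t v)) with e | e
  · exact e
  · rw [e] at h1; simp at h1

theorem zz_trans (P Q : Cl) (x : XN) (hx : x ∈ VV P ∩ VV Q) : ∃ φ : E 3 → E 3,
    (∀ᶠ w in 𝓝 (zz P x), DifferentiableAt ℂ φ w) ∧ ∀ᶠ x' in 𝓝 x, zz Q x' = φ (zz P x') := by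
  by_cases e : P = Q
  · subst e
    exact ⟨fun w => w, Eventually.of_forall fun _ => differentiableAt_id,
      Eventually.of_forall fun _ => rfl⟩
  obtain ⟨⟨b₀, h₀, e₀⟩, b', h', e'⟩ := hx
  obtain ⟨b, ν, h, rfl, c, rfl⟩ : ∃ b ν, Sm b ∧ x = pr (b + emb (lf P)) ∧ cls ν = P + Q ∧
      b' = b + emb ν := by
    obtain ⟨ν, c, d | d⟩ := pr_link (e₀.symm.trans e')
    · exact ⟨b₀, ν, h₀, e₀, by rwa [cls_lf, cls_lf] at c, d⟩
    · exact ⟨-b₀, ν, h₀.neg, e₀.trans (pr_neg _ _).symm, by rwa [cls_lf, cls_lf] at c, d⟩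
  have b0 : b ≠ 0 := by
    rintro rfl
    have : ν = 0 := all_small fun k => by simpa using (h' k).trans (by norm_num : (4 / 5 : ℝ) < 1)
    rw [this, cls_zero] at c
    exact e (by rw [← add_zero P, ← cl_self Q, ← add_assoc, ← c, zero_add])
  obtain ⟨r, a, er⟩ := exists_ret b0
  refine ⟨fun w => quad (r w + emb ν), ?_, ev_pr ?_⟩
  · rw [zz_spec h]
    exact ((quad_an _).comp (a.add analyticAt_const)).eventually_analyticAt.mono
      fun w hw => hw.differentiableAt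
  · filter_upwards [er, Sm.ev' h,
      Sm.ev (f := fun v => v + emb ν) (by fun_prop) h'] with v h1 h2 h3
    have : pr (v + emb (lf P)) = pr (v + emb ν + emb (lf Q)) := by
      rw [add_assoc, ← emb_add]
      exact pr_cls _ (by rw [cls_add, c, cls_lf, cls_lf, add_assoc, cl_self, add_zero])
    rw [zz_spec h2, h1, this, zz_spec h3]

theorem zz_pp (hz : z ∈ WW t) : zz P (rho (pp (P, t) z)) = qq t z := by
  obtain ⟨b, r⟩ := exists_rep t z
  rw [rho_pp (i := (P, t)) hz r (cls_lf P), zz_spec (r.mem_iff.1 hz), r.qq]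

theorem in_chart {y : XX} (h : rho y ∈ VV P) : ∃ t, ∃ w ∈ WW t, pp (P, t) w = y := by
  obtain ⟨b, hb, e⟩ := h
  obtain ⟨i, z, hz, rfl⟩ := pp_cover y
  obtain ⟨b₁, ν, r, c, rfl⟩ : ∃ b₁ ν, Rep i.2 z b₁ ∧ cls ν = i.1 + P ∧ b = b₁ + emb ν := by
    obtain ⟨b₁, r⟩ := exists_rep i.2 z
    rw [rho_pp hz r (cls_lf _)] at e
    obtain ⟨ν, c, d | d⟩ := pr_link e
    · exact ⟨b₁, ν, r, by rwa [cls_lf, cls_lf] at c, d⟩
    · exact ⟨-b₁, ν, r.neg, by rwa [cls_lf, cls_lf] at c, d⟩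
  by_cases ν0 : ν = 0
  · have : i.1 = P := by
      rw [ν0, cls_zero] at c
      rw [← add_zero i.1, ← cl_self P, ← add_assoc, ← c, zero_add]
    exact ⟨i.2, z, hz, by rw [← this]⟩
  · have b0 : b₁ + emb ν ≠ 0 := fun d => ν0 (all_small fun k => by
      have : emb ν k = -b₁ k := eq_neg_of_add_eq_zero_right (congrFun d k)
      rw [this, norm_neg]
      exact (r.mem_iff.1 hz k).trans (by norm_num))
    obtain ⟨t, h⟩ : ∃ t, (b₁ + emb ν) t ≠ 0 := Function.ne_iff.1 b0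
    have m := (rep_cc h).mem_iff.2 hb
    have lk : Lk i (P, t) z (cc t (b₁ + emb ν)) b₁ ν := ⟨c, r, rep_cc h⟩
    exact ⟨t, _, m, ((pp_eq (j := (P, t)) hz m).2
      (lk.rl hz m fun d => ν0 (lk.node m d).2.1)).symm⟩

theorem zz_normal (P : Cl) (x : XN) (hx : x ∈ VV P) (O : Set XN) (hO : IsOpen O) (xO : x ∈ O)
    (f : XN → ℂ) (hf : ∀ i : Ix, DifferentiableOn ℂ (fun w => f (rho (pp i w)))
      {w | w ∈ WW i.2 ∧ rho (pp i w) ∈ O ∩ RR}) :
    ∃ F : E 3 → ℂ, (∀ᶠ w in 𝓝 (zz P x), DifferentiableAt ℂ F w) ∧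
      ∀ᶠ y in 𝓝 x, y ∈ RR → f y = F (zz P y) := by
  obtain ⟨b, h, rfl⟩ := hx
  have key : ∀ v, Sm v → v ≠ 0 → pr (v + emb (lf P)) ∈ O →
      DifferentiableAt ℂ (fun u => f (pr (u + emb (lf P)))) v := by
    intro v h1 h2 h3
    obtain ⟨t, ht⟩ : ∃ t, v t ≠ 0 := Function.ne_iff.1 h2
    have ee : ∀ u, Sm u → u t ≠ 0 → rho (pp (P, t) (cc t u)) = pr (u + emb (lf P)) :=
      fun u a c => rho_pp (i := (P, t)) ((rep_cc c).mem_iff.2 a) (rep_cc c) (cls_lf P)
    have op : IsOpen {w | w ∈ WW t ∧ rho (pp (P, t) w) ∈ O ∩ RR} :=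
      (rho_cont.comp_continuousOn (pp_cont (P, t))).isOpen_inter_preimage (isOpen_WW t)
        (hO.inter RR_open)
    have d := ((hf (P, t)).differentiableAt (op.mem_nhds ⟨(rep_cc ht).mem_iff.2 h1, by
      rw [ee v h1 ht]; exact ⟨h3, mem_RR.2 (sm_DD h1 h2)⟩⟩)).comp v (cc_an ht).differentiableAt
    refine d.congr_of_eventuallyEq ?_
    filter_upwards [Sm.ev' h1, (an_apply t v).continuousAt.eventually_ne ht]
      with u a c
    exact congrArg f (ee u a c).symm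
  have cO : ∀ᶠ v in 𝓝 b, pr (v + emb (lf P)) ∈ O :=
    (pr_open.continuous.continuousAt.comp (f := fun v : E 2 => v + emb (lf P))
      (by fun_prop)).eventually (hO.mem_nhds xO)
  rw [zz_spec h]
  by_cases b0 : b = 0
  · subst b0
    obtain ⟨δ, hδ, s⟩ := Metric.eventually_nhds_iff_ball.1 (cO.and (Sm.ev' h))
    obtain ⟨F, dF, eF⟩ := even_descent hδ (g := fun u => f (pr (u + emb (lf P))))
      (fun v hv => (key v (s v hv.1).2 hv.2 (s v hv.1).1).differentiableWithinAt)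
      (fun v _ => by simp only [pr_neg])
    refine ⟨F, by rwa [quad_zero], ev_pr ?_⟩
    filter_upwards [eF, Sm.ev' h] with v h1 h2 h3
    rw [zz_spec h2]
    refine h1 fun c => mem_RR.1 h3 (lf P) (by rw [c, zero_add])
  · obtain ⟨r, a, er⟩ := exists_ret b0
    have rb : r (quad b) = b := er.self_of_nhds
    refine ⟨fun w => f (pr (r w + emb (lf P))), ?_, ev_pr ?_⟩
    · have t1 : Tendsto r (𝓝 (quad b)) (𝓝 b) := by
        have := a.continuousAt.tendsto
        rwa [rb] at this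
      filter_upwards [a.eventually_analyticAt, t1.eventually cO,
        t1.eventually (Sm.ev' h), t1.eventually (eventually_ne_nhds b0)]
        with w h1 h2 h3 h4
      exact (key _ h3 h4 h2).comp w h1.differentiableAt
    · filter_upwards [er, Sm.ev' h] with v h1 h2 _
      rw [zz_spec h2, h1]

theorem gg_ne {j : Ix} {x : XX} (hi : x ∈ pp i '' WW i.2) (hj : x ∈ pp j '' WW j.2) :
    gg i j x ≠ 0 ∧ (i.1 = j.1 → gg i j x = 1) := by
  obtain ⟨z, hz, rfl⟩ := hi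
  obtain ⟨y, hy, e⟩ := hj
  obtain ⟨⟨b, ν, l⟩, -⟩ := (pp_eq hz hy).1 e.symm
  rw [gg_spec hz hy e.symm l]
  exact ⟨Complex.exp_ne_zero _, fun c => by simp [GG, l.same hz hy c, emb_zero]⟩

open Classical in
/-- The frame of the line bundle near a node. -/
noncomputable def ee (P : Cl) (i : Ix) (x : XX) : ℂ :=
  if x ∈ pp (P, 0) '' WW 0 then (gg i (P, 0) x)⁻¹ else (gg i (P, 1) x)⁻¹

theorem ee_eq {x : XX} (hi : x ∈ pp i '' WW i.2) (h : x ∈ pp (P, t) '' WW t) :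
    ee P i x = (gg i (P, t) x)⁻¹ := by
  unfold ee
  split_ifs with c
  · rw [← gg_mul i (P, 0) (P, t) x hi c h, (gg_ne (i := (P, 0)) (j := (P, t)) c h).2 rfl, one_mul]
  · rcases fin2 0 t with rfl | rfl
    · exact absurd h c
    · rfl

theorem zz_frame (F : Fn) (x : XN) : ∃ (O : Set XN) (e : Ix → XX → ℂ) (c C : ℝ), IsOpen O ∧
    x ∈ O ∧ 0 < c ∧ ∀ i, ∀ w ∈ WW i.2, rho (pp i w) ∈ O → AnalyticAt ℂ (fun v => e i (pp i v)) w ∧
      (c ≤ ‖e i (pp i w)‖ ^ 2 * Real.exp (-F.ψ i.2 w) ∧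
        ‖e i (pp i w)‖ ^ 2 * Real.exp (-F.ψ i.2 w) ≤ C) ∧
      ∀ k, pp i w ∈ pp k '' WW k.2 → e k (pp i w) = gg i k (pp i w) * e i (pp i w) := by
  obtain ⟨P, hP⟩ := VV_cover x
  obtain ⟨M, hM⟩ := (isCompact_Icc (a := (0 : ℝ)) (b := 1)).exists_bound_of_continuousOn
    F.χ_smooth.continuous.continuousOn
  refine ⟨VV P, ee P, Real.exp (-(2 * Real.pi * M)), Real.exp (2 * Real.pi * M), VV_open P, hP,
    Real.exp_pos _, fun i w hw hV => ?_⟩
  obtain ⟨t, u, hu, e⟩ := in_chart hV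
  have m1 : pp i w ∈ pp i '' WW i.2 := ⟨w, hw, rfl⟩
  have m2 : pp i w ∈ pp (P, t) '' WW t := ⟨u, hu, e⟩
  have n := (gg_ne (j := (P, t)) m1 m2).1
  refine ⟨?_, ?_, fun k hk => ?_⟩
  · obtain ⟨φ, φw, a, ev, -, ag⟩ := pp_trans F (j := (P, t)) hw hu e.symm
    refine (ag.inv n).congr ?_
    filter_upwards [ev, (isOpen_WW _).mem_nhds hw, a.continuousAt.eventually
      ((isOpen_WW t).mem_nhds (by rw [φw]; exact hu))] with v h1 h2 h3
    exact (ee_eq ⟨v, h2, rfl⟩ ⟨φ v, h3, h1.1⟩).symm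
  · have e1 : ‖ee P i (pp i w)‖ ^ 2 * Real.exp (-F.ψ i.2 w) = Real.exp (-F.ψ t u) := by
      have := norm_ne_zero_iff.2 n
      rw [ee_eq m1 m2, ψ_eq0 F (j := (P, t)) hw hu e.symm, norm_inv]
      field_simp
    obtain ⟨b, r⟩ := exists_rep t u
    have b1 := hM ‖mm t u‖ ⟨norm_nonneg _, by
      rw [r.mm]; nlinarith [r.mem_iff.1 hu 0, norm_nonneg (b 0)]⟩
    rw [Real.norm_eq_abs, abs_le] at b1
    rw [e1, Real.exp_le_exp, Real.exp_le_exp, Fn.ψ]
    constructor <;> nlinarith [Real.pi_pos, b1.1, b1.2]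
  · rw [ee_eq m1 m2, ee_eq hk m2, ← gg_mul i k (P, t) _ m1 hk m2]
    have n1 := (gg_ne m1 hk).1
    have n2 := (gg_ne (j := (P, t)) hk m2).1
    field_simp

theorem ph_any (F : Fm) (i k : Ix) (φ : E 2 → E 2) (w : E 2) (hw : w ∈ WW i.2)
    (a : AnalyticAt ℂ φ w) (hk : φ w ∈ WW k.2) (ev : ∀ᶠ v in 𝓝 w, pp k (φ v) = pp i v) :
    PH (fun v => F.Φ i.2 v - F.Φ k.2 (φ v)) w := by
  obtain ⟨φ0, e0, a0, ev0, ph, -⟩ := trans0 F hw hk ((pp_eq hw hk).1 ev.self_of_nhds.symm)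
  refine ph.congr ?_
  filter_upwards [ev, ev0, (isOpen_WW _).mem_nhds hw,
    a.continuousAt.eventually ((isOpen_WW _).mem_nhds hk),
    a0.continuousAt.eventually ((isOpen_WW _).mem_nhds (by rw [e0]; exact hk))] with v h1 h2 h3 h4 h5
  rw [pp_inj k h4 h5 (h1.trans ((pp_eq h3 h5).2 h2.1))]

end Pool.Agent.Kum
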