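import Pool.Agent.P.MP_63735c_ag.Kum.Top
import Pool.Agent.P.MP_63735c_ag.Kum.W2
import Pool.Agent.P.MP_63735c_ag.Kum.U3
import Pool.Agent.P.MP_63735c_ag.Kum.U3b
import Pool.Agent.P.MP_63735c_ag.Kum.A2

/-! The nodal Kummer surface as a contraction datum. -/

open scoped ContDiff Topology
open Filter

namespace Pool.Agent.Kum

open Pool.Agent.SPF

/-- The profile without logarithm. -/
def Fz.fm (Z : Fz) : Fm := ⟨0, Z.κ, Z.Y, fun t ht => by rw [zero_mul, zero_add, Z.Y_lin t ht]⟩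

theorem Fz.fm_Φ (Z : Fz) (t : Fin 2) : Z.fm.Φ t = fun z => Z.Φa (qq t z) := by
  funext z
  simp [Fm.Φ, Fz.fm, Z.Φa_qq]

theorem mm_qq (t : Fin 2) (z : E 2) : mm t z = qq t z 0 := by
  fin_cases t <;> rfl

/-- The contraction datum of the nodal Kummer surface. -/
noncomputable def nodal (F : Fn) (Z : Fz) : Sing RR (kummer F) where
  ρ := rho
  j := jj
  R_open := RR_open
  ρ_cont := rho_cont
  j_cont := jj_cont
  j_dense := jj_dense
  ρ_j := rho_jj
  j_ρ := jj_rho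
  Q_mem a ha := by
    show rho (QQ a) ∈ RR
    rw [rho_QQ ha]
    exact mem_RR.2 ha
  ψ_ne := by
    obtain ⟨z, hz, h0, h⟩ := F.ψ_ne'
    exact ⟨(0, 0), z, hz, (rho_mem (i := (0, 0)) hz).2 h0, h⟩
  Φ' i := Z.fm.Φ i.2
  Φ'_smooth i := by
    rw [Z.fm_Φ]
    exact contDiff_iff_contDiffAt.2 fun z =>
      Z.Φa_smooth.contDiffAt.comp z (an_smooth (qq_an i.2 z))
  Φ'_ph i k φ w hw a hk ev := ph_any Z.fm i k φ w hw a hk ev
  κ := Cl
  V := VV
  z := zz
  V_open := VV_open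
  V_cover := VV_cover
  z_cont := zz_cont
  z_inj := zz_inj
  z_trans := zz_trans
  πa := pia
  πa_hol a b := by
    fin_cases a <;> fin_cases b <;> simp [pia] <;> fun_prop
  πa_skew w := by
    ext a b
    fin_cases a <;> fin_cases b <;> simp [pia]
  sing _ := zz_sing
  ψa := F.ψa
  Φa := Z.Φa
  ψa_smooth := F.ψa_smooth
  Φa_smooth := Z.Φa_smooth
  Φa_pos := Z.Φa_pos
  loc P y h := by
    obtain ⟨t, w, hw, rfl⟩ := in_chart h
    refine ⟨(P, t), w, hw, rfl, qq t, qq_an t w, ?_, qq_pia t w,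
      fun c => qq_inj ((rho_mem (i := (P, t)) hw).1 c)⟩
    filter_upwards [(isOpen_WW t).mem_nhds hw] with v hv
    refine ⟨zz_pp hv, ?_, congrFun (Z.fm_Φ t) v⟩
    show F.ψ t v = _
    rw [Fn.ψ, Fn.ψa, mm_qq]
  normal := zz_normal
  frame := zz_frame F

theorem exists_sing : ∃ (X Y : Type) (_ : TopologicalSpace X) (_ : T2Space X) (_ : CompactSpace X)
    (_ : TopologicalSpace Y) (_ : T2Space Y) (_ : CompactSpace Y) (R : Set X) (G : Glue Y),
    IsOpen R ∧ Dense R ∧ R ≠ Set.univ ∧ Nonempty (Sing R G) := by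
  obtain ⟨F⟩ := exists_Fn
  obtain ⟨Z⟩ := exists_Fz
  exact ⟨XN, XX, inferInstance, XN_t2, XN_cpt, inferInstance, XX_t2 F, XX_cpt, RR, kummer F,
    RR_open, RR_dense, RR_ne, ⟨nodal F Z⟩⟩

end Pool.Agent.Kum
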