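import Pool.Agent.P.MP_63735c_ag.Kum.T

/-! Topology of the Kummer surface, its line bundle and its flat cover. -/

open scoped ComplexOrder ContDiff Matrix Topology
open Filter

namespace Pool.Agent.Kum

open Pool.Agent.SPF

variable {t t' : Fin 2} {z y b b' : E 2} {i j : Ix} {ν ν' : Fin 2 → GaussianInt}

theorem pp_opn (F : Fn) (i : Ix) (O : Set (E 2)) (hO : IsOpen O) (hs : O ⊆ WW i.2) :
    IsOpen (pp i '' O) := by
  rw [← isQuotientMap_quotient_mk'.isOpen_preimage, isOpen_sigma_iff]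
  intro j
  rw [isOpen_iff_mem_nhds]
  rintro ⟨y, hy⟩ ⟨z, hz, e⟩
  have e' : pp j y = pp i z := (pp_mk hy).trans e.symm
  obtain ⟨φ, φy, a, ev, -⟩ := trans0 F.fm hy (hs hz) ((pp_eq hy (hs hz)).1 e')
  have m : ∀ᶠ w in 𝓝 y, φ w ∈ O :=
    a.continuousAt.eventually (hO.mem_nhds (by rw [φy]; exact hz))
  have := (continuous_subtype_val (p := fun w => w ∈ WW j.2)).continuousAt
    (x := ⟨y, hy⟩).eventually (m.and ev)
  filter_upwards [this] with w hw
  exact ⟨φ w, hw.1, ((pp_eq w.2 (hs hw.1)).2 hw.2.1).symm.trans (pp_mk w.2)⟩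

theorem fin_gi : {m : GaussianInt | ‖(m : ℂ)‖ < 2}.Finite := by
  have inj : Function.Injective fun m : GaussianInt => (m.re, m.im) := fun a b e =>
    Zsqrtd.ext (congrArg Prod.fst e) (congrArg Prod.snd e)
  refine (((Set.finite_Icc (-2 : ℤ) 2).prod (Set.finite_Icc (-2 : ℤ) 2)).preimage
    inj.injOn).subset fun m hm => ?_
  have h1 : |m.re| < 2 := by exact_mod_cast (gi_re m).trans_lt hm
  have h2 : |m.im| < 2 := by exact_mod_cast (gi_im m).trans_lt hm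
  rw [abs_lt] at h1 h2
  simp only [Set.mem_preimage, Set.mem_prod, Set.mem_Icc]
  omega

theorem closed_rep (t : Fin 2) {T : Type} [TopologicalSpace T] {f g : T → E 2} (hf : Continuous f)
    (hg : Continuous g) : IsClosed {x | Rep t (f x) (g x)} := by
  have h1 : IsClosed {x | g x t ^ 2 = f x t} := isClosed_eq (by fun_prop) (by fun_prop)
  have h2 : IsClosed {x | g x t.rev = g x t * f x t.rev} := isClosed_eq (by fun_prop) (by fun_prop)
  exact h1.inter h2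

theorem exists_closed (i j : Ix) : ∃ C : Set (E 2 × E 2), IsClosed C ∧
    ∀ z ∈ WW i.2, ∀ y ∈ WW j.2, (z, y) ∈ C ↔ Rl i j z y := by
  have fin : {ν : Fin 2 → GaussianInt | cls ν = i.1 + j.1 ∧ ∀ k, ‖emb ν k‖ < 2}.Finite :=
    (Set.Finite.pi' fun _ => fin_gi).subset fun ν h => h.2
  have c1 : ∀ ν, IsClosed (Prod.fst '' {q : (E 2 × E 2) × Metric.closedBall (0 : E 2) 1 |
      Rep i.2 q.1.1 q.2 ∧ Rep j.2 q.1.2 (q.2 + emb ν)}) := fun ν =>
    isClosedMap_fst_of_compactSpace _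
      ((closed_rep i.2 (by fun_prop) (by fun_prop)).inter
        (closed_rep j.2 (by fun_prop) (by fun_prop)))
  have c2 : IsClosed {q : E 2 × E 2 | i.1 = j.1 → Dir i.2 j.2 q.1 q.2} := by
    by_cases e : i.1 = j.1
    · by_cases et : i.2 = j.2
      · simp only [e, Dir, et, ne_eq, not_true_eq_false, forall_true_left, IsEmpty.forall_iff,
          and_true]
        exact isClosed_eq (by fun_prop) (by fun_prop)
      · simp only [e, Dir, et, ne_eq, not_false_eq_true, forall_true_left, IsEmpty.forall_iff,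
          true_and]
        exact isClosed_eq (by fun_prop) (by fun_prop)
    · simp [e]
  refine ⟨_, (fin.isClosed_biUnion fun ν _ => c1 ν).inter c2, fun z hz y hy => ?_⟩
  refine and_congr_left fun _ => ?_
  simp only [Set.mem_iUnion]
  constructor
  · rintro ⟨ν, h, ⟨q, c⟩, r, rfl⟩
    exact ⟨c, ν, h.1, r.1, r.2⟩
  · rintro ⟨b, ν, lk⟩
    refine ⟨ν, ⟨lk.1, lk.lt hz hy⟩, ⟨(z, y), b, ?_⟩, lk.2, rfl⟩
    rw [mem_closedBall_zero_iff, pi_norm_le_iff_of_nonneg zero_le_one]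
    exact fun k => (lk.2.1.mem_iff.1 hz k).le.trans (by norm_num)

theorem XX_t2 (F : Fn) : T2Space XX := by
  refine ⟨fun x x' hne => ?_⟩
  obtain ⟨i, z, hz, rfl⟩ := pp_cover x
  obtain ⟨j, y, hy, rfl⟩ := pp_cover x'
  obtain ⟨C, hC, e⟩ := exists_closed i j
  have n : (z, y) ∈ Cᶜ := fun c => hne ((pp_eq hz hy).2 ((e z hz y hy).1 c))
  obtain ⟨U, V, hU, hV, zU, yV, s⟩ := isOpen_prod_iff.1 hC.isOpen_compl z y n
  refine ⟨pp i '' (U ∩ WW i.2), pp j '' (V ∩ WW j.2),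
    pp_opn F i _ (hU.inter (isOpen_WW _)) Set.inter_subset_right,
    pp_opn F j _ (hV.inter (isOpen_WW _)) Set.inter_subset_right,
    ⟨z, ⟨zU, hz⟩, rfl⟩, ⟨y, ⟨yV, hy⟩, rfl⟩, Set.disjoint_left.2 ?_⟩
  rintro _ ⟨u, hu, rfl⟩ ⟨v, hv, c⟩
  exact s (Set.mk_mem_prod hu.1 hv.1) ((e u hu.2 v hv.2).2 ((pp_eq hu.2 hv.2).1 c.symm))

/-- The nearest lattice point. -/
noncomputable def rd (a : E 2) : Fin 2 → GaussianInt := fun k => ⟨round (a k).re, round (a k).im⟩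

theorem rd_sq (a : E 2) (k : Fin 2) : ‖(a + emb (-rd a)) k‖ ^ 2 ≤ 1 / 2 := by
  have h1 := abs_sub_round (a k).re
  have h2 := abs_sub_round (a k).im
  have e1 : ((a + emb (-rd a)) k).re = (a k).re - round (a k).re := by
    simp [emb, rd, sub_eq_add_neg]
  have e2 : ((a + emb (-rd a)) k).im = (a k).im - round (a k).im := by
    simp [emb, rd, sub_eq_add_neg]
  rw [← Complex.normSq_eq_norm_sq, Complex.normSq_apply, e1, e2]
  rw [abs_le] at h1 h2
  nlinarith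

theorem rd_lt (a : E 2) (k : Fin 2) : ‖(a + emb (-rd a)) k‖ < 4 / 5 := by
  have := rd_sq a k
  nlinarith [norm_nonneg ((a + emb (-rd a)) k)]

theorem XX_cpt : CompactSpace XX := by
  let K : Fin 2 → Set (E 2) := fun t => {z | ‖z t‖ ≤ 1 / 2 ∧ ‖z t.rev‖ ≤ 1}
  have sub : ∀ t, K t ⊆ WW t := fun t z hz => by
    refine ⟨hz.1.trans_lt (by norm_num), ?_⟩
    rw [norm_mul, norm_pow]
    have : ‖z t.rev‖ ^ 2 ≤ 1 := pow_le_one₀ (norm_nonneg _) hz.2
    nlinarith [hz.1, norm_nonneg (z t)]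
  have cK : ∀ t, IsCompact (K t) := fun t => by
    refine (isCompact_closedBall (0 : E 2) 1).of_isClosed_subset ?_ fun z hz => ?_
    · have h1 : IsClosed {z : E 2 | ‖z t‖ ≤ 1 / 2} := isClosed_le (by fun_prop) continuous_const
      have h2 : IsClosed {z : E 2 | ‖z t.rev‖ ≤ 1} := isClosed_le (by fun_prop) continuous_const
      exact h1.inter h2
    · rw [mem_closedBall_zero_iff, pi_norm_le_iff_of_nonneg zero_le_one]
      intro k
      rcases fin2 t k with rfl | rfl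
      exacts [hz.1.trans (by norm_num), hz.2]
  have : IsCompact (⋃ i : Ix, pp i '' K i.2) := isCompact_iUnion fun i =>
    (cK i.2).image_of_continuousOn ((pp_cont i).mono (sub _))
  refine ⟨this.of_isClosed_subset isClosed_univ fun x _ => ?_⟩
  obtain ⟨i, z, hz, rfl⟩ := pp_cover x
  obtain ⟨b, r⟩ := exists_rep i.2 z
  rw [Set.mem_iUnion]
  by_cases z0 : z i.2 = 0
  · by_cases h1 : ‖z i.2.rev‖ ≤ 1
    · exact ⟨i, z, ⟨by simp [z0], h1⟩, rfl⟩
    · have n0 : z i.2.rev ≠ 0 := fun c => h1 (by simp [c])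
      have m : sw i.2 z ∈ K i.2.rev := by
        refine ⟨by simp [sw, rev_ne, z0], ?_⟩
        simp only [sw, Fin.rev_rev, if_true, norm_inv]
        exact inv_le_one_of_one_le₀ (not_le.1 h1).le
      refine ⟨(i.1, i.2.rev), _, m, ((pp_eq (j := (i.1, i.2.rev)) hz (sub _ m)).2 ?_).symm⟩
      refine ⟨⟨b, 0, by rw [cl_self, cls_zero], r, by simpa [emb_zero] using r.sw n0⟩,
        fun _ => ⟨fun c => absurd c.symm (rev_ne _), fun _ => by simp [sw, n0]⟩⟩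
  · set c := b + emb (-rd b) with hc
    have c0 : c ≠ 0 := fun e => by
      have e1 : emb (rd b) = b := by rw [hc, emb_neg] at e; linear_combination -e
      have e2 : rd b = 0 := all_small fun k => by
        rw [e1]; exact (r.mem_iff.1 hz k).trans (by norm_num)
      rw [e2, emb_zero] at e1
      exact z0 (r.zero_iff.2 e1.symm)
    obtain ⟨t, ht⟩ : ∃ t : Fin 2, ‖c t.rev‖ ≤ ‖c t‖ := by
      rcases le_total ‖c 1‖ ‖c 0‖ with h | h
      exacts [⟨0, h⟩, ⟨1, h⟩]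
    have n : c t ≠ 0 := fun e => c0 (ext2 t e (by simpa [e] using ht))
    have m : cc t c ∈ K t := by
      refine ⟨by simp only [cc, if_true, norm_pow]; exact rd_sq b t, ?_⟩
      simp only [cc, rev_ne, if_false, norm_div]
      exact div_le_one_of_le₀ ht (norm_nonneg _)
    have lk : Lk i (i.1 + cls (-rd b), t) z (cc t c) b (-rd b) :=
      ⟨by rw [← add_assoc, cl_self, zero_add], r, rep_cc n⟩
    exact ⟨(i.1 + cls (-rd b), t), _, m,
      ((pp_eq (j := (i.1 + cls (-rd b), t)) hz (sub _ m)).2 (lk.rl hz (sub _ m) z0)).symm⟩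

/-- The cocycle of the line bundle. -/
noncomputable def gg (i j : Ix) (x : XX) : ℂ :=
  Classical.epsilon fun c => ∃ z ∈ WW i.2, ∃ y ∈ WW j.2, pp i z = x ∧ pp j y = x ∧
    ∃ b ν, Lk i j z y b ν ∧ c = GG (b 0) (emb ν 0)

theorem gg_spec (hz : z ∈ WW i.2) (hy : y ∈ WW j.2) (e : pp i z = pp j y) (h : Lk i j z y b ν) :
    gg i j (pp i z) = GG (b 0) (emb ν 0) := by
  obtain ⟨z', hz', y', hy', e1, e2, b', ν', h', e3⟩ := Classical.epsilon_spec
    (p := fun c => ∃ z' ∈ WW i.2, ∃ y' ∈ WW j.2, pp i z' = pp i z ∧ pp j y' = pp i z ∧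
      ∃ b ν, Lk i j z' y' b ν ∧ c = GG (b 0) (emb ν 0)) ⟨_, z, hz, y, hy, rfl, e.symm, b, ν, h, rfl⟩
  obtain rfl := pp_inj i hz' hz e1
  obtain rfl := pp_inj j hy' hy (e2.trans e)
  rw [gg, e3]
  rcases h.uniq h' hz hy with ⟨rfl, rfl⟩ | ⟨rfl, rfl⟩
  · rfl
  · simp [GG, emb_neg]

theorem GG_mul (u : ℂ) (m m' : GaussianInt) :
    GG (u + m) m' * GG u m = GG u ((m : ℂ) + m') := by
  simp only [GG, ← Complex.exp_add]
  rw [Complex.exp_eq_exp_iff_exists_int]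
  refine ⟨(m * star m').im, ?_⟩
  have e1 : ((‖(m : ℂ) + m'‖ : ℝ) : ℂ) ^ 2 = ((m : ℂ) + m') * star ((m : ℂ) + m') := by
    rw [Complex.star_def, Complex.mul_conj, Complex.normSq_eq_norm_sq]; simp
  have e2 : ∀ v : ℂ, ((‖v‖ : ℝ) : ℂ) ^ 2 = v * star v := fun v => by
    rw [Complex.star_def, Complex.mul_conj, Complex.normSq_eq_norm_sq]; simp
  have e3 : (((m * star m').im : ℤ) : ℂ) * (2 * Complex.I) =
      (m : ℂ) * star (m' : ℂ) - star (m : ℂ) * m' := by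
    simp only [GaussianInt.toComplex_def, Zsqrtd.im_mul, Zsqrtd.im_star, Zsqrtd.re_star, star_add,
      star_mul', star_intCast, Complex.star_def, Complex.conj_I]
    push_cast
    ring
  rw [e1, e2, e2, star_add]
  linear_combination (-Real.pi : ℂ) * e3

theorem gg_mul (i j k : Ix) (x : XX) (hi : x ∈ pp i '' WW i.2) (hj : x ∈ pp j '' WW j.2)
    (hk : x ∈ pp k '' WW k.2) : gg j k x * gg i j x = gg i k x := by
  obtain ⟨z, hz, rfl⟩ := hi
  obtain ⟨y, hy, e1⟩ := hj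
  obtain ⟨w, hw, e2⟩ := hk
  obtain ⟨⟨b, ν, l1⟩, -⟩ := (pp_eq hz hy).1 e1.symm
  obtain ⟨ν', l2⟩ : ∃ ν', Lk j k y w (b + emb ν) ν' := by
    obtain ⟨⟨b', ν', l2⟩, -⟩ := (pp_eq hy hw).1 (e1.trans e2.symm)
    rcases l1.2.2.uniq l2.2.1 with rfl | rfl
    · exact ⟨_, l2⟩
    · exact ⟨_, by simpa only [neg_neg] using l2.neg⟩
  have l3 : Lk i k z w b (ν + ν') := by
    refine ⟨?_, l1.2.1, by rw [emb_add, ← add_assoc]; exact l2.2.2⟩
    rw [cls_add, l1.1, l2.1, add_assoc, ← add_assoc j.1, cl_self, zero_add]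
  rw [gg_spec hz hy e1.symm l1, gg_spec hz hw e2.symm l3, ← e1,
    gg_spec hy hw (e1.trans e2.symm) l2, emb_add]
  exact GG_mul _ _ _

theorem Rep.mm (h : Rep t z b) : ‖mm t z‖ = ‖b 0‖ ^ 2 := by
  rw [← norm_pow]
  congr 1
  fin_cases t
  · exact h.1.symm
  · have h1 : b 1 ^ 2 = z 1 := h.1
    have h2 : b 0 = b 1 * z 0 := h.2
    show z 1 * z 0 ^ 2 = _
    rw [h2, ← h1]; ring

theorem ψ_eq0 (F : Fn) (hz : z ∈ WW i.2) (hy : y ∈ WW j.2) (e : pp i z = pp j y) :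
    Real.exp (-F.ψ i.2 z) = ‖gg i j (pp i z)‖ ^ 2 * Real.exp (-F.ψ j.2 y) := by
  obtain ⟨⟨b, ν, l⟩, -⟩ := (pp_eq hz hy).1 e
  rw [gg_spec hz hy e l, GG, Complex.norm_exp, ← Real.exp_nat_mul, ← Real.exp_add, Fn.ψ, Fn.ψ,
    l.2.1.mm, l.2.2.mm, Complex.re_ofReal_mul]
  congr 1
  by_cases h : ν 0 = 0
  · simp [emb, h]
  · obtain ⟨b1, b2⟩ := l.big hz hy h
    rw [F.χ_lin _ (by nlinarith), F.χ_lin _ (by nlinarith), Pi.add_apply, nsq_add]
    push_cast
    ring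

open Classical in
/-- The flat cover. -/
noncomputable def QQ (a : E 2) : XX :=
  pp (cls (rd a), if (a + emb (-rd a)) 0 = 0 then 1 else 0)
    (cc (if (a + emb (-rd a)) 0 = 0 then 1 else 0) (a + emb (-rd a)))

theorem QQ_spec {a : E 2} (μ : Fin 2 → GaussianInt) (h : ∀ k, ‖(a + emb (-μ)) k‖ < 4 / 5)
    (h0 : (a + emb (-μ)) t ≠ 0) : QQ a = pp (cls μ, t) (cc t (a + emb (-μ))) := by
  classical
  have ee : a + emb (-rd a) + emb (rd a + -μ) = a + emb (-μ) := by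
    simp only [emb_add, emb_neg]; abel
  have c0 : a + emb (-rd a) ≠ 0 := fun e => by
    rw [e, zero_add] at ee
    have : rd a + -μ = 0 := all_small fun k => by rw [ee]; exact (h k).trans (by norm_num)
    rw [this, emb_zero] at ee
    exact h0 (by rw [← ee]; rfl)
  unfold QQ
  set s : Fin 2 := if (a + emb (-rd a)) 0 = 0 then 1 else 0 with hs
  have n : (a + emb (-rd a)) s ≠ 0 := by
    by_cases e : (a + emb (-rd a)) 0 = 0
    · rw [hs, if_pos e]
      exact fun c => c0 (ext2 0 e c)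
    · rwa [hs, if_neg e]
  have m1 := (rep_cc n).mem_iff.2 (rd_lt a)
  have m2 := (rep_cc h0).mem_iff.2 h
  have lk : Lk (cls (rd a), s) (cls μ, t) _ _ (a + emb (-rd a)) (rd a + -μ) :=
    ⟨by rw [cls_add, cls_neg], rep_cc n, by rw [ee]; exact rep_cc h0⟩
  exact (pp_eq (i := (cls (rd a), s)) (j := (cls μ, t)) m1 m2).2
    (lk.rl m1 m2 (by simpa [cc] using n))

theorem DD_ne {a : E 2} (ha : a ∈ DD) : ∃ t, (a + emb (-rd a)) t ≠ 0 :=
  Function.ne_iff.1 fun e : a + emb (-rd a) = 0 => ha (rd a) (by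
    rw [emb_neg] at e; linear_combination e)

theorem QQ_loc {a : E 2} (ha : a ∈ DD) : ∃ (i : Ix) (κ : E 2 → E 2), AnalyticAt ℂ κ a ∧
    κ a ∈ WW i.2 ∧ (jac κ a).det ≠ 0 ∧ ∀ᶠ w in 𝓝 a, pp i (κ w) = QQ w := by
  obtain ⟨t, h0⟩ := DD_ne ha
  have s : AnalyticAt ℂ (fun w : E 2 => w + emb (-rd a)) a := analyticAt_id.add analyticAt_const
  refine ⟨(cls (rd a), t), fun w => cc t (w + emb (-rd a)), (cc_an h0).comp (f := fun w => w + emb (-rd a)) s,
    (rep_cc h0).mem_iff.2 (rd_lt a), ?_, ?_⟩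
  · rw [jac_comp (s := fun w => w + emb (-rd a)) (cc_an h0).differentiableAt s.differentiableAt,
      Matrix.det_mul, det_cc h0, jac_add_const (fun w => w), jac_id]
    simp
  · have c : ∀ k, ContinuousAt (fun w : E 2 => (w + emb (-rd a)) k) a := fun k => by fun_prop
    have e1 : ∀ᶠ w in 𝓝 a, ∀ k, ‖(w + emb (-rd a)) k‖ < 4 / 5 :=
      eventually_all.2 fun k => (c k).norm.eventually_lt continuousAt_const (rd_lt a k)
    filter_upwards [e1, (c t).eventually_ne h0] with w h1 h2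
    exact (QQ_spec _ h1 h2).symm

theorem QQ_neg {a : E 2} (ha : a ∈ DD) : QQ (-a) = QQ a := by
  obtain ⟨t, h0⟩ := DD_ne ha
  have e : -a + emb (- -rd a) = -(a + emb (-rd a)) := by simp only [emb_neg]; abel
  rw [QQ_spec (rd a) (rd_lt a) h0, QQ_spec (t := t) (-rd a)
    (fun k => by rw [e, Pi.neg_apply, norm_neg]; exact rd_lt a k)
    (by rw [e]; exact neg_ne_zero.2 h0), e, cls_neg]
  congr 1
  funext k
  simp only [cc, Pi.neg_apply, neg_sq, neg_div_neg_eq]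

theorem QQ_per {a : E 2} (ha : a ∈ DD) (μ : Fin 2 → GaussianInt) :
    QQ (a + (2 : ℂ) • emb μ) = QQ a := by
  obtain ⟨t, h0⟩ := DD_ne ha
  have e : a + (2 : ℂ) • emb μ + emb (-(rd a + (μ + μ))) = a + emb (-rd a) := by
    simp only [emb_neg, emb_add, two_smul]; abel
  rw [QQ_spec (rd a) (rd_lt a) h0, QQ_spec (t := t) (rd a + (μ + μ))
    (fun k => by rw [e]; exact rd_lt a k) (by rw [e]; exact h0), e, cls_add, cls_add, cl_self,
    add_zero]

theorem QQ_dense (hz : z ∈ WW i.2) :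
    z ∈ closure {w | w ∈ WW i.2 ∧ ∃ a ∈ DD, QQ a = pp i w} := by
  have d : Dense {w : E 2 | w i.2 ≠ 0} :=
    (dense_compl_singleton (0 : ℂ)).preimage (isOpenMap_eval (X := fun _ : Fin 2 => ℂ) i.2)
  refine closure_mono ?_ (d.open_subset_closure_inter (isOpen_WW i.2) hz)
  rintro w ⟨hw, w0⟩
  obtain ⟨b, r⟩ := exists_rep i.2 w
  obtain ⟨μ, c⟩ := cls_surj i.1
  have e : b + emb μ + emb (-μ) = b := by rw [emb_neg]; abel
  refine ⟨hw, b + emb μ, fun μ' e' => ?_, ?_⟩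
  · have e1 : emb (μ' + -μ) = b := by rw [emb_add, ← e', e]
    have e2 : μ' + -μ = 0 := all_small fun k => by
      rw [e1]; exact (r.mem_iff.1 hw k).trans (by norm_num)
    rw [e2, emb_zero] at e1
    exact w0 (r.zero_iff.2 e1.symm)
  · rw [QQ_spec (t := i.2) μ (by rw [e]; exact r.mem_iff.1 hw) (by rw [e]; exact r.ne w0), e, c,
      r.eq_cc w0]

theorem pp_trans (F : Fn) (hz : z ∈ WW i.2) (hy : y ∈ WW j.2) (e : pp i z = pp j y) :
    ∃ φ : E 2 → E 2, φ z = y ∧ AnalyticAt ℂ φ z ∧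
      (∀ᶠ w in 𝓝 z, pp j (φ w) = pp i w ∧ (jac φ w).det = 1) ∧
      PH (fun w => F.Φ i.2 w - F.Φ j.2 (φ w)) z ∧ AnalyticAt ℂ (fun w => gg i j (pp i w)) z := by
  obtain ⟨φ, φz, a, ev, ph, G, aG, eG⟩ := trans0 F.fm hz hy ((pp_eq hz hy).1 e)
  have m1 : ∀ᶠ w in 𝓝 z, w ∈ WW i.2 := (isOpen_WW _).mem_nhds hz
  have m2 : ∀ᶠ w in 𝓝 z, φ w ∈ WW j.2 :=
    a.continuousAt.eventually ((isOpen_WW _).mem_nhds (by rw [φz]; exact hy))
  refine ⟨φ, φz, a, ?_, ph, aG.congr ?_⟩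
  · filter_upwards [ev, m1, m2] with w h h1 h2
    exact ⟨((pp_eq h1 h2).2 h.1).symm, h.2⟩
  · filter_upwards [ev, m1, m2, eG] with w h h1 h2 ⟨b, ν, l, e⟩
    rw [e, gg_spec h1 h2 ((pp_eq h1 h2).2 h.1) l]

end Pool.Agent.Kum
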